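import Mathlib

/-!
Basic definitions for 2-resilient 3-graphs (problem MP_d365ae_co).
-/

namespace Res12

open Finset

set_option linter.unusedSectionVars false

variable {V : Type} [Fintype V] [DecidableEq V]

/-- A family of sets is a matching if its members are pairwise disjoint. -/
def IsMatching (P : Finset (Finset V)) : Prop :=
  ∀ e ∈ P, ∀ f ∈ P, e ≠ f → Disjoint e f

/-- The set of vertices covered by a family. -/
def VS (P : Finset (Finset V)) : Finset V := P.biUnion id

/-- The set of `c` such that `{a,b,c}` is an edge of `F`. -/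
def N (F : Finset (Finset V)) (a b : V) : Finset V :=
  univ.filter (fun c => ({a, b, c} : Finset V) ∈ F)

/-- Standing hypotheses: `F` is a 3-graph, it has no matching with more than `s` edges, and for
any two vertices there is a matching of `F` with `s` edges avoiding both. -/
structure Hyp (F : Finset (Finset V)) (s : ℕ) : Prop where
  three : ∀ e ∈ F, e.card = 3
  le : ∀ P ⊆ F, IsMatching P → P.card ≤ s
  avoid : ∀ a b : V, ∃ P ⊆ F, IsMatching P ∧ P.card = s ∧ ∀ e ∈ P, a ∉ e ∧ b ∉ e

theorem mem_VS {P : Finset (Finset V)} {v : V} : v ∈ VS P ↔ ∃ e ∈ P, v ∈ e := by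
  simp [VS]

theorem subset_VS {P : Finset (Finset V)} {e : Finset V} (he : e ∈ P) : e ⊆ VS P := by
  intro v hv
  exact mem_VS.2 ⟨e, he, hv⟩

theorem mem_N {F : Finset (Finset V)} {a b c : V} : c ∈ N F a b ↔ ({a, b, c} : Finset V) ∈ F := by
  simp [N]

theorem IsMatching.mono {P Q : Finset (Finset V)} (h : IsMatching P) (hQ : Q ⊆ P) :
    IsMatching Q := fun e he f hf hef => h e (hQ he) f (hQ hf) hef

theorem card_VS {P : Finset (Finset V)} (hm : IsMatching P) (h3 : ∀ e ∈ P, e.card = 3) :
    (VS P).card = 3 * P.card := by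
  unfold VS
  rw [Finset.card_biUnion]
  · simp only [id]
    rw [Finset.sum_congr rfl h3]
    simp [mul_comm]
  · intro e he f hf hef
    exact hm e he f hf hef

/-- If `e` is disjoint from the vertex set of the matching `P` and `e` is non-empty,
then `insert e P` is a matching with one more edge. -/
theorem IsMatching.insert {P : Finset (Finset V)} (hm : IsMatching P) {e : Finset V}
    (hd : Disjoint e (VS P)) : IsMatching (insert e P) := by
  intro f hf g hg hfg
  rw [mem_insert] at hf hg
  rcases hf with rfl | hf <;> rcases hg with rfl | hg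
  · exact absurd rfl hfg
  · exact hd.mono_right (subset_VS hg)
  · exact (hd.mono_right (subset_VS hf)).symm
  · exact hm f hf g hg hfg

theorem not_mem_of_disjoint_VS {P : Finset (Finset V)} {e : Finset V} (hne : e.Nonempty)
    (hd : Disjoint e (VS P)) : e ∉ P := by
  intro he
  obtain ⟨v, hv⟩ := hne
  exact (Finset.disjoint_left.1 hd hv) (mem_VS.2 ⟨e, he, hv⟩)

section
variable {F : Finset (Finset V)} {s : ℕ}

/-- A maximum matching meets every edge. -/
theorem Hyp.meets (h : Hyp F s) {P : Finset (Finset V)} (hP : P ⊆ F) (hm : IsMatching P)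
    (hc : P.card = s) {e : Finset V} (he : e ∈ F) : ¬ Disjoint e (VS P) := by
  intro hd
  have hne : e.Nonempty := by
    rw [← Finset.card_pos, h.three e he]; norm_num
  have h1 := h.le (insert e P) (by
    intro f hf
    rw [mem_insert] at hf
    rcases hf with rfl | hf
    · exact he
    · exact hP hf) (hm.insert hd)
  rw [Finset.card_insert_of_notMem (not_mem_of_disjoint_VS hne hd)] at h1
  omega

theorem Hyp.N_subset (h : Hyp F s) {P : Finset (Finset V)} (hP : P ⊆ F) (hm : IsMatching P)
    (hc : P.card = s) {a b : V} (hav : ∀ e ∈ P, a ∉ e ∧ b ∉ e) : N F a b ⊆ VS P := by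
  intro c hcN
  rw [mem_N] at hcN
  by_contra hcv
  apply h.meets hP hm hc hcN
  rw [Finset.disjoint_left]
  intro v hv hvP
  rw [mem_VS] at hvP
  obtain ⟨e, he, hve⟩ := hvP
  simp only [mem_insert, mem_singleton] at hv
  rcases hv with rfl | rfl | rfl
  · exact (hav e he).1 hve
  · exact (hav e he).2 hve
  · exact hcv (mem_VS.2 ⟨e, he, hve⟩)

theorem Hyp.card_N_le (h : Hyp F s) (a b : V) : (N F a b).card ≤ 3 * s := by
  obtain ⟨P, hP, hm, hc, hav⟩ := h.avoid a b
  calc (N F a b).card ≤ (VS P).card := card_le_card (h.N_subset hP hm hc hav)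
    _ = 3 * s := by rw [card_VS hm (fun e he => h.three e (hP he)), hc]

/-- The closure lemma: for any family `E` of 3-sets and root set `R` there is a superset `S`
of `R` such that every member of `E` is inside `S` or disjoint from `S`, and
`|S| ≤ |R| + 2 #{e ∈ E : e ⊆ S}`. -/
theorem exists_closed (E : Finset (Finset V)) (h3 : ∀ e ∈ E, e.card = 3) (R : Finset V) :
    ∃ S : Finset V, R ⊆ S ∧ (∀ e ∈ E, e ⊆ S ∨ Disjoint e S) ∧
      S.card ≤ R.card + 2 * (E.filter (fun e => e ⊆ S)).card := by
  classical
  -- maximal S
  let A : Finset (Finset V) := univ.filter (fun S : Finset V =>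
    R ⊆ S ∧ S.card ≤ R.card + 2 * (E.filter (fun e => e ⊆ S)).card)
  have hA : A.Nonempty := ⟨R, by simp [A]⟩
  obtain ⟨S, hS, hmax⟩ := Finset.exists_max_image A Finset.card hA
  simp only [A, mem_filter, mem_univ, true_and] at hS
  refine ⟨S, hS.1, ?_, hS.2⟩
  intro e he
  by_contra hcon
  push Not at hcon
  obtain ⟨h1, h2⟩ := hcon
  -- e meets S, e not inside S
  have hS' : S ∪ e ∈ A := by
    simp only [A, mem_filter, mem_univ, true_and]
    refine ⟨hS.1.trans subset_union_left, ?_⟩
    have hc1 : (S ∪ e).card ≤ S.card + 2 := by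
      have := Finset.card_union_add_card_inter S e
      have h4 : 1 ≤ (S ∩ e).card := by
        rw [Nat.one_le_iff_ne_zero, ← Nat.pos_iff_ne_zero, Finset.card_pos]
        rw [Finset.not_disjoint_iff] at h2
        obtain ⟨v, hv1, hv2⟩ := h2
        exact ⟨v, mem_inter.2 ⟨hv2, hv1⟩⟩
      have := h3 e he
      omega
    have hc2 : (E.filter (fun f => f ⊆ S)).card + 1 ≤ (E.filter (fun f => f ⊆ S ∪ e)).card := by
      have hsub : insert e (E.filter (fun f => f ⊆ S)) ⊆ E.filter (fun f => f ⊆ S ∪ e) := by
        intro f hf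
        rw [mem_insert] at hf
        rcases hf with rfl | hf
        · exact mem_filter.2 ⟨he, subset_union_right⟩
        · rw [mem_filter] at hf ⊢
          exact ⟨hf.1, hf.2.trans subset_union_left⟩
      have hni : e ∉ E.filter (fun f => f ⊆ S) := by
        intro hf
        exact h1 (mem_filter.1 hf).2
      rw [← Finset.card_insert_of_notMem hni]
      exact card_le_card hsub
    have := hS.2
    omega
  have h5 := hmax _ hS'
  have h6 : S.card < (S ∪ e).card := by
    apply Finset.card_lt_card
    rw [Finset.ssubset_iff_of_subset subset_union_left]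
    rw [Finset.not_subset] at h1
    obtain ⟨v, hv1, hv2⟩ := h1
    exact ⟨v, mem_union_right _ hv1, hv2⟩
  omega

/-- The switching lemma: for every maximum matching `P` and any two vertices `a`, `b` the number
of third vertices outside `V(P)` is at most `s + 2`. -/
theorem Hyp.switch (h : Hyp F s) {P : Finset (Finset V)} (hP : P ⊆ F) (hm : IsMatching P)
    (hc : P.card = s) (a b : V) : (N F a b \ VS P).card ≤ s + 2 := by
  classical
  obtain ⟨Q, hQ, hmQ, hcQ, hav⟩ := h.avoid a b
  have h3P : ∀ e ∈ P, e.card = 3 := fun e he => h.three e (hP he)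
  have h3Q : ∀ e ∈ Q, e.card = 3 := fun e he => h.three e (hQ he)
  obtain ⟨S, hRS, hcl, hcard⟩ := exists_closed (P ∪ Q) (by
    intro e he
    rw [mem_union] at he
    rcases he with he | he
    · exact h3P e he
    · exact h3Q e he) {a, b}
  -- the switched matching
  have hmatch : ∀ A B : Finset (Finset V), A ⊆ P ∪ Q → B ⊆ P ∪ Q → IsMatching A → IsMatching B →
      IsMatching (A.filter (fun e => ¬ e ⊆ S) ∪ B.filter (fun e => e ⊆ S)) := by
    intro A B hA hB hmA hmB e he f hf hef
    rw [mem_union, mem_filter, mem_filter] at he hf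
    rcases he with he | he <;> rcases hf with hf | hf
    · exact hmA e he.1 f hf.1 hef
    · exact ((hcl e (hA he.1)).resolve_left he.2).mono_right hf.2
    · exact (((hcl f (hA hf.1)).resolve_left hf.2).mono_right he.2).symm
    · exact hmB e he.1 f hf.1 hef
  have hdisj : ∀ A B : Finset (Finset V),
      Disjoint (A.filter (fun e => ¬ e ⊆ S)) (B.filter (fun e => e ⊆ S)) := by
    intro A B
    rw [Finset.disjoint_left]
    intro e he hf
    exact (mem_filter.1 he).2 (mem_filter.1 hf).2
  have hPfil := Finset.card_filter_add_card_filter_not (s := P) (fun e => e ⊆ S)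
  have hQfil := Finset.card_filter_add_card_filter_not (s := Q) (fun e => e ⊆ S)
  -- sizes agree
  have hle1 : (P.filter (fun e => ¬ e ⊆ S)).card + (Q.filter (fun e => e ⊆ S)).card ≤ s := by
    rw [← card_union_of_disjoint (hdisj P Q)]
    apply h.le
    · intro e he
      rw [mem_union, mem_filter, mem_filter] at he
      rcases he with he | he
      · exact hP he.1
      · exact hQ he.1
    · exact hmatch P Q subset_union_left subset_union_right hm hmQ
  have hle2 : (Q.filter (fun e => ¬ e ⊆ S)).card + (P.filter (fun e => e ⊆ S)).card ≤ s := by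
    rw [← card_union_of_disjoint (hdisj Q P)]
    apply h.le
    · intro e he
      rw [mem_union, mem_filter, mem_filter] at he
      rcases he with he | he
      · exact hQ he.1
      · exact hP he.1
    · exact hmatch Q P subset_union_right subset_union_left hmQ hm
  have hk : (Q.filter (fun e => e ⊆ S)).card = (P.filter (fun e => e ⊆ S)).card := by omega
  -- the switched matching is maximum and avoids a and b
  set P' := P.filter (fun e => ¬ e ⊆ S) ∪ Q.filter (fun e => e ⊆ S) with hP'
  have hP'F : P' ⊆ F := by
    intro e he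
    rw [hP', mem_union, mem_filter, mem_filter] at he
    rcases he with he | he
    · exact hP he.1
    · exact hQ he.1
  have hmP' : IsMatching P' := hmatch P Q subset_union_left subset_union_right hm hmQ
  have hcP' : P'.card = s := by
    rw [hP', card_union_of_disjoint (hdisj P Q)]
    omega
  have havP' : ∀ e ∈ P', a ∉ e ∧ b ∉ e := by
    intro e he
    rw [hP', mem_union, mem_filter, mem_filter] at he
    rcases he with he | he
    · have hd := (hcl e (mem_union_left _ he.1)).resolve_left he.2
      constructor
      · intro hae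
        exact Finset.disjoint_left.1 hd hae (hRS (by simp))
      · intro hbe
        exact Finset.disjoint_left.1 hd hbe (hRS (by simp))
    · exact hav e he.1
  have hN := h.N_subset hP'F hmP' hcP' havP'
  -- N \ VS P ⊆ S \ VS (P.filter (· ⊆ S))
  have hsub : N F a b \ VS P ⊆ S \ VS (P.filter (fun e => e ⊆ S)) := by
    intro c hcc
    rw [mem_sdiff] at hcc ⊢
    obtain ⟨h1, h2⟩ := hcc
    have h3 := hN h1
    rw [mem_VS] at h3
    obtain ⟨e, he, hce⟩ := h3
    rw [hP', mem_union, mem_filter, mem_filter] at he
    rcases he with he | he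
    · exact absurd (mem_VS.2 ⟨e, he.1, hce⟩) h2
    · refine ⟨he.2 hce, ?_⟩
      intro h4
      rw [mem_VS] at h4
      obtain ⟨f, hf, hcf⟩ := h4
      exact h2 (mem_VS.2 ⟨f, (mem_filter.1 hf).1, hcf⟩)
  have hVsub : VS (P.filter (fun e => e ⊆ S)) ⊆ S := by
    intro v hv
    rw [mem_VS] at hv
    obtain ⟨e, he, hve⟩ := hv
    exact (mem_filter.1 he).2 hve
  have hcV : (VS (P.filter (fun e => e ⊆ S))).card = 3 * (P.filter (fun e => e ⊆ S)).card :=
    card_VS (hm.mono (filter_subset _ _)) (fun e he => h3P e (mem_filter.1 he).1)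
  have hunion : ((P ∪ Q).filter (fun e => e ⊆ S)).card ≤
      (P.filter (fun e => e ⊆ S)).card + (Q.filter (fun e => e ⊆ S)).card := by
    rw [filter_union]
    exact card_union_le _ _
  have hR : ({a, b} : Finset V).card ≤ 2 := card_le_two
  calc (N F a b \ VS P).card ≤ (S \ VS (P.filter (fun e => e ⊆ S))).card := card_le_card hsub
    _ = S.card - 3 * (P.filter (fun e => e ⊆ S)).card := by
        rw [card_sdiff_of_subset hVsub, hcV]
    _ ≤ s + 2 := by omega

end

end Res12
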