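import Pool.Agent.Helper12.Res.Kern

/-!
Robust traces; moves.
-/

namespace Res12

open Finset

set_option linter.unusedSectionVars false

variable {V : Type} [Fintype V] [DecidableEq V]

section
variable {F : Finset (Finset V)} {s : ℕ} {x : Fin s → Fin 3 → V}

theorem Robust.mono {K K' : ℕ} (hK : K' ≤ K) {S : Finset V} (h : Robust F x K S) :
    Robust F x K' S := fun Z hZ hd => h Z (hZ.trans hK) hd

theorem not_robust {K : ℕ} {S : Finset V} (h : ¬ Robust F x K S) :
    ∃ Z : Finset V, Z.card ≤ K ∧ Disjoint Z (CV x) ∧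
      ∀ e ∈ F, e ∩ CV x = S → ¬ Disjoint e Z := by
  unfold Robust at h
  push Not at h
  exact h

open Classical in
/-- edges with robust trace -/
noncomputable def FR (F : Finset (Finset V)) (x : Fin s → Fin 3 → V) (K : ℕ) :
    Finset (Finset V) := F.filter (fun e => Robust F x K (e ∩ CV x))

open Classical in
noncomputable def FN (F : Finset (Finset V)) (x : Fin s → Fin 3 → V) (K : ℕ) :
    Finset (Finset V) := F.filter (fun e => ¬ Robust F x K (e ∩ CV x))

theorem mem_FR {K : ℕ} {e : Finset V} :
    e ∈ FR F x K ↔ e ∈ F ∧ Robust F x K (e ∩ CV x) := by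
  unfold FR
  simp only [Finset.mem_filter]

theorem mem_FN {K : ℕ} {e : Finset V} :
    e ∈ FN F x K ↔ e ∈ F ∧ ¬ Robust F x K (e ∩ CV x) := by
  unfold FN
  simp only [Finset.mem_filter]

theorem tm_split (K : ℕ) {μ : Finset V → ℝ} (h1 : ∀ e, μ e ≤ 1)
    (a b c : V) : tm F μ a b c ≤ tm (FR F x K) μ a b c + tm (FN F x K) (fun _ => 1) a b c := by
  unfold tm
  by_cases h : ({a, b, c} : Finset V) ∈ F
  · by_cases hr : Robust F x K ({a, b, c} ∩ CV x)
    · have e1 : ({a, b, c} : Finset V) ∈ FR F x K := mem_FR.2 ⟨h, hr⟩
      have e2 : ({a, b, c} : Finset V) ∉ FN F x K := fun hh => (mem_FN.1 hh).2 hr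
      rw [if_pos h, if_pos e1, if_neg e2, add_zero]
    · have e1 : ({a, b, c} : Finset V) ∉ FR F x K := fun hh => hr (mem_FR.1 hh).2
      have e2 : ({a, b, c} : Finset V) ∈ FN F x K := mem_FN.2 ⟨h, hr⟩
      rw [if_pos h, if_neg e1, if_pos e2, zero_add]
      exact h1 _
  · have e1 : ({a, b, c} : Finset V) ∉ FR F x K := fun hh => h (mem_FR.1 hh).1
    have e2 : ({a, b, c} : Finset V) ∉ FN F x K := fun hh => h (mem_FN.1 hh).1
    rw [if_neg h, if_neg e1, if_neg e2, zero_add]

theorem card_CV (hx : Blk F x) : ((CV x).card : ℝ) = 3 * s := by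
  have h1 : (CV x).card = s * 3 := by
    unfold CV
    rw [Finset.card_image_of_injective _ hx.inj]
    simp
  rw [h1]
  push_cast
  ring

theorem FN_sum_le (h : Hyp F s) (hx : Blk F x) (K : ℕ) :
    S3 (tm (FN F x K) (fun _ => 1)) univ univ univ ≤ 81 * K * (s : ℝ) ^ 2 := by
  obtain ⟨P, hP, hm, hc, hVS, -⟩ := hx.matching
  set u := tm (FN F x K) (fun _ => 1) with hu
  have hu0 : ∀ a b c, 0 ≤ u a b c := fun a b c => tm_nonneg (fun _ => zero_le_one) a b c
  have hu1 : ∀ a b c, u a b c ≤ tm F (fun _ => 1) a b c := fun a b c =>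
    tm_le_tm (fun e he => (mem_FN.1 he).1) (fun _ => zero_le_one) (fun _ => le_rfl) a b c
  have hune : ∀ a b c, u a b c ≠ 0 → ({a, b, c} : Finset V) ∈ F ∧
      ¬ Robust F x K ({a, b, c} ∩ CV x) := fun a b c hne => by
    exact mem_FN.1 (tm_ne_zero hne)
  have husym := tm_sym (FN F x K) (fun _ => 1)
  rw [split3 husym (CV x)]
  have e1 : S3 u (CV x) (CV x) (CV x) = 0 := by
    unfold S3
    apply Finset.sum_eq_zero
    intro a ha
    apply Finset.sum_eq_zero
    intro b hb
    apply Finset.sum_eq_zero
    intro c hc
    by_contra hne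
    obtain ⟨h1, h2⟩ := hune a b c hne
    apply h2
    have hsub : ({a, b, c} : Finset V) ⊆ CV x := by
      intro v hv
      simp only [mem_insert, mem_singleton] at hv
      rcases hv with rfl | rfl | rfl <;> assumption
    intro Z _ hZ
    refine ⟨{a, b, c}, h1, rfl, ?_⟩
    exact (hZ.mono_right hsub).symm
  have e4 : S3 u (CV x)ᶜ (CV x)ᶜ (CV x)ᶜ = 0 := by
    unfold S3
    apply Finset.sum_eq_zero
    intro a ha
    apply Finset.sum_eq_zero
    intro b hb
    apply Finset.sum_eq_zero
    intro c hc'
    by_contra hne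
    obtain ⟨h1, h2⟩ := hune a b c hne
    apply h.meets hP hm hc h1
    rw [hVS, Finset.disjoint_left]
    intro v hv hvC
    simp only [mem_insert, mem_singleton] at hv
    rw [mem_compl] at ha hb hc'
    rcases hv with rfl | rfl | rfl
    · exact ha hvC
    · exact hb hvC
    · exact hc' hvC
  have e2 : S3 u (CV x) (CV x) (CV x)ᶜ ≤ 9 * K * (s : ℝ) ^ 2 := by
    have key : ∀ a ∈ CV x, ∀ b ∈ CV x, ∑ c ∈ (CV x)ᶜ, u a b c ≤ K := by
      intro a ha b hb
      by_cases hex : ∃ c ∈ (CV x)ᶜ, u a b c ≠ 0
      · obtain ⟨c, hcW, hne⟩ := hex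
        obtain ⟨h1, h2⟩ := hune a b c hne
        have htr : ∀ c ∈ (CV x)ᶜ, ({a, b, c} : Finset V) ∩ CV x = {a, b} := by
          intro c hc
          rw [mem_compl] at hc
          ext v
          simp only [mem_inter, mem_insert, mem_singleton]
          constructor
          · rintro ⟨h | h | h, h'⟩
            · exact Or.inl h
            · exact Or.inr h
            · subst h
              exact absurd h' hc
          · rintro (h | h)
            · subst h
              exact ⟨Or.inl rfl, ha⟩
            · subst h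
              exact ⟨Or.inr (Or.inl rfl), hb⟩
        rw [htr c hcW] at h2
        obtain ⟨Z, hZc, hZd, hZ⟩ := not_robust h2
        calc ∑ c ∈ (CV x)ᶜ, u a b c ≤ ∑ c ∈ (CV x)ᶜ, (if c ∈ Z then (1 : ℝ) else 0) := by
              apply Finset.sum_le_sum
              intro c' hc'
              by_cases hne' : u a b c' = 0
              · rw [hne']
                split_ifs <;> norm_num
              · obtain ⟨h3, h4⟩ := hune a b c' hne'
                have h5 := hZ _ h3 (htr c' hc')
                have h6 : c' ∈ Z := by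
                  rw [Finset.not_disjoint_iff] at h5
                  obtain ⟨v, hv, hvZ⟩ := h5
                  simp only [mem_insert, mem_singleton] at hv
                  rcases hv with rfl | rfl | rfl
                  · exact absurd ha (Finset.disjoint_left.1 hZd hvZ)
                  · exact absurd hb (Finset.disjoint_left.1 hZd hvZ)
                  · exact hvZ
                rw [if_pos h6]
                exact (hu1 _ _ _).trans (tm_le_one (fun _ => le_rfl) _ _ _)
          _ ≤ ∑ c, (if c ∈ Z then (1 : ℝ) else 0) := by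
              apply Finset.sum_le_sum_of_subset_of_nonneg (subset_univ _)
              intro c _ _
              split_ifs <;> norm_num
          _ = Z.card := by simp
          _ ≤ K := by exact_mod_cast hZc
      · push Not at hex
        rw [Finset.sum_eq_zero hex]
        positivity
    unfold S3
    calc ∑ a ∈ CV x, ∑ b ∈ CV x, ∑ c ∈ (CV x)ᶜ, u a b c ≤ ∑ _a ∈ CV x, ∑ _b ∈ CV x, (K : ℝ) := by
          apply Finset.sum_le_sum
          intro a ha
          apply Finset.sum_le_sum
          intro b hb
          exact key a ha b hb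
      _ = 9 * K * (s : ℝ) ^ 2 := by
          simp only [Finset.sum_const, nsmul_eq_mul, card_CV hx]
          ring
  have e3 : S3 u (CV x) (CV x)ᶜ (CV x)ᶜ ≤ 18 * K * (s : ℝ) ^ 2 := by
    have key : ∀ a ∈ CV x, ∑ b ∈ (CV x)ᶜ, ∑ c ∈ (CV x)ᶜ, u a b c ≤ 6 * K * s := by
      intro a ha
      by_cases hex : ∃ b ∈ (CV x)ᶜ, ∃ c ∈ (CV x)ᶜ, u a b c ≠ 0
      · obtain ⟨b, hbW, c, hcW, hne⟩ := hex
        obtain ⟨h1, h2⟩ := hune a b c hne
        have htr : ∀ b ∈ (CV x)ᶜ, ∀ c ∈ (CV x)ᶜ, ({a, b, c} : Finset V) ∩ CV x = {a} := by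
          intro b hb c hc
          rw [mem_compl] at hb hc
          ext v
          simp only [mem_inter, mem_insert, mem_singleton]
          constructor
          · rintro ⟨h | h | h, h'⟩
            · exact h
            · subst h
              exact absurd h' hb
            · subst h
              exact absurd h' hc
          · intro h
            subst h
            exact ⟨Or.inl rfl, ha⟩
        rw [htr b hbW c hcW] at h2
        obtain ⟨Z, hZc, hZd, hZ⟩ := not_robust h2
        have hcov : ∀ b ∈ (CV x)ᶜ, ∀ c ∈ (CV x)ᶜ, u a b c ≤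
            (if b ∈ Z then u a b c else 0) + (if c ∈ Z then u a b c else 0) := by
          intro b' hb' c' hc'
          have h0 := hu0 a b' c'
          by_cases hne' : u a b' c' = 0
          · rw [hne']
            simp
          · obtain ⟨h3, h4⟩ := hune a b' c' hne'
            have h5 := hZ _ h3 (htr b' hb' c' hc')
            rw [Finset.not_disjoint_iff] at h5
            obtain ⟨v, hv, hvZ⟩ := h5
            simp only [mem_insert, mem_singleton] at hv
            rcases hv with rfl | rfl | rfl
            · exact absurd ha (Finset.disjoint_left.1 hZd hvZ)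
            · rw [if_pos hvZ]
              split_ifs <;> linarith
            · rw [if_pos hvZ]
              split_ifs <;> linarith
        calc ∑ b ∈ (CV x)ᶜ, ∑ c ∈ (CV x)ᶜ, u a b c ≤
              ∑ b ∈ (CV x)ᶜ, ∑ c ∈ (CV x)ᶜ,
              ((if b ∈ Z then u a b c else 0) + (if c ∈ Z then u a b c else 0)) := by
              apply Finset.sum_le_sum
              intro b hb
              apply Finset.sum_le_sum
              intro c hc
              exact hcov b hb c hc
          _ ≤ ∑ b, ∑ c, ((if b ∈ Z then u a b c else 0) + (if c ∈ Z then u a b c else 0)) := by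
              have hnn : ∀ b c, 0 ≤ (if b ∈ Z then u a b c else 0) +
                  (if c ∈ Z then u a b c else 0) := by
                intro b c
                have := hu0 a b c
                split_ifs <;> linarith
              calc ∑ b ∈ (CV x)ᶜ, ∑ c ∈ (CV x)ᶜ,
                  ((if b ∈ Z then u a b c else 0) + (if c ∈ Z then u a b c else 0)) ≤
                  ∑ b ∈ (CV x)ᶜ, ∑ c,
                  ((if b ∈ Z then u a b c else 0) + (if c ∈ Z then u a b c else 0)) := by
                    apply Finset.sum_le_sum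
                    intro b _
                    exact Finset.sum_le_sum_of_subset_of_nonneg (subset_univ _)
                      fun c _ _ => hnn b c
                _ ≤ _ := Finset.sum_le_sum_of_subset_of_nonneg (subset_univ _)
                      fun b _ _ => Finset.sum_nonneg fun c _ => hnn b c
          _ = ∑ b ∈ Z, ∑ c, u a b c + ∑ c ∈ Z, ∑ b, u a c b := by
              simp only [Finset.sum_add_distrib]
              congr 1
              · have : ∀ b, ∑ c, (if b ∈ Z then u a b c else 0) =
                    if b ∈ Z then ∑ c, u a b c else 0 := by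
                  intro b
                  split_ifs <;> simp
                simp only [this]
                rw [Finset.sum_ite_mem, Finset.univ_inter]
              · rw [Finset.sum_comm]
                have : ∀ c, ∑ b, (if c ∈ Z then u a b c else 0) =
                    if c ∈ Z then ∑ b, u a b c else 0 := by
                  intro c
                  split_ifs <;> simp
                simp only [this]
                rw [Finset.sum_ite_mem, Finset.univ_inter]
                apply Finset.sum_congr rfl
                intro c _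
                apply Finset.sum_congr rfl
                intro b _
                exact husym.s23 a b c
          _ ≤ ∑ _b ∈ Z, (3 * (s : ℝ)) + ∑ _c ∈ Z, (3 * (s : ℝ)) := by
              have hb : ∀ b, ∑ c, u a b c ≤ 3 * (s : ℝ) := by
                intro b
                calc ∑ c, u a b c ≤ ∑ c, tm F (fun _ => 1) a b c :=
                      Finset.sum_le_sum fun c _ => hu1 a b c
                  _ = ((N F a b).card : ℝ) := sum_tm_one F a b
                  _ ≤ 3 * s := h.N_le a b
              gcongr with b _ b _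
              · exact hb b
              · exact hb b
          _ = 6 * s * Z.card := by
              rw [Finset.sum_const, nsmul_eq_mul]
              ring
          _ ≤ 6 * s * K := by
              gcongr
          _ = 6 * K * s := by ring
      · push Not at hex
        have : ∑ b ∈ (CV x)ᶜ, ∑ c ∈ (CV x)ᶜ, u a b c = 0 :=
          Finset.sum_eq_zero fun b hb => Finset.sum_eq_zero fun c hc => hex b hb c hc
        rw [this]
        positivity
    unfold S3
    calc ∑ a ∈ CV x, ∑ b ∈ (CV x)ᶜ, ∑ c ∈ (CV x)ᶜ, u a b c ≤ ∑ _a ∈ CV x, (6 * K * s : ℝ) := by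
          apply Finset.sum_le_sum
          intro a ha
          exact key a ha
      _ = 18 * K * (s : ℝ) ^ 2 := by
          simp only [Finset.sum_const, nsmul_eq_mul, card_CV hx]
          ring
  rw [e1, e4]
  linarith

end

/-! ### supports of moves -/

section moves
variable {q : ℕ}

/-- the type set of one component -/
def so (ρ : Fin 3) : Option (Fin q × Fin 3) → Finset ((Fin 3 × Fin q) × Fin 3)
  | none => ∅
  | some A => {((ρ, A.1), A.2)}

/-- the type set of a move -/
def supp3 (E : Option (Fin q × Fin 3) × Option (Fin q × Fin 3) × Option (Fin q × Fin 3)) :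
    Finset ((Fin 3 × Fin q) × Fin 3) := so 0 E.1 ∪ so 1 E.2.1 ∪ so 2 E.2.2

theorem mem_so {ρ ρ' : Fin 3} {a : Fin q} {α : Fin 3} {o : Option (Fin q × Fin 3)} :
    ((ρ, a), α) ∈ so ρ' o ↔ ρ = ρ' ∧ o = some (a, α) := by
  rcases o with _ | A
  · simp [so]
  · simp only [so, mem_singleton, Prod.mk.injEq, Option.some.injEq]
    constructor
    · rintro ⟨⟨h1, h2⟩, h3⟩
      refine ⟨h1, ?_⟩
      rw [h2, h3]
    · rintro ⟨h1, h2⟩
      subst h2
      exact ⟨⟨h1, rfl⟩, rfl⟩

theorem mem_supp3_0 {a : Fin q} {α : Fin 3}
    {E : Option (Fin q × Fin 3) × Option (Fin q × Fin 3) × Option (Fin q × Fin 3)} :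
    (((0 : Fin 3), a), α) ∈ supp3 E ↔ E.1 = some (a, α) := by
  unfold supp3
  simp [mem_so]

theorem mem_supp3_1 {a : Fin q} {α : Fin 3}
    {E : Option (Fin q × Fin 3) × Option (Fin q × Fin 3) × Option (Fin q × Fin 3)} :
    (((1 : Fin 3), a), α) ∈ supp3 E ↔ E.2.1 = some (a, α) := by
  unfold supp3
  simp [mem_so]

theorem mem_supp3_2 {a : Fin q} {α : Fin 3}
    {E : Option (Fin q × Fin 3) × Option (Fin q × Fin 3) × Option (Fin q × Fin 3)} :
    (((2 : Fin 3), a), α) ∈ supp3 E ↔ E.2.2 = some (a, α) := by
  unfold supp3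
  simp [mem_so]

theorem supp3_dist (E : Option (Fin q × Fin 3) × Option (Fin q × Fin 3) × Option (Fin q × Fin 3)) :
    ∀ p ∈ supp3 E, ∀ p' ∈ supp3 E, p.1 = p'.1 → p = p' := by
  rintro ⟨⟨ρ, a⟩, α⟩ hp ⟨⟨ρ', a'⟩, α'⟩ hp' hpp
  simp only [Prod.mk.injEq] at hpp
  obtain ⟨h1, h2⟩ := hpp
  subst h1 h2
  fin_cases ρ
  · have h1 := mem_supp3_0.1 hp
    have h2 := mem_supp3_0.1 hp'
    rw [h1] at h2
    simp only [Option.some.injEq, Prod.mk.injEq, true_and] at h2
    rw [h2]
  · have h1 := mem_supp3_1.1 hp
    have h2 := mem_supp3_1.1 hp'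
    rw [h1] at h2
    simp only [Option.some.injEq, Prod.mk.injEq, true_and] at h2
    rw [h2]
  · have h1 := mem_supp3_2.1 hp
    have h2 := mem_supp3_2.1 hp'
    rw [h1] at h2
    simp only [Option.some.injEq, Prod.mk.injEq, true_and] at h2
    rw [h2]

theorem image_so {s : ℕ} (x : Fin s → Fin 3 → V) (ω : Fin 3 × Fin q → Fin s) (ρ : Fin 3)
    (A : Fin q × Fin 3) :
    (so ρ (some A)).image (fun p => x (ω p.1) p.2) = {x (ω (ρ, A.1)) A.2} := by
  simp [so]

end moves

end Res12
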