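import Mathlib

/-!
Erdős box theorem (supersaturation), for problem MP_d365ae_co. Written by helper36.
-/

namespace Res12

open Finset

namespace Box

/-- Power mean step of the box lemma. -/
theorem step {α W : Type*} [Fintype α] [Fintype W] (f : α → W → ℝ)
    (hf : ∀ a w, 0 ≤ f a w) (t : ℕ) (ht : 0 < t) :
    (∑ a, ∑ w, f a w) ^ t ≤
      (Fintype.card W : ℝ) ^ (t - 1) * ∑ p : Fin t → α, ∑ w, ∏ i, f (p i) w := by
  obtain ⟨n, rfl⟩ : ∃ n, t = n + 1 := ⟨t - 1, by omega⟩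
  have h1 := pow_sum_le_card_mul_sum_pow (s := (univ : Finset W)) (f := fun w => ∑ a, f a w)
    (fun w _ => Finset.sum_nonneg fun a _ => hf a w) n
  rw [Finset.sum_comm]
  refine h1.trans (le_of_eq ?_)
  rw [card_univ, Nat.add_sub_cancel]
  congr 1
  rw [Finset.sum_comm]
  refine Finset.sum_congr rfl fun w _ => ?_
  exact Fintype.sum_pow _ _

theorem sum_cons {α : Type*} [Fintype α] (Q : ℕ) (f : (Fin (Q + 1) → α) → ℝ) :
    ∑ x, f x = ∑ a : α, ∑ y : Fin Q → α, f (Fin.cons a y : Fin (Q + 1) → α) := by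
  rw [← (Fin.consEquiv (fun _ : Fin (Q + 1) => α)).sum_comp, Fintype.sum_prod_type]
  rfl

theorem prod_cons {α : Type*} [Fintype α] (Q : ℕ) (f : (Fin (Q + 1) → α) → ℝ) :
    ∏ x, f x = ∏ a : α, ∏ y : Fin Q → α, f (Fin.cons a y : Fin (Q + 1) → α) := by
  rw [← (Fin.consEquiv (fun _ : Fin (Q + 1) => α)).prod_comp, Fintype.prod_prod_type]
  rfl

/-- Weighted box lemma. -/
theorem count {α : Type} [Fintype α] (t : ℕ) (ht : 0 < t) (Q : ℕ) :
    ∀ f : (Fin Q → α) → ℝ, (∀ x, 0 ≤ f x) →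
    (Fintype.card α : ℝ) ^ (Q * t) * (∑ x, f x) ^ (t ^ Q) ≤
      (Fintype.card α : ℝ) ^ (Q * t ^ Q) *
        ∑ p : Fin Q → Fin t → α, ∏ ω : Fin Q → Fin t, f (fun c => p c (ω c)) := by
  induction Q with
  | zero =>
    intro f hf
    simp
    exact le_of_eq (congrArg f (Subsingleton.elim _ _))
  | succ Q ih =>
    intro f hf
    set n : ℝ := (Fintype.card α : ℝ) with hn
    have n0 : 0 ≤ n := Nat.cast_nonneg _
    set S : ℝ := ∑ x, f x with hS
    -- the partially multiplied function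
    let g : (Fin t → α) → (Fin Q → α) → ℝ := fun p0 y =>
      ∏ i, f (Fin.cons (p0 i) y : Fin (Q + 1) → α)
    have hg : ∀ p0 y, 0 ≤ g p0 y := fun p0 y => prod_nonneg fun i _ => hf _
    let X : (Fin t → α) → ℝ := fun p0 =>
      ∑ p : Fin Q → Fin t → α, ∏ ω : Fin Q → Fin t, g p0 (fun c => p c (ω c))
    have hX : ∀ p0, 0 ≤ X p0 := fun p0 => sum_nonneg fun _ _ => prod_nonneg fun _ _ => hg _ _
    have e1 : ∑ p : Fin (Q + 1) → Fin t → α, ∏ ω : Fin (Q + 1) → Fin t, f (fun c => p c (ω c)) =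
        ∑ p0, X p0 := by
      rw [sum_cons]
      refine Finset.sum_congr rfl fun p0 _ => ?_
      refine Finset.sum_congr rfl fun p _ => ?_
      rw [prod_cons, Finset.prod_comm]
      refine Finset.prod_congr rfl fun ω _ => ?_
      refine Finset.prod_congr rfl fun i _ => ?_
      congr 1
      funext c
      refine Fin.cases ?_ (fun c => ?_) c
      · simp
      · simp
    rw [e1]
    have s1 := step (W := Fin Q → α) (fun a y => f (Fin.cons a y : Fin (Q + 1) → α))
      (fun a y => hf _) t ht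
    rw [← sum_cons, ← hS, Fintype.card_fun, Fintype.card_fin, Nat.cast_pow, ← hn] at s1
    -- power mean over p0
    have s2 : (∑ p0, ∑ y, g p0 y) ^ (t ^ Q) ≤ (n ^ t) ^ (t ^ Q - 1) *
        ∑ p0, (∑ y, g p0 y) ^ (t ^ Q) := by
      have hpos : 0 < t ^ Q := by positivity
      obtain ⟨m, hm⟩ : ∃ m, t ^ Q = m + 1 := ⟨t ^ Q - 1, by omega⟩
      rw [hm, Nat.add_sub_cancel]
      have := pow_sum_le_card_mul_sum_pow (s := (univ : Finset (Fin t → α)))
        (f := fun p0 => ∑ y, g p0 y) (fun p0 _ => Finset.sum_nonneg fun y _ => hg p0 y) m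
      rw [card_univ, Fintype.card_fun, Fintype.card_fin, Nat.cast_pow, ← hn] at this
      exact this
    have nS : 0 ≤ S := sum_nonneg fun _ _ => hf _
    have nS1 : 0 ≤ ∑ p0, ∑ y, g p0 y := sum_nonneg fun _ _ => sum_nonneg fun _ _ => hg _ _
    have hpos : 0 < t ^ Q := by positivity
    calc n ^ ((Q + 1) * t) * S ^ (t ^ (Q + 1))
        = n ^ ((Q + 1) * t) * (S ^ t) ^ (t ^ Q) := by rw [← pow_mul, pow_succ']
      _ ≤ n ^ ((Q + 1) * t) * ((n ^ Q) ^ (t - 1) * ∑ p0, ∑ y, g p0 y) ^ (t ^ Q) := by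
          refine mul_le_mul_of_nonneg_left ?_ (by positivity)
          exact pow_le_pow_left₀ (pow_nonneg nS _) s1 _
      _ = n ^ ((Q + 1) * t) * ((n ^ Q) ^ (t - 1)) ^ (t ^ Q) *
            (∑ p0, ∑ y, g p0 y) ^ (t ^ Q) := by
          rw [mul_pow, mul_assoc]
      _ ≤ n ^ ((Q + 1) * t) * ((n ^ Q) ^ (t - 1)) ^ (t ^ Q) *
            ((n ^ t) ^ (t ^ Q - 1) * ∑ p0, (∑ y, g p0 y) ^ (t ^ Q)) :=
          mul_le_mul_of_nonneg_left s2 (by positivity)
      _ = n ^ t * ((n ^ Q) ^ (t - 1)) ^ (t ^ Q) * (n ^ t) ^ (t ^ Q - 1) *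
            ∑ p0, (n ^ (Q * t) * (∑ y, g p0 y) ^ (t ^ Q)) := by
          rw [← Finset.mul_sum, add_mul, pow_add, one_mul]
          ring
      _ ≤ n ^ t * ((n ^ Q) ^ (t - 1)) ^ (t ^ Q) * (n ^ t) ^ (t ^ Q - 1) *
            ∑ p0, (n ^ (Q * t ^ Q) * X p0) := by
          refine mul_le_mul_of_nonneg_left ?_ (by positivity)
          exact Finset.sum_le_sum fun p0 _ => ih (g p0) (hg p0)
      _ = n ^ ((Q + 1) * t ^ (Q + 1)) * ∑ p0, X p0 := by
          rw [← Finset.mul_sum, ← mul_assoc]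
          congr 1
          obtain ⟨m, hm⟩ : ∃ m, t ^ Q = m + 1 := ⟨t ^ Q - 1, by omega⟩
          obtain ⟨r, rfl⟩ : ∃ r, t = r + 1 := ⟨t - 1, by omega⟩
          rw [pow_succ (r + 1) Q, hm, Nat.add_sub_cancel, Nat.add_sub_cancel, ← pow_mul n Q,
            ← pow_mul n, ← pow_mul n (r + 1), ← pow_add, ← pow_add, ← pow_add]
          congr 1
          ring

/-- Box theorem for `Fin Q`, with an injective system. -/
theorem exists_inj (Q t : ℕ) (ht : 0 < t) (δ : ℝ) (hδ : 0 < δ) :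
    ∃ s₀ : ℕ, ∀ s ≥ s₀, ∀ E : Finset (Fin Q → Fin s), δ * (s : ℝ) ^ Q ≤ (E.card : ℝ) →
      ∃ p : Fin Q → Fin t → Fin s, Function.Injective (fun z : Fin Q × Fin t => p z.1 z.2) ∧
        ∀ ω : Fin Q → Fin t, (fun c => p c (ω c)) ∈ E := by
  classical
  set k : ℕ := Q * t with hk
  set δ' : ℝ := δ ^ (t ^ Q) with hδ'
  have hδ'0 : 0 < δ' := by positivity
  obtain ⟨s₀, hs₀⟩ := exists_nat_gt ((k : ℝ) ^ 2 / δ')
  refine ⟨max s₀ (k + 1), fun s hs E hE => ?_⟩
  have hs1 : s₀ ≤ s := (le_max_left _ _).trans hs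
  have hs2 : k + 1 ≤ s := (le_max_right _ _).trans hs
  have hspos : (0 : ℝ) < s := by
    have : 0 < s := by omega
    exact_mod_cast this
  have hks : (k : ℝ) ^ 2 < δ' * s := by
    have h1 : (k : ℝ) ^ 2 / δ' < s := hs₀.trans_le (by exact_mod_cast hs1)
    rw [div_lt_iff₀ hδ'0] at h1
    linarith [mul_comm δ' (s : ℝ)]
  -- the indicator function
  let f : (Fin Q → Fin s) → ℝ := fun x => if x ∈ E then 1 else 0
  have hf : ∀ x, 0 ≤ f x := fun x => by simp only [f]; split_ifs <;> norm_num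
  have hc := count (α := Fin s) t ht Q f hf
  rw [Fintype.card_fin] at hc
  have hsum : ∑ x, f x = (E.card : ℝ) := by
    simp [f]
  let G : Finset (Fin Q → Fin t → Fin s) :=
    univ.filter fun p => ∀ ω : Fin Q → Fin t, (fun c => p c (ω c)) ∈ E
  have hprod : ∀ p : Fin Q → Fin t → Fin s,
      ∏ ω : Fin Q → Fin t, f (fun c => p c (ω c)) =
        if (∀ ω : Fin Q → Fin t, (fun c => p c (ω c)) ∈ E) then 1 else 0 := by
    intro p
    split_ifs with h
    · exact Finset.prod_eq_one fun ω _ => if_pos (h ω)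
    · push Not at h
      obtain ⟨ω, hω⟩ := h
      exact Finset.prod_eq_zero (mem_univ ω) (if_neg hω)
  have hX : ∑ p : Fin Q → Fin t → Fin s, ∏ ω : Fin Q → Fin t, f (fun c => p c (ω c)) =
      (G.card : ℝ) := by
    simp only [hprod]
    simp [G]
  rw [hsum, hX] at hc
  have hG : δ' * (s : ℝ) ^ k ≤ G.card := by
    have h1 : (s : ℝ) ^ k * (δ * (s : ℝ) ^ Q) ^ (t ^ Q) ≤ (s : ℝ) ^ (Q * t ^ Q) * G.card :=
      le_trans (mul_le_mul_of_nonneg_left (pow_le_pow_left₀ (by positivity) hE _)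
        (by positivity)) hc
    rw [mul_pow, ← pow_mul] at h1
    have h2 : (0 : ℝ) < (s : ℝ) ^ (Q * t ^ Q) := by positivity
    have h3 : (s : ℝ) ^ (Q * t ^ Q) * (δ' * (s : ℝ) ^ k) ≤ (s : ℝ) ^ (Q * t ^ Q) * G.card := by
      calc (s : ℝ) ^ (Q * t ^ Q) * (δ' * (s : ℝ) ^ k)
          = (s : ℝ) ^ k * (δ ^ (t ^ Q) * (s : ℝ) ^ (Q * t ^ Q)) := by rw [hδ']; ring
        _ ≤ _ := h1
    exact le_of_mul_le_mul_left h3 h2
  -- injective systems
  let J : Finset (Fin Q → Fin t → Fin s) :=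
    univ.filter fun p => Function.Injective (fun z : Fin Q × Fin t => p z.1 z.2)
  have hJ : J.card = s.descFactorial k := by
    have e : (Fin Q × Fin t ↪ Fin s) ≃ {p : Fin Q → Fin t → Fin s //
        Function.Injective (fun z : Fin Q × Fin t => p z.1 z.2)} :=
      { toFun := fun φ => ⟨fun a b => φ (a, b), fun x y h => by
          have := φ.injective (a₁ := (x.1, x.2)) (a₂ := (y.1, y.2)) h
          exact this⟩
        invFun := fun p => ⟨fun z => p.1 z.1 z.2, p.2⟩
        left_inv := fun φ => by ext z; rfl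
        right_inv := fun p => rfl }
    have h1 := Fintype.card_congr e
    rw [Fintype.card_embedding_eq, Fintype.card_prod, Fintype.card_fin, Fintype.card_fin,
      Fintype.card_fin, ← hk] at h1
    rw [h1, Fintype.card_subtype]
  have hJlow : (s : ℝ) ^ k - (k : ℝ) ^ 2 / s * (s : ℝ) ^ k ≤ (J.card : ℝ) := by
    rw [hJ]
    have h1 : ((s + 1 - k) ^ k : ℕ) ≤ s.descFactorial k := Nat.pow_sub_le_descFactorial s k
    have h2 : ((s - k : ℕ) : ℝ) ^ k ≤ (s.descFactorial k : ℝ) := by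
      have : (s - k) ^ k ≤ (s + 1 - k) ^ k := Nat.pow_le_pow_left (by omega) _
      exact_mod_cast this.trans h1
    refine le_trans ?_ h2
    rw [Nat.cast_sub (by omega)]
    have h3 : ((s : ℝ) - k) = s * (1 + (-(k : ℝ) / s)) := by field_simp; ring
    rw [h3, mul_pow]
    have h4 : 1 + (k : ℝ) * (-(k : ℝ) / s) ≤ (1 + (-(k : ℝ) / s)) ^ k := by
      apply one_add_mul_le_pow
      rw [neg_div, neg_le_neg_iff, div_le_iff₀ hspos]
      have : (k : ℝ) ≤ s := by exact_mod_cast (by omega : k ≤ s)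
      linarith
    calc (s : ℝ) ^ k - (k : ℝ) ^ 2 / s * (s : ℝ) ^ k
        = (s : ℝ) ^ k * (1 + (k : ℝ) * (-(k : ℝ) / s)) := by ring
      _ ≤ _ := mul_le_mul_of_nonneg_left h4 (by positivity)
  -- intersection is non-empty
  have hne : (G ∩ J).Nonempty := by
    rw [← Finset.card_pos]
    have h1 := Finset.card_union_add_card_inter G J
    have h2 : (G ∪ J).card ≤ s ^ k := by
      refine (card_le_univ _).trans (le_of_eq ?_)
      simp [hk, ← pow_mul, mul_comm]
    have h3 : (s : ℝ) ^ k < G.card + J.card := by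
      have h4 : (k : ℝ) ^ 2 / s * (s : ℝ) ^ k < δ' * (s : ℝ) ^ k := by
        apply mul_lt_mul_of_pos_right _ (by positivity)
        rw [div_lt_iff₀ hspos]
        exact hks
      linarith
    have h5 : s ^ k < G.card + J.card := by exact_mod_cast h3
    omega
  obtain ⟨p, hp⟩ := hne
  rw [mem_inter] at hp
  exact ⟨p, (mem_filter.1 hp.2).2, (mem_filter.1 hp.1).2⟩

end Box

/-- Erdős box theorem: a dense set of functions `ι → Fin s` contains a full box with disjoint
sides of size `t`. -/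
theorem supersat (ι : Type) [Fintype ι] [DecidableEq ι] (t : ℕ) (δ : ℝ) (hδ : 0 < δ) :
    ∃ s₀ : ℕ, ∀ s ≥ s₀, ∀ E : Finset (ι → Fin s),
      δ * (s : ℝ) ^ (Fintype.card ι) ≤ (E.card : ℝ) →
      ∃ I : ι → Finset (Fin s), (∀ c, (I c).card = t) ∧
        (∀ c d, c ≠ d → Disjoint (I c) (I d)) ∧
        (∀ ω : ι → Fin s, (∀ c, ω c ∈ I c) → ω ∈ E) := by
  classical
  rcases Nat.eq_zero_or_pos t with rfl | ht
  · refine ⟨1, fun s hs E hE => ⟨fun _ => ∅, fun _ => rfl, fun _ _ _ => disjoint_bot_left, ?_⟩⟩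
    intro ω hω
    have hspos : (0 : ℝ) < s := by exact_mod_cast hs
    have hpos : (0 : ℝ) < E.card := lt_of_lt_of_le (by positivity) hE
    have hne : E.Nonempty := by
      rw [← Finset.card_pos]; exact_mod_cast hpos
    obtain ⟨x, hx⟩ := hne
    have : IsEmpty ι := ⟨fun c => by simpa using hω c⟩
    rwa [Subsingleton.elim ω x]
  · set Q := Fintype.card ι with hQ
    obtain ⟨s₀, hs₀⟩ := Box.exists_inj Q t ht δ hδ
    refine ⟨s₀, fun s hs E hE => ?_⟩
    let e : ι ≃ Fin Q := Fintype.equivFin ι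
    let e' : (ι → Fin s) ≃ (Fin Q → Fin s) := e.arrowCongr (Equiv.refl _)
    obtain ⟨p, hp1, hp2⟩ := hs₀ s hs (E.map e'.toEmbedding) (by rwa [card_map])
    refine ⟨fun c => univ.image (p (e c)), ?_, ?_, ?_⟩
    · intro c
      rw [card_image_of_injective, card_univ, Fintype.card_fin]
      intro a b hab
      have := hp1 (a₁ := (e c, a)) (a₂ := (e c, b)) hab
      exact (Prod.mk.inj this).2
    · intro c d hcd
      rw [Finset.disjoint_left]
      intro v hv hv'
      rw [mem_image] at hv hv'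
      obtain ⟨a, -, ha⟩ := hv
      obtain ⟨b, -, hb⟩ := hv'
      have := hp1 (a₁ := (e c, a)) (a₂ := (e d, b)) (ha.trans hb.symm)
      exact hcd (e.injective (Prod.mk.inj this).1)
    · intro ω hω
      have hω' : ∀ c, ∃ a : Fin t, p (e c) a = ω c := fun c => by
        have := hω c
        rw [mem_image] at this
        obtain ⟨a, -, ha⟩ := this
        exact ⟨a, ha⟩
      choose a ha using hω'
      have h1 := hp2 (fun c => a (e.symm c))
      rw [mem_map] at h1
      obtain ⟨x, hx, hxe⟩ := h1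
      have : ω = x := by
        funext c
        have h2 := congrFun hxe (e c)
        simp only [e', Equiv.coe_toEmbedding, Equiv.arrowCongr_apply, Function.comp,
          Equiv.refl_apply, Equiv.symm_apply_apply] at h2
        rw [h2, ha]
      rwa [this]

end Res12
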