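import Pool.Agent.Helper12.Res.Bulk1
import Pool.Agent.Helper12.Res.Supersat

/-!
The weight bound: for every `[0,1]`-weighting of the edges of `F`, the total weight is at most the
sum over the blocks of the largest weighted degree, up to `ε s³`.
-/

namespace Res12

open Finset

set_option linter.unusedSectionVars false

variable {V : Type} [Fintype V] [DecidableEq V]

section
variable {F : Finset (Finset V)} {s : ℕ} {x : Fin s → Fin 3 → V}

theorem trace3 (i j k : Fin s) (α β γ : Fin 3) :
    ({x i α, x j β, x k γ} : Finset V) ∩ CV x = {x i α, x j β, x k γ} := by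
  rw [Finset.inter_eq_left]
  intro v hv
  simp only [mem_insert, mem_singleton] at hv
  rcases hv with rfl | rfl | rfl <;> exact mem_CV x _ _

theorem trace2 (i j : Fin s) (α β : Fin 3) {w : V} (hw : w ∈ (CV x)ᶜ) :
    ({x i α, x j β, w} : Finset V) ∩ CV x = {x i α, x j β} := by
  rw [mem_compl] at hw
  ext v
  simp only [mem_inter, mem_insert, mem_singleton]
  constructor
  · rintro ⟨h | h | h, h'⟩
    · exact Or.inl h
    · exact Or.inr h
    · subst h
      exact absurd h' hw
  · rintro (h | h)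
    · subst h
      exact ⟨Or.inl rfl, mem_CV x _ _⟩
    · subst h
      exact ⟨Or.inr (Or.inl rfl), mem_CV x _ _⟩

theorem trace1 (i : Fin s) (α : Fin 3) {w w' : V} (hw : w ∈ (CV x)ᶜ) (hw' : w' ∈ (CV x)ᶜ) :
    ({x i α, w, w'} : Finset V) ∩ CV x = {x i α} := by
  rw [mem_compl] at hw hw'
  ext v
  simp only [mem_inter, mem_insert, mem_singleton]
  constructor
  · rintro ⟨h | h | h, h'⟩
    · exact h
    · subst h
      exact absurd h' hw
    · subst h
      exact absurd h' hw'
  · intro h
    subst h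
    exact ⟨Or.inl rfl, mem_CV x _ _⟩

theorem tau_robust {K : ℕ} {μ : Finset V → ℝ} {i j k : Fin s} {α β γ : Fin 3}
    (h : tm (FR F x K) μ (x i α) (x j β) (x k γ) ≠ 0) :
    Robust F x K {x i α, x j β, x k γ} := by
  have h1 := (mem_FR.1 (tm_ne_zero h)).2
  rwa [trace3] at h1

theorem m2_robust {K : ℕ} {μ : Finset V → ℝ} {i j : Fin s} {α β : Fin 3}
    (h : m2 (tm (FR F x K) μ) x (x i α) (x j β) ≠ 0) :
    Robust F x K {x i α, x j β} := by
  unfold m2 at h
  obtain ⟨w, hw, hne⟩ := Finset.exists_ne_zero_of_sum_ne_zero h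
  have h1 := (mem_FR.1 (tm_ne_zero hne)).2
  rwa [trace2 i j α β hw] at h1

theorem m1_robust {K : ℕ} {μ : Finset V → ℝ} {i : Fin s} {α : Fin 3}
    (h : m1 (tm (FR F x K) μ) x (x i α) ≠ 0) :
    Robust F x K {x i α} := by
  unfold m1 at h
  obtain ⟨w, hw, hne⟩ := Finset.exists_ne_zero_of_sum_ne_zero h
  obtain ⟨w', hw', hne'⟩ := Finset.exists_ne_zero_of_sum_ne_zero hne
  have h1 := (mem_FR.1 (tm_ne_zero hne')).2
  rwa [trace1 i α hw hw'] at h1

theorem yv_robust {q K : ℕ} {μ : Finset V → ℝ} (ω : Fin 3 × Fin q → Fin s)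
    (E : Option (Fin q × Fin 3) × Option (Fin q × Fin 3) × Option (Fin q × Fin 3))
    (h : yv (tm (FR F x K) μ) x (fun a => ω (0, a)) (fun a => ω (1, a)) (fun a => ω (2, a))
      E.1 E.2.1 E.2.2 ≠ 0) :
    Robust F x K ((supp3 E).image (fun p => x (ω p.1) p.2)) := by
  obtain ⟨o₀, o₁, o₂⟩ := E
  have key : (supp3 (o₀, o₁, o₂)).image (fun p => x (ω p.1) p.2) =
      (so 0 o₀).image (fun p => x (ω p.1) p.2) ∪ (so 1 o₁).image (fun p => x (ω p.1) p.2) ∪
      (so 2 o₂).image (fun p => x (ω p.1) p.2) := by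
    unfold supp3
    rw [image_union, image_union]
  rw [key]
  rcases o₀ with _ | A <;> rcases o₁ with _ | B <;> rcases o₂ with _ | C <;>
    simp only [yv, ne_eq, not_true_eq_false, div_eq_zero_iff, not_or] at h <;>
    simp only [image_so]
  · -- only C
    have := m1_robust h.1
    simpa [so] using this
  · have := m1_robust h.1
    simpa [so] using this
  · have := m2_robust h.1
    simpa [so] using this
  · have := m1_robust h.1
    simpa [so] using this
  · have := m2_robust h.1
    simpa [so] using this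
  · have := m2_robust h.1
    simpa [so] using this
  · have := tau_robust h.1
    rw [show ({x (ω (0, A.1)) A.2} : Finset V) ∪ {x (ω (1, B.1)) B.2} ∪ {x (ω (2, C.1)) C.2} =
      {x (ω (0, A.1)) A.2, x (ω (1, B.1)) B.2, x (ω (2, C.1)) C.2} from by
        ext v
        simp only [mem_union, mem_singleton, mem_insert, or_assoc]]
    exact this

end

/-- the three samples as one function -/
def eqv (q s : ℕ) : (Fin 3 × Fin q → Fin s) ≃
    (Fin q → Fin s) × (Fin q → Fin s) × (Fin q → Fin s) where
  toFun ω := (fun a => ω (0, a), fun a => ω (1, a), fun a => ω (2, a))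
  invFun t := fun p => (![t.1, t.2.1, t.2.2] p.1) p.2
  left_inv ω := by
    funext ⟨i, a⟩
    fin_cases i <;> rfl
  right_inv t := by
    obtain ⟨a, b, c⟩ := t
    rfl

end Res12
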