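import Pool.Agent.Helper12.Res.Bulk2

/-!
No popular gain.
-/

namespace Res12

open Finset

set_option linter.unusedSectionVars false

variable {V : Type} [Fintype V] [DecidableEq V]

/-- the type of moves -/
abbrev Mv (q : ℕ) := Option (Fin q × Fin 3) × Option (Fin q × Fin 3) × Option (Fin q × Fin 3)

theorem card_sigma_filter {q : ℕ} (n : Mv q → ℕ) (p : Mv q → Prop) [DecidablePred p] :
    (univ.filter (fun l : (E : Mv q) × Fin (n E) => p l.1)).card =
      ∑ E ∈ univ.filter p, n E := by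
  have : (univ.filter (fun l : (E : Mv q) × Fin (n E) => p l.1)) =
      (univ.filter p).sigma (fun E => (univ : Finset (Fin (n E)))) := by
    ext ⟨E, i⟩
    simp
  rw [this, Finset.card_sigma]
  simp

section
variable {F : Finset (Finset V)} {s : ℕ} {x : Fin s → Fin 3 → V}

theorem no_gain (h : Hyp F s) (hx : Blk F x) (hs : 0 < s) {q : ℕ} (hq : 0 < q) (R K : ℕ)
    (hK : 810 * q * R ≤ K) {μ : Finset V → ℝ} (hμ0 : ∀ e, 0 ≤ μ e)
    (hG : ∀ α j k l, Gk (tm (FR F x K) μ) x α j k l ≤ 45)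
    (hH : ∀ j k l, Hk (tm (FR F x K) μ) x j k l ≤ 270)
    (I : Fin 3 × Fin q → Finset (Fin s)) (hIc : ∀ c, (I c).card = 45 * R + 1)
    (hdis : ∀ c d, c ≠ d → Disjoint (I c) (I d)) (ω₀ : Fin 3 × Fin q → Fin s)
    (htr : ∀ ω : Fin 3 × Fin q → Fin s, (∀ c, ω c ∈ I c) → ∀ E : Mv q,
      Robust F x K ((supp3 E).image (fun p => x (ω₀ p.1) p.2)) →
      Robust F x K ((supp3 E).image (fun p => x (ω p.1) p.2))) :
    (R : ℝ) * (gain (Gk (tm (FR F x K) μ) x) (Hk (tm (FR F x K) μ) x) (fun a => ω₀ (0, a))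
      (fun a => ω₀ (1, a)) (fun a => ω₀ (2, a)) / (q : ℝ) ^ 2) ≤
      3 * q + Fintype.card (Mv q) := by
  classical
  set τ := tm (FR F x K) μ with hτdef
  have hτ : Sym3 τ := tm_sym _ _
  have hτ0 : ∀ a b c, 0 ≤ τ a b c := fun a b c => tm_nonneg hμ0 a b c
  set η : Fin q → Fin s := fun a => ω₀ (0, a) with hη
  set ζ : Fin q → Fin s := fun a => ω₀ (1, a) with hζ
  set θ : Fin q → Fin s := fun a => ω₀ (2, a) with hθ
  have hqR : (0 : ℝ) < q := by exact_mod_cast hq
  have hq2 : (0 : ℝ) < (q : ℝ) ^ 2 := by positivity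
  have hR0 : (0 : ℝ) ≤ R := Nat.cast_nonneg R
  let y : Mv q → ℝ := fun E => yv τ x η ζ θ E.1 E.2.1 E.2.2
  have hy0 : ∀ E, 0 ≤ y E := fun E => yv_nonneg hτ0 η ζ θ _ _ _
  let n : Mv q → ℕ := fun E => ⌊(R : ℝ) * y E⌋₊
  have hn_le : ∀ E, (n E : ℝ) ≤ R * y E := fun E =>
    Nat.floor_le (mul_nonneg hR0 (hy0 E))
  have hn_ge : ∀ E, (R : ℝ) * y E - 1 ≤ n E := fun E => by
    have := Nat.lt_floor_add_one ((R : ℝ) * y E)
    simp only [n]
    linarith
  have htot : ∑ E : Mv q, y E = (∑ a, ∑ b, ∑ c, Hk τ x (η a) (ζ b) (θ c)) / (q : ℝ) ^ 2 := by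
    rw [← total_yv hs hq η ζ θ, Fintype.sum_prod_type]
    apply Finset.sum_congr rfl
    intro o₀ _
    rw [Fintype.sum_prod_type]
  -- caps
  let capv : Fin 3 × Fin q → ℝ := fun c =>
    ![cap (Gk τ x) η ζ θ c.2, cap (Gk τ x) ζ η θ c.2, cap (Gk τ x) θ η ζ c.2] c.1
  have hcap_le : ∀ (η ζ θ : Fin q → Fin s) (a : Fin q), cap (Gk τ x) η ζ θ a ≤
      45 * (q : ℝ) ^ 2 := by
    intro η ζ θ a
    apply M3_le
    intro α
    calc ∑ b, ∑ c, Gk τ x α (η a) (ζ b) (θ c) ≤ ∑ _b : Fin q, ∑ _c : Fin q, (45 : ℝ) := by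
          gcongr
          exact hG _ _ _ _
      _ = 45 * (q : ℝ) ^ 2 := by
          simp only [Finset.sum_const, Finset.card_univ, Fintype.card_fin, nsmul_eq_mul]
          ring
  have hcap_nn : ∀ (η ζ θ : Fin q → Fin s) (a : Fin q), 0 ≤ cap (Gk τ x) η ζ θ a := by
    intro η ζ θ a
    apply M3_nonneg
    intro α
    exact Finset.sum_nonneg fun b _ => Finset.sum_nonneg fun c _ => Gk_nonneg hτ0 _ _ _ _
  have hcapv_le : ∀ c, capv c ≤ 45 * (q : ℝ) ^ 2 := by
    rintro ⟨ρ, a⟩
    fin_cases ρ <;> simp only [capv]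
    · exact hcap_le _ _ _ _
    · exact hcap_le _ _ _ _
    · exact hcap_le _ _ _ _
  have hcapv_nn : ∀ c, 0 ≤ capv c := by
    rintro ⟨ρ, a⟩
    fin_cases ρ <;> simp only [capv]
    · exact hcap_nn _ _ _ _
    · exact hcap_nn _ _ _ _
    · exact hcap_nn _ _ _ _
  let b : Fin 3 × Fin q → ℕ := fun c => ⌈(R : ℝ) * (capv c / (q : ℝ) ^ 2)⌉₊
  have hb_ge : ∀ c, (R : ℝ) * (capv c / (q : ℝ) ^ 2) ≤ b c := fun c => Nat.le_ceil _
  have hb_le : ∀ c, (b c : ℝ) ≤ R * (capv c / (q : ℝ) ^ 2) + 1 := fun c =>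
    (Nat.ceil_lt_add_one (mul_nonneg hR0 (div_nonneg (hcapv_nn c) hq2.le))).le
  have hbI : ∀ c, b c ≤ (I c).card := by
    intro c
    rw [hIc]
    have : b c ≤ 45 * R := by
      apply Nat.ceil_le.2
      push_cast
      have h1 : capv c / (q : ℝ) ^ 2 ≤ 45 := by
        rw [div_le_iff₀ hq2]
        exact hcapv_le c
      nlinarith
    omega
  have hJ : ∀ c, ∃ J ⊆ I c, J.card = b c := fun c => Finset.exists_subset_card_eq (hbI c)
  choose J hJI hJc using hJ
  -- loads
  have hload : ∀ c α, (univ.filter (fun l : (E : Mv q) × Fin (n E) => (c, α) ∈ supp3 l.1)).card ≤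
      (J c).card := by
    intro c α
    rw [card_sigma_filter n (fun E => (c, α) ∈ supp3 E), hJc]
    have hreal : ((∑ E ∈ univ.filter (fun E : Mv q => (c, α) ∈ supp3 E), n E : ℕ) : ℝ) ≤ b c := by
      refine le_trans ?_ (hb_ge c)
      push_cast
      calc ∑ E ∈ univ.filter (fun E : Mv q => (c, α) ∈ supp3 E), (n E : ℝ) ≤
            ∑ E ∈ univ.filter (fun E : Mv q => (c, α) ∈ supp3 E), (R : ℝ) * y E :=
            Finset.sum_le_sum fun E _ => hn_le E
        _ = R * ∑ E ∈ univ.filter (fun E : Mv q => (c, α) ∈ supp3 E), y E := by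
            rw [Finset.mul_sum]
        _ ≤ R * (capv c / (q : ℝ) ^ 2) := by
            apply mul_le_mul_of_nonneg_left _ hR0
            obtain ⟨ρ, a⟩ := c
            fin_cases ρ
            · have e1 : ∑ E ∈ univ.filter (fun E : Mv q => (((0 : Fin 3), a), α) ∈ supp3 E), y E =
                  ∑ o₁, ∑ o₂, yv τ x η ζ θ (some (a, α)) o₁ o₂ := by
                simp only [mem_supp3_0]
                rw [Finset.sum_filter, Fintype.sum_prod_type]
                have : ∀ o₀ : Option (Fin q × Fin 3), ∑ z : Option (Fin q × Fin 3) ×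
                    Option (Fin q × Fin 3), (if ((o₀, z) : Mv q).1 = some (a, α) then
                    y (o₀, z) else 0) = if o₀ = some (a, α) then
                    ∑ z : Option (Fin q × Fin 3) × Option (Fin q × Fin 3), y (o₀, z) else 0 := by
                  intro o₀
                  by_cases ho : o₀ = some (a, α)
                  · simp [ho]
                  · simp [ho]
                simp only [this]
                rw [Finset.sum_ite_eq' univ (some (a, α))]
                rw [if_pos (mem_univ _), Fintype.sum_prod_type]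
              simp only [Fin.zero_eta]
              rw [e1, load0 hs hq]
              apply div_le_div_of_nonneg_right _ hq2.le
              simp only [capv]
              exact le_M3 (fun α => ∑ b, ∑ c, Gk τ x α (η a) (ζ b) (θ c)) α
            · have e1 : ∑ E ∈ univ.filter (fun E : Mv q => (((1 : Fin 3), a), α) ∈ supp3 E), y E =
                  ∑ o₀, ∑ o₂, yv τ x η ζ θ o₀ (some (a, α)) o₂ := by
                simp only [mem_supp3_1]
                rw [Finset.sum_filter, Fintype.sum_prod_type]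
                apply Finset.sum_congr rfl
                intro o₀ _
                rw [Fintype.sum_prod_type]
                have : ∀ o₁ : Option (Fin q × Fin 3), ∑ o₂ : Option (Fin q × Fin 3),
                    (if ((o₀, o₁, o₂) : Mv q).2.1 = some (a, α) then
                    y (o₀, o₁, o₂) else 0) = if o₁ = some (a, α) then
                    ∑ o₂ : Option (Fin q × Fin 3), y (o₀, o₁, o₂) else 0 := by
                  intro o₁
                  by_cases ho : o₁ = some (a, α)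
                  · simp [ho]
                  · simp [ho]
                simp only [this]
                rw [Finset.sum_ite_eq' univ (some (a, α)), if_pos (mem_univ _)]
              simp only [Fin.mk_one]
              rw [e1, load1 hτ hs hq]
              apply div_le_div_of_nonneg_right _ hq2.le
              simp only [capv]
              exact le_M3 (fun α => ∑ b, ∑ c, Gk τ x α (ζ a) (η b) (θ c)) α
            · have e1 : ∑ E ∈ univ.filter (fun E : Mv q => (((2 : Fin 3), a), α) ∈ supp3 E), y E =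
                  ∑ o₀, ∑ o₁, yv τ x η ζ θ o₀ o₁ (some (a, α)) := by
                simp only [mem_supp3_2]
                rw [Finset.sum_filter, Fintype.sum_prod_type]
                apply Finset.sum_congr rfl
                intro o₀ _
                rw [Fintype.sum_prod_type]
                apply Finset.sum_congr rfl
                intro o₁ _
                simp only
                rw [Finset.sum_ite_eq' univ (some (a, α)), if_pos (mem_univ _)]
              have e2 : (⟨2, by norm_num⟩ : Fin 3) = 2 := rfl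
              simp only [e2]
              rw [e1, load2 hτ hs hq]
              apply div_le_div_of_nonneg_right _ hq2.le
              simp only [capv]
              exact le_M3 (fun α => ∑ b, ∑ c, Gk τ x α (θ a) (η b) (ζ c)) α
    exact_mod_cast hreal
  -- total number of moves
  have hcardκ : (Fintype.card ((E : Mv q) × Fin (n E)) : ℝ) = ∑ E, (n E : ℝ) := by
    rw [Fintype.card_sigma]
    push_cast
    simp
  have hHsum : (∑ a, ∑ b, ∑ c, Hk τ x (η a) (ζ b) (θ c)) ≤ 270 * (q : ℝ) ^ 3 := by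
    calc ∑ a, ∑ b, ∑ c, Hk τ x (η a) (ζ b) (θ c) ≤
          ∑ _a : Fin q, ∑ _b : Fin q, ∑ _c : Fin q, (270 : ℝ) := by
          gcongr
          exact hH _ _ _
      _ = 270 * (q : ℝ) ^ 3 := by
          simp only [Finset.sum_const, Finset.card_univ, Fintype.card_fin, nsmul_eq_mul]
          ring
  have hκK : 3 * Fintype.card ((E : Mv q) × Fin (n E)) ≤ K := by
    refine le_trans ?_ hK
    have h1 : (Fintype.card ((E : Mv q) × Fin (n E)) : ℝ) ≤ 270 * q * R := by
      rw [hcardκ]
      calc ∑ E, (n E : ℝ) ≤ ∑ E, (R : ℝ) * y E := Finset.sum_le_sum fun E _ => hn_le E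
        _ = R * ((∑ a, ∑ b, ∑ c, Hk τ x (η a) (ζ b) (θ c)) / (q : ℝ) ^ 2) := by
            rw [← Finset.mul_sum, htot]
        _ ≤ R * ((270 * (q : ℝ) ^ 3) / (q : ℝ) ^ 2) := by
            gcongr
        _ = 270 * q * R := by
            field_simp
    have h2 : Fintype.card ((E : Mv q) × Fin (n E)) ≤ 270 * q * R := by exact_mod_cast h1
    calc 3 * Fintype.card ((E : Mv q) × Fin (n E)) ≤ 3 * (270 * q * R) :=
          Nat.mul_le_mul_left 3 h2
      _ = 810 * q * R := by ring
  have hIne : ∀ c, (I c).Nonempty := by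
    intro c
    rw [← Finset.card_pos, hIc]
    omega
  have hrob : ∀ l : (E : Mv q) × Fin (n E), ∀ ω : Fin 3 × Fin q → Fin s, (∀ c, ω c ∈ I c) →
      Robust F x (3 * Fintype.card ((E : Mv q) × Fin (n E)))
        ((supp3 l.1).image (fun p => x (ω p.1) p.2)) := by
    rintro ⟨E, i⟩ ω hω
    apply Robust.mono hκK
    apply htr ω hω E
    apply yv_robust (μ := μ) ω₀ E
    intro h0
    have h1 : n E = 0 := by
      simp only [n, y, hη, hζ, hθ]
      rw [h0]
      simp
    have := i.2
    omega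
  have hfin := realize h.three h.le hx (fun l : (E : Mv q) × Fin (n E) => supp3 l.1) I J hJI hIne
    hdis (fun l => supp3_dist l.1) hload hrob
  have hfinR : ∑ E, (n E : ℝ) ≤ ∑ c, (b c : ℝ) := by
    rw [← hcardκ]
    have : ((Fintype.card ((E : Mv q) × Fin (n E)) : ℕ) : ℝ) ≤ ((∑ c, (J c).card : ℕ) : ℝ) := by
      exact_mod_cast hfin
    refine this.trans ?_
    push_cast
    simp only [hJc]
    exact le_rfl
  -- sums
  have hL : (R : ℝ) * ((∑ a, ∑ b, ∑ c, Hk τ x (η a) (ζ b) (θ c)) / (q : ℝ) ^ 2) -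
      Fintype.card (Mv q) ≤ ∑ E, (n E : ℝ) := by
    calc (R : ℝ) * ((∑ a, ∑ b, ∑ c, Hk τ x (η a) (ζ b) (θ c)) / (q : ℝ) ^ 2) -
      Fintype.card (Mv q) = ∑ E : Mv q, ((R : ℝ) * y E - 1) := by
          rw [Finset.sum_sub_distrib, ← Finset.mul_sum, htot]
          simp
      _ ≤ ∑ E, (n E : ℝ) := Finset.sum_le_sum fun E _ => hn_ge E
  have hRt : ∑ c, (b c : ℝ) ≤ (R : ℝ) * ((∑ a, cap (Gk τ x) η ζ θ a + ∑ b, cap (Gk τ x) ζ η θ b +
      ∑ c, cap (Gk τ x) θ η ζ c) / (q : ℝ) ^ 2) + 3 * q := by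
    calc ∑ c, (b c : ℝ) ≤ ∑ c, ((R : ℝ) * (capv c / (q : ℝ) ^ 2) + 1) :=
          Finset.sum_le_sum fun c _ => hb_le c
      _ = (R : ℝ) * ((∑ c, capv c) / (q : ℝ) ^ 2) + 3 * q := by
          rw [Finset.sum_add_distrib, ← Finset.mul_sum, ← Finset.sum_div]
          simp
      _ = _ := by
          rw [Fintype.sum_prod_type, Fin.sum_univ_three]
          rfl
  unfold gain
  have e : (R : ℝ) * ((∑ a, ∑ b, ∑ c, Hk τ x (η a) (ζ b) (θ c) - ∑ a, cap (Gk τ x) η ζ θ a -
      ∑ b, cap (Gk τ x) ζ η θ b - ∑ c, cap (Gk τ x) θ η ζ c) / (q : ℝ) ^ 2) =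
      (R : ℝ) * ((∑ a, ∑ b, ∑ c, Hk τ x (η a) (ζ b) (θ c)) / (q : ℝ) ^ 2) -
      (R : ℝ) * ((∑ a, cap (Gk τ x) η ζ θ a + ∑ b, cap (Gk τ x) ζ η θ b +
      ∑ c, cap (Gk τ x) θ η ζ c) / (q : ℝ) ^ 2) := by ring
  rw [e]
  linarith

end

end Res12
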