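import Pool.Agent.Helper12.Res.Bulk3

/-!
The weight bound.
-/

namespace Res12

open Finset

set_option linter.unusedSectionVars false

theorem weights_bound (ε : ℝ) (hε : 0 < ε) : ∃ s₀ : ℕ, 0 < s₀ ∧ ∀ s ≥ s₀, ∀ (V : Type) [Fintype V]
    [DecidableEq V] (F : Finset (Finset V)), Hyp F s → ∀ (x : Fin s → Fin 3 → V), Blk F x →
    ∀ μ : Finset V → ℝ, (∀ e, 0 ≤ μ e) → (∀ e, μ e ≤ 1) →
    S3 (tm F μ) univ univ univ ≤
      3 * ∑ j, M3 (fun α => ∑ b, ∑ c, tm F μ (x j α) b c) + ε * (s : ℝ) ^ 3 := by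
  classical
  set ε₁ := ε / 2 with hε₁
  have hε₁0 : 0 < ε₁ := by positivity
  obtain ⟨q, hq, hpop⟩ := popular_gain ε₁ 45 270 hε₁0 (by norm_num)
  have hqR : (0 : ℝ) < q := by exact_mod_cast hq
  obtain ⟨R, hR⟩ := exists_nat_gt ((3 * q + Fintype.card (Mv q) : ℝ) / (q * (ε₁ / 4)))
  have hR' : (3 * q + Fintype.card (Mv q) : ℝ) < R * (q * (ε₁ / 4)) := by
    rwa [div_lt_iff₀ (by positivity)] at hR
  set K : ℕ := 810 * q * R with hK
  set NP : ℕ := Fintype.card (Finset (Mv q)) with hNP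
  have hNP0 : 0 < NP := Fintype.card_pos
  have hNPR : (0 : ℝ) < NP := by exact_mod_cast hNP0
  obtain ⟨s₁, hs₁⟩ := supersat (Fin 3 × Fin q) (45 * R + 1) (ε₁ / (4 * 270) / NP) (by positivity)
  obtain ⟨s₂, hs₂⟩ := exists_nat_ge (81 * K / ε₁)
  refine ⟨max (max s₁ s₂) 1, by omega, ?_⟩
  intro s hs V _ _ F h x hx μ hμ0 hμ1
  have hs1 : s₁ ≤ s := by omega
  have hs2 : s₂ ≤ s := by omega
  have hspos : 0 < s := by omega
  have hsR : (0 : ℝ) < s := by exact_mod_cast hspos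
  by_contra hlt
  push Not at hlt
  set τ := tm (FR F x K) μ with hτdef
  have hτ : Sym3 τ := tm_sym _ _
  have hτ0 : ∀ a b c, 0 ≤ τ a b c := fun a b c => tm_nonneg hμ0 a b c
  have hτ1 : ∀ a b c, τ a b c ≤ 1 := fun a b c => tm_le_one hμ1 a b c
  have hτF : ∀ a b c, τ a b c ≤ tm F μ a b c := fun a b c =>
    tm_le_tm (fun e he => (mem_FR.1 he).1) hμ0 (fun _ => le_rfl) a b c
  have hτF1 : ∀ a b c, τ a b c ≤ tm F (fun _ => 1) a b c := fun a b c =>
    tm_le_tm (fun e he => (mem_FR.1 he).1) (fun _ => zero_le_one) hμ1 a b c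
  obtain ⟨P, hP, hm, hc, hVS, -⟩ := hx.matching
  -- no edge inside the complement
  have hW : S3 τ (CV x)ᶜ (CV x)ᶜ (CV x)ᶜ = 0 := by
    unfold S3
    apply Finset.sum_eq_zero
    intro a ha
    apply Finset.sum_eq_zero
    intro b hb
    apply Finset.sum_eq_zero
    intro c hc'
    by_contra hne
    have h1 := (mem_FR.1 (tm_ne_zero hne)).1
    apply h.meets hP hm hc h1
    rw [hVS, Finset.disjoint_left]
    intro v hv hvC
    simp only [mem_insert, mem_singleton] at hv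
    rw [mem_compl] at ha hb hc'
    rcases hv with rfl | rfl | rfl
    · exact ha hvC
    · exact hb hvC
    · exact hc' hvC
  have hm2 : ∀ u v, m2 τ x u v ≤ 3 * s := by
    intro u v
    unfold m2
    calc ∑ w ∈ (CV x)ᶜ, τ u v w ≤ ∑ w, τ u v w :=
          Finset.sum_le_sum_of_subset_of_nonneg (subset_univ _) fun w _ _ => hτ0 _ _ _
      _ ≤ ∑ w, tm F (fun _ => 1) u v w := Finset.sum_le_sum fun w _ => hτF1 _ _ _
      _ = ((N F u v).card : ℝ) := sum_tm_one F u v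
      _ ≤ 3 * s := h.N_le u v
  have hm1 : ∀ u, m1 τ x u ≤ 18 * (s : ℝ) ^ 2 := by
    intro u
    unfold m1
    calc ∑ w ∈ (CV x)ᶜ, ∑ w' ∈ (CV x)ᶜ, τ u w w' ≤ ∑ w ∈ (CV x)ᶜ, ∑ w', τ u w w' := by
          apply Finset.sum_le_sum
          intro w _
          exact Finset.sum_le_sum_of_subset_of_nonneg (subset_univ _) fun w _ _ => hτ0 _ _ _
      _ ≤ ∑ w, ∑ w', τ u w w' :=
          Finset.sum_le_sum_of_subset_of_nonneg (subset_univ _) fun w _ _ =>
            Finset.sum_nonneg fun w' _ => hτ0 _ _ _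
      _ ≤ ∑ w, ∑ w', tm F (fun _ => 1) u w w' :=
          Finset.sum_le_sum fun w _ => Finset.sum_le_sum fun w' _ => hτF1 _ _ _
      _ ≤ 18 * (s : ℝ) ^ 2 := h.deg_le u
  have hG := Gk_le (x := x) hspos hτ1 hm2 hm1
  have hH := Hk_le (x := x) hspos hτ1 hm2 hm1
  -- the inequality for `τ`
  have hbig : 3 * ∑ j, M3 (fun α => ∑ k, ∑ l, Gk τ x α j k l) + ε₁ * (s : ℝ) ^ 3 ≤
      ∑ j, ∑ k, ∑ l, Hk τ x j k l := by
    rw [sum_Hk hspos hτ hx hW]
    simp only [sum_Gk hspos hτ hx]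
    have e1 : S3 (tm F μ) univ univ univ ≤ S3 τ univ univ univ +
        S3 (tm (FN F x K) (fun _ => 1)) univ univ univ := by
      unfold S3
      rw [← Finset.sum_add_distrib]
      apply Finset.sum_le_sum
      intro a _
      rw [← Finset.sum_add_distrib]
      apply Finset.sum_le_sum
      intro b _
      rw [← Finset.sum_add_distrib]
      apply Finset.sum_le_sum
      intro c _
      exact tm_split K hμ1 a b c
    have e2 := FN_sum_le h hx K
    have e3 : 81 * (K : ℝ) * (s : ℝ) ^ 2 ≤ ε₁ * (s : ℝ) ^ 3 := by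
      have h1 : 81 * (K : ℝ) / ε₁ ≤ s := hs₂.trans (by exact_mod_cast hs2)
      rw [div_le_iff₀ hε₁0] at h1
      nlinarith [sq_nonneg (s : ℝ)]
    have e4 : ∑ j, M3 (fun α => ∑ b, ∑ c, τ (x j α) b c) ≤
        ∑ j, M3 (fun α => ∑ b, ∑ c, tm F μ (x j α) b c) := by
      apply Finset.sum_le_sum
      intro j _
      apply M3_mono
      intro α
      exact Finset.sum_le_sum fun b _ => Finset.sum_le_sum fun c _ => hτF _ _ _
    have e5 : ε = ε₁ + ε₁ := by rw [hε₁]; ring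
    rw [e5] at hlt
    nlinarith
  have hcount := hpop s hspos (Gk τ x) (Hk τ x) (fun α j k l => Gk_nonneg hτ0 α j k l) hG
    (fun j k l => Hk_nonneg hτ0 j k l) hH hbig
  -- transfer to functions on `Fin 3 × Fin q`
  set A := univ.filter (fun ω : (Fin q → Fin s) × (Fin q → Fin s) × (Fin q → Fin s) =>
          (q : ℝ) ^ 3 * (ε₁ / 4) ≤ gain (Gk τ x) (Hk τ x) ω.1 ω.2.1 ω.2.2) with hA
  set A' := univ.filter (fun ω : Fin 3 × Fin q → Fin s => (q : ℝ) ^ 3 * (ε₁ / 4) ≤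
    gain (Gk τ x) (Hk τ x) (fun a => ω (0, a)) (fun a => ω (1, a)) (fun a => ω (2, a))) with hA'
  have hAA : A'.card = A.card := by
    apply Finset.card_equiv (eqv q s)
    intro ω
    simp only [hA, hA', mem_filter, mem_univ, true_and, eqv, Equiv.coe_fn_mk]
  -- patterns
  let pat : (Fin 3 × Fin q → Fin s) → Finset (Mv q) := fun ω =>
    univ.filter (fun E => Robust F x K ((supp3 E).image (fun p => x (ω p.1) p.2)))
  have hpig : ∃ P₀ ∈ (univ : Finset (Finset (Mv q))),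
      (A'.card : ℝ) / NP ≤ ((A'.filter (fun ω => pat ω = P₀)).card : ℝ) := by
    apply Finset.exists_le_card_fiber_of_nsmul_le_card_of_maps_to
    · intro ω _
      exact mem_univ _
    · exact univ_nonempty
    · rw [Finset.card_univ, ← hNP, nsmul_eq_mul]
      rw [mul_div_cancel₀ _ hNPR.ne']
  obtain ⟨P₀, -, hP₀⟩ := hpig
  set E₀ := A'.filter (fun ω => pat ω = P₀) with hE₀
  have hE₀card : ε₁ / (4 * 270) / NP * (s : ℝ) ^ (Fintype.card (Fin 3 × Fin q)) ≤ (E₀.card : ℝ) := by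
    refine le_trans ?_ hP₀
    rw [Fintype.card_prod, Fintype.card_fin, Fintype.card_fin]
    have e1 : (s : ℝ) ^ (3 * q) = (s : ℝ) ^ q * (s : ℝ) ^ q * (s : ℝ) ^ q := by
      rw [← pow_add, ← pow_add]
      congr 1
      ring
    rw [e1, div_mul_eq_mul_div]
    apply div_le_div_of_nonneg_right _ hNPR.le
    rw [hAA]
    exact hcount
  obtain ⟨I, hIc, hIdis, hIE⟩ := hs₁ s hs1 E₀ hE₀card
  have hIne : ∀ c, (I c).Nonempty := by
    intro c
    rw [← Finset.card_pos, hIc]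
    omega
  choose ω₀ hω₀ using hIne
  have hω₀E := hIE ω₀ hω₀
  rw [hE₀, mem_filter, hA', mem_filter] at hω₀E
  obtain ⟨⟨-, hgain⟩, hpat₀⟩ := hω₀E
  have hng := no_gain h hx hspos hq R K le_rfl hμ0 hG hH I hIc hIdis ω₀ (by
    intro ω hω E hE
    have h1 := hIE ω hω
    rw [hE₀, mem_filter] at h1
    have h2 : E ∈ pat ω₀ := mem_filter.2 ⟨mem_univ _, hE⟩
    rw [hpat₀, ← h1.2] at h2
    exact (mem_filter.1 h2).2)
  have hq2 : (0 : ℝ) < (q : ℝ) ^ 2 := by positivity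
  have h1 : (q : ℝ) * (ε₁ / 4) ≤ gain (Gk τ x) (Hk τ x) (fun a => ω₀ (0, a))
      (fun a => ω₀ (1, a)) (fun a => ω₀ (2, a)) / (q : ℝ) ^ 2 := by
    rw [le_div_iff₀ hq2]
    calc (q : ℝ) * (ε₁ / 4) * (q : ℝ) ^ 2 = (q : ℝ) ^ 3 * (ε₁ / 4) := by ring
      _ ≤ _ := hgain
  have h2 : (R : ℝ) * (q * (ε₁ / 4)) ≤ R * (gain (Gk τ x) (Hk τ x) (fun a => ω₀ (0, a))
      (fun a => ω₀ (1, a)) (fun a => ω₀ (2, a)) / (q : ℝ) ^ 2) :=
    mul_le_mul_of_nonneg_left h1 (Nat.cast_nonneg R)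
  linarith

end Res12
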