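import Pool.Agent.Helper12.Res.Bulk4

/-!
The bulk cover theorem: for every maximum matching `P` there is `w : V → ℝ`, `w ≥ 0`, `w = 0` off
`V(P)`, with weight `1` on every edge of `P`, such that all but few edges have weight `≥ 1 - ε`.
-/

namespace Res12

open Finset

set_option linter.unusedSectionVars false

section
variable {V : Type} [Fintype V] [DecidableEq V]

/-- labelling of a matching -/
theorem exists_label {F : Finset (Finset V)} {s : ℕ} (h : Hyp F s) {P : Finset (Finset V)}
    (hP : P ⊆ F) (hm : IsMatching P) (hc : P.card = s) :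
    ∃ x : Fin s → Fin 3 → V, Blk F x ∧ (∀ e, e ∈ P ↔ ∃ i, e = {x i 0, x i 1, x i 2}) := by
  classical
  obtain ⟨f⟩ : Nonempty (Fin s ≃ P) := ⟨(Finset.equivFinOfCardEq hc).symm⟩
  have h3 : ∀ i, ∃ u v w : V, u ≠ v ∧ u ≠ w ∧ v ≠ w ∧ (f i : Finset V) = {u, v, w} := by
    intro i
    have := h.three _ (hP (f i).2)
    exact Finset.card_eq_three.1 this
  choose u v w huv huw hvw he using h3
  let x : Fin s → Fin 3 → V := fun i => ![u i, v i, w i]
  have hx : ∀ i, ({x i 0, x i 1, x i 2} : Finset V) = f i := fun i => (he i).symm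
  refine ⟨x, ⟨?_, ?_⟩, ?_⟩
  · rintro ⟨i, α⟩ ⟨j, β⟩ hij
    simp only at hij
    have hij' : i = j := by
      by_contra hne
      have hd := hm _ (f i).2 _ (f j).2 (by
        intro h'
        exact hne (f.injective (Subtype.ext h')))
      rw [Finset.disjoint_left] at hd
      apply hd (a := x i α)
      · rw [← hx i]
        exact (mem_blk x i).2 ⟨α, rfl⟩
      · rw [hij, ← hx j]
        exact (mem_blk x j).2 ⟨β, rfl⟩
    subst hij'
    congr 1
    have h1 := huv i
    have h2 := huw i
    have h3 := hvw i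
    fin_cases α <;> fin_cases β <;> simp only [x] at hij <;> first | rfl | (exfalso; revert hij; simp [h1, h2, h3, h1.symm, h2.symm, h3.symm])
  · intro i
    rw [hx]
    exact hP (f i).2
  · intro e
    constructor
    · intro hep
      obtain ⟨i, hi⟩ := f.surjective ⟨e, hep⟩
      refine ⟨i, ?_⟩
      rw [hx, hi]
    · rintro ⟨i, rfl⟩
      rw [hx]
      exact (f i).2

theorem tm_add (F : Finset (Finset V)) (μ ν : Finset V → ℝ) (p r : ℝ) (a b c : V) :
    tm F (p • μ + r • ν) a b c = p * tm F μ a b c + r * tm F ν a b c := by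
  unfold tm
  split_ifs <;> simp

theorem continuous_tm (F : Finset (Finset V)) (a b c : V) :
    Continuous (fun μ : Finset V → ℝ => tm F μ a b c) := by
  unfold tm
  split_ifs
  · exact continuous_apply _
  · exact continuous_const

/-- the payoff -/
noncomputable def payoff (F : Finset (Finset V)) {s : ℕ} (x : Fin s → Fin 3 → V)
    (w : Fin s → Fin 3 → ℝ) (μ : Finset V → ℝ) : ℝ :=
  (∑ a, ∑ b, ∑ c, tm F μ a b c) - 3 * ∑ i, ∑ α, w i α * ∑ b, ∑ c, tm F μ (x i α) b c

theorem payoff_w (F : Finset (Finset V)) {s : ℕ} (x : Fin s → Fin 3 → V)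
    (w w' : Fin s → Fin 3 → ℝ) (μ : Finset V → ℝ) (p r : ℝ) (hpr : p + r = 1) :
    payoff F x (p • w + r • w') μ = p * payoff F x w μ + r * payoff F x w' μ := by
  unfold payoff
  have e : ∑ i, ∑ α, (p • w + r • w') i α * ∑ b, ∑ c, tm F μ (x i α) b c =
      p * ∑ i, ∑ α, w i α * ∑ b, ∑ c, tm F μ (x i α) b c +
      r * ∑ i, ∑ α, w' i α * ∑ b, ∑ c, tm F μ (x i α) b c := by
    simp only [Finset.mul_sum (s := (univ : Finset (Fin s))), ← Finset.sum_add_distrib]
    apply Finset.sum_congr rfl
    intro i _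
    rw [Finset.mul_sum (s := (univ : Finset (Fin 3))), Finset.mul_sum (s := (univ : Finset (Fin 3))),
      ← Finset.sum_add_distrib]
    apply Finset.sum_congr rfl
    intro α _
    simp only [Pi.add_apply, Pi.smul_apply, smul_eq_mul]
    ring
  rw [e]
  have : (∑ a, ∑ b, ∑ c, tm F μ a b c) = (p + r) * (∑ a, ∑ b, ∑ c, tm F μ a b c) := by
    rw [hpr, one_mul]
  linear_combination this

theorem payoff_mu (F : Finset (Finset V)) {s : ℕ} (x : Fin s → Fin 3 → V)
    (w : Fin s → Fin 3 → ℝ) (μ ν : Finset V → ℝ) (p r : ℝ) :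
    payoff F x w (p • μ + r • ν) = p * payoff F x w μ + r * payoff F x w ν := by
  unfold payoff
  have e1 : ∀ a : V, ∑ b, ∑ c, tm F (p • μ + r • ν) a b c =
      p * (∑ b, ∑ c, tm F μ a b c) + r * (∑ b, ∑ c, tm F ν a b c) := by
    intro a
    simp only [tm_add, Finset.sum_add_distrib, Finset.mul_sum]
  simp only [e1, Finset.sum_add_distrib, mul_add]
  simp only [← Finset.mul_sum]
  have e2 : ∑ i, ∑ α, w i α * (p * (∑ b, ∑ c, tm F μ (x i α) b c)) =
      p * ∑ i, ∑ α, w i α * (∑ b, ∑ c, tm F μ (x i α) b c) := by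
    rw [Finset.mul_sum]
    apply Finset.sum_congr rfl
    intro i _
    rw [Finset.mul_sum]
    apply Finset.sum_congr rfl
    intro α _
    ring
  have e3 : ∑ i, ∑ α, w i α * (r * (∑ b, ∑ c, tm F ν (x i α) b c)) =
      r * ∑ i, ∑ α, w i α * (∑ b, ∑ c, tm F ν (x i α) b c) := by
    rw [Finset.mul_sum]
    apply Finset.sum_congr rfl
    intro i _
    rw [Finset.mul_sum]
    apply Finset.sum_congr rfl
    intro α _
    ring
  rw [e2, e3]
  ring

open Classical in
/-- indicator of the bad ordered edges -/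
noncomputable def badf (F : Finset (Finset V)) (w : V → ℝ) (ε : ℝ) (a b c : V) : ℝ :=
  if ({a, b, c} : Finset V) ∈ F ∧ w a + w b + w c < 1 - ε then 1 else 0

end

theorem bulk_cover (ε : ℝ) (hε : 0 < ε) : ∃ s₀ : ℕ, 0 < s₀ ∧ ∀ s ≥ s₀, ∀ (V : Type) [Fintype V]
    [DecidableEq V] (F : Finset (Finset V)), Hyp F s → ∀ P ⊆ F, IsMatching P → P.card = s →
    ∃ w : V → ℝ, (∀ v, 0 ≤ w v) ∧ (∀ v, v ∉ VS P → w v = 0) ∧ (∀ e ∈ P, ∑ v ∈ e, w v = 1) ∧
      ∑ a, ∑ b, ∑ c, badf F w ε a b c ≤ ε * (s : ℝ) ^ 3 := by
  classical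
  obtain ⟨s₀, hs₀, hwb⟩ := weights_bound (ε ^ 2) (by positivity)
  refine ⟨s₀, hs₀, ?_⟩
  intro s hs V _ _ F h P hP hm hc
  obtain ⟨x, hx, hxP⟩ := exists_label h hP hm hc
  have hVS : VS P = CV x := by
    ext v
    rw [mem_VS]
    unfold CV
    simp only [mem_image, mem_univ, true_and]
    constructor
    · rintro ⟨e, he, hv⟩
      obtain ⟨i, rfl⟩ := (hxP e).1 he
      obtain ⟨α, rfl⟩ := (mem_blk x i).1 hv
      exact ⟨(i, α), rfl⟩
    · rintro ⟨⟨i, α⟩, rfl⟩
      exact ⟨_, (hxP _).2 ⟨i, rfl⟩, (mem_blk x i).2 ⟨α, rfl⟩⟩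
  -- the saddle point
  let X : Set (Fin s → Fin 3 → ℝ) := Set.pi Set.univ (fun _ => stdSimplex ℝ (Fin 3))
  let Y : Set (Finset V → ℝ) := Set.pi Set.univ (fun _ => Set.Icc (0 : ℝ) 1)
  have hXc : Convex ℝ X := convex_pi (fun _ _ => convex_stdSimplex ℝ (Fin 3))
  have hXk : IsCompact X := isCompact_univ_pi (fun _ => isCompact_stdSimplex ℝ (Fin 3))
  have hXn : X.Nonempty := by
    refine ⟨fun _ => Pi.single 0 1, fun i _ => ?_⟩
    exact single_mem_stdSimplex ℝ (0 : Fin 3)
  have hYc : Convex ℝ Y := convex_pi (fun _ _ => convex_Icc (0 : ℝ) 1)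
  have hYk : IsCompact Y := isCompact_univ_pi (fun _ => isCompact_Icc)
  have hYn : Y.Nonempty := ⟨fun _ => 0, fun e _ => by simp⟩
  have hcw : ∀ μ : Finset V → ℝ, Continuous (fun w : Fin s → Fin 3 → ℝ => payoff F x w μ) := by
    intro μ
    unfold payoff
    apply Continuous.sub continuous_const
    apply Continuous.mul continuous_const
    apply continuous_finsetSum
    intro i _
    apply continuous_finsetSum
    intro α _
    apply Continuous.mul _ continuous_const
    exact (continuous_apply α).comp (continuous_apply i)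
  have hcμ : ∀ w : Fin s → Fin 3 → ℝ, Continuous (fun μ : Finset V → ℝ => payoff F x w μ) := by
    intro w
    unfold payoff
    apply Continuous.sub
    · apply continuous_finsetSum
      intro a _
      apply continuous_finsetSum
      intro b _
      apply continuous_finsetSum
      intro c _
      exact continuous_tm F a b c
    · apply Continuous.mul continuous_const
      apply continuous_finsetSum
      intro i _
      apply continuous_finsetSum
      intro α _
      apply Continuous.mul continuous_const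
      apply continuous_finsetSum
      intro b _
      apply continuous_finsetSum
      intro c _
      exact continuous_tm F _ b c
  obtain ⟨w₀, hw₀, μ₀, hμ₀, hsad⟩ := Sion.exists_isSaddlePointOn (X := X) (Y := Y)
    (f := fun w μ => payoff F x w μ) hXn hXc hXk
    (fun μ _ => (hcw μ).continuousOn.lowerSemicontinuousOn)
    (fun μ _ => ConvexOn.quasiconvexOn ⟨hXc, fun w _ w' _ p r _ _ hpr => by
      show payoff F x (p • w + r • w') μ ≤ p • payoff F x w μ + r • payoff F x w' μ
      rw [payoff_w F x w w' μ p r hpr]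
      simp only [smul_eq_mul]
      exact le_rfl⟩)
    hYc hYn hYk
    (fun w _ => (hcμ w).continuousOn.upperSemicontinuousOn)
    (fun w _ => ConcaveOn.quasiconcaveOn ⟨hYc, fun μ _ ν _ p r _ _ _ => by
      show p • payoff F x w μ + r • payoff F x w ν ≤ payoff F x w (p • μ + r • ν)
      rw [payoff_mu F x w μ ν p r]
      simp only [smul_eq_mul]
      exact le_rfl⟩)
  -- upper bound of the value
  have hval : ∀ μ ∈ Y, payoff F x w₀ μ ≤ ε ^ 2 * (s : ℝ) ^ 3 := by
    intro μ hμ
    -- the best response
    have hbest : ∀ i : Fin s, ∃ α : Fin 3,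
        M3 (fun α => ∑ b, ∑ c, tm F μ₀ (x i α) b c) = ∑ b, ∑ c, tm F μ₀ (x i α) b c := fun i =>
      M3_eq _
    choose α₀ hα₀ using hbest
    let w₁ : Fin s → Fin 3 → ℝ := fun i => Pi.single (α₀ i) 1
    have hw₁ : w₁ ∈ X := fun i _ => single_mem_stdSimplex ℝ (α₀ i)
    have h1 : payoff F x w₀ μ ≤ payoff F x w₁ μ₀ := hsad w₁ hw₁ μ hμ
    refine h1.trans ?_
    have hμ₀0 : ∀ e, 0 ≤ μ₀ e := fun e => (hμ₀ e (Set.mem_univ _)).1
    have hμ₀1 : ∀ e, μ₀ e ≤ 1 := fun e => (hμ₀ e (Set.mem_univ _)).2
    have h2 := hwb s hs V F h x hx μ₀ hμ₀0 hμ₀1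
    unfold S3 at h2
    unfold payoff
    have h3 : ∑ i, ∑ α, w₁ i α * ∑ b, ∑ c, tm F μ₀ (x i α) b c =
        ∑ j, M3 (fun α => ∑ b, ∑ c, tm F μ₀ (x j α) b c) := by
      apply Finset.sum_congr rfl
      intro i _
      rw [hα₀ i]
      simp [w₁, Pi.single_apply]
    rw [h3]
    linarith
  -- the weight function on V
  let w : V → ℝ := fun v => ∑ i, ∑ α, if x i α = v then w₀ i α else 0
  have hw₀0 : ∀ i α, 0 ≤ w₀ i α := fun i α => (hw₀ i (Set.mem_univ _)).1 α
  have hw₀1 : ∀ i, ∑ α, w₀ i α = 1 := fun i => (hw₀ i (Set.mem_univ _)).2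
  have hwx : ∀ i α, w (x i α) = w₀ i α := by
    intro i α
    simp only [w]
    rw [Finset.sum_eq_single i]
    · rw [Finset.sum_eq_single α]
      · rw [if_pos rfl]
      · intro β _ hβ
        rw [if_neg]
        intro h'
        have := hx.inj (a₁ := (i, β)) (a₂ := (i, α)) h'
        exact hβ (congrArg Prod.snd this)
      · intro h'
        exact absurd (mem_univ _) h'
    · intro j _ hj
      apply Finset.sum_eq_zero
      intro β _
      rw [if_neg]
      intro h'
      have := hx.inj (a₁ := (j, β)) (a₂ := (i, α)) h'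
      exact hj (congrArg Prod.fst this)
    · intro h'
      exact absurd (mem_univ _) h'
  have hwoff : ∀ v, v ∉ CV x → w v = 0 := by
    intro v hv
    simp only [w]
    apply Finset.sum_eq_zero
    intro i _
    apply Finset.sum_eq_zero
    intro α _
    rw [if_neg]
    intro h'
    exact hv (h' ▸ mem_CV x i α)
  refine ⟨w, ?_, ?_, ?_, ?_⟩
  · intro v
    exact Finset.sum_nonneg fun i _ => Finset.sum_nonneg fun α _ => by
      split_ifs
      · exact hw₀0 i α
      · exact le_rfl
  · intro v hv
    rw [hVS] at hv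
    exact hwoff v hv
  · intro e he
    obtain ⟨i, rfl⟩ := (hxP e).1 he
    have h01 : x i 0 ≠ x i 1 := by
      intro h'
      have := hx.inj (a₁ := (i, 0)) (a₂ := (i, 1)) h'
      simp at this
    have h02 : x i 0 ≠ x i 2 := by
      intro h'
      have := hx.inj (a₁ := (i, 0)) (a₂ := (i, 2)) h'
      simp at this
    have h12 : x i 1 ≠ x i 2 := by
      intro h'
      have := hx.inj (a₁ := (i, 1)) (a₂ := (i, 2)) h'
      simp at this
    rw [Finset.sum_insert (by simp [h01, h02]), Finset.sum_insert (by simp [h12]),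
      Finset.sum_singleton, hwx, hwx, hwx]
    have := hw₀1 i
    rw [Fin.sum_univ_three] at this
    linarith
  · -- the bad edges
    let ν : Finset V → ℝ := fun e => if ∑ v ∈ e, w v < 1 - ε then 1 else 0
    have hν : ν ∈ Y := by
      intro e _
      simp only [ν]
      split_ifs <;> simp
    have hval' := hval ν hν
    -- identify the payoff
    have hpay : payoff F x w₀ ν = ∑ a, ∑ b, ∑ c, tm F ν a b c * (1 - (w a + w b + w c)) := by
      unfold payoff
      have hsym := tm_sym F ν
      have e1 : ∑ i, ∑ α, w₀ i α * ∑ b, ∑ c, tm F ν (x i α) b c =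
          ∑ a, w a * ∑ b, ∑ c, tm F ν a b c := by
        have h1 := sum_CV hx (fun a => w a * ∑ b, ∑ c, tm F ν a b c)
        have h2 : ∑ a, w a * ∑ b, ∑ c, tm F ν a b c =
            ∑ a ∈ CV x, w a * ∑ b, ∑ c, tm F ν a b c := by
          symm
          apply Finset.sum_subset (subset_univ _)
          intro a _ ha
          rw [hwoff a ha, zero_mul]
        rw [h2, h1]
        simp only [hwx]
      rw [e1]
      have e2 : ∑ a, ∑ b, ∑ c, tm F ν a b c * w a = ∑ a, w a * ∑ b, ∑ c, tm F ν a b c := by
        apply Finset.sum_congr rfl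
        intro a _
        rw [Finset.mul_sum]
        apply Finset.sum_congr rfl
        intro b _
        rw [Finset.mul_sum]
        apply Finset.sum_congr rfl
        intro c _
        ring
      have e3 : ∑ a, ∑ b, ∑ c, tm F ν a b c * w b = ∑ a, w a * ∑ b, ∑ c, tm F ν a b c := by
        rw [← e2, Finset.sum_comm]
        apply Finset.sum_congr rfl
        intro a _
        apply Finset.sum_congr rfl
        intro b _
        apply Finset.sum_congr rfl
        intro c _
        rw [hsym.s12]
      have e4 : ∑ a, ∑ b, ∑ c, tm F ν a b c * w c = ∑ a, w a * ∑ b, ∑ c, tm F ν a b c := by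
        rw [← e3]
        apply Finset.sum_congr rfl
        intro a _
        rw [Finset.sum_comm]
        apply Finset.sum_congr rfl
        intro b _
        apply Finset.sum_congr rfl
        intro c _
        rw [hsym.s23]
      have e5 : ∑ a, ∑ b, ∑ c, tm F ν a b c * (1 - (w a + w b + w c)) =
          ∑ a, ∑ b, ∑ c, tm F ν a b c - (∑ a, ∑ b, ∑ c, tm F ν a b c * w a +
          ∑ a, ∑ b, ∑ c, tm F ν a b c * w b + ∑ a, ∑ b, ∑ c, tm F ν a b c * w c) := by
        simp only [← Finset.sum_add_distrib, ← Finset.sum_sub_distrib]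
        apply Finset.sum_congr rfl
        intro a _
        apply Finset.sum_congr rfl
        intro b _
        apply Finset.sum_congr rfl
        intro c _
        ring
      rw [e5, e2, e3, e4]
      ring
    have hlow : ε * ∑ a, ∑ b, ∑ c, badf F w ε a b c ≤ payoff F x w₀ ν := by
      rw [hpay, Finset.mul_sum]
      apply Finset.sum_le_sum
      intro a _
      rw [Finset.mul_sum]
      apply Finset.sum_le_sum
      intro b _
      rw [Finset.mul_sum]
      apply Finset.sum_le_sum
      intro c _
      unfold badf tm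
      by_cases hF : ({a, b, c} : Finset V) ∈ F
      · have h3 := h.three _ hF
        have hab : a ≠ b := by
          rintro rfl
          have : ({a, a, c} : Finset V).card ≤ 2 := by
            rw [Finset.insert_eq_of_mem (by simp)]
            exact Finset.card_le_two
          omega
        have hac : a ≠ c := by
          rintro rfl
          have : ({a, b, a} : Finset V).card ≤ 2 := by
            rw [Finset.insert_eq_of_mem (by simp)]
            exact Finset.card_le_two
          omega
        have hbc : b ≠ c := by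
          rintro rfl
          have : ({a, b, b} : Finset V).card ≤ 2 := by
            rw [Finset.insert_eq_of_mem (a := b) (s := {b}) (by simp)]
            exact Finset.card_le_two
          omega
        have hsum : ∑ v ∈ ({a, b, c} : Finset V), w v = w a + w b + w c := by
          rw [Finset.sum_insert (by simp [hab, hac]), Finset.sum_insert (by simp [hbc]),
            Finset.sum_singleton]
          ring
        simp only [hF, true_and, if_true, ν, hsum]
        split_ifs with hlt
        · linarith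
        · simp
      · simp [hF]
    have : ε * ∑ a, ∑ b, ∑ c, badf F w ε a b c ≤ ε * (ε * (s : ℝ) ^ 3) := by
      calc ε * ∑ a, ∑ b, ∑ c, badf F w ε a b c ≤ payoff F x w₀ ν := hlow
        _ ≤ ε ^ 2 * (s : ℝ) ^ 3 := hval'
        _ = ε * (ε * (s : ℝ) ^ 3) := by ring
    exact le_of_mul_le_mul_left this hε

end Res12
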