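import Mathlib

/-!
Second moment estimates for samples `ω : Fin q → Fin s`.
-/

namespace Res12

open Finset

theorem sum_coord (s q : ℕ) (a : Fin q) (φ : Fin s → ℝ) :
    (s : ℝ) * ∑ ω : Fin q → Fin s, φ (ω a) = (s : ℝ) ^ q * ∑ j, φ j := by
  classical
  cases q with
  | zero => exact a.elim0
  | succ q =>
    rw [← (Fin.insertNthEquiv (fun _ => Fin s) a).sum_comp]
    rw [Fintype.sum_prod_type]
    simp only [Fin.insertNthEquiv_apply, Fin.insertNth_apply_same, Finset.sum_const,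
      Finset.card_univ, Fintype.card_fun, Fintype.card_fin, nsmul_eq_mul, Nat.cast_pow]
    rw [← Finset.mul_sum]
    ring

theorem dev_sq (s q : ℕ) (f : Fin s → ℝ) (h0 : ∑ j, f j = 0) :
    (s : ℝ) * ∑ ω : Fin q → Fin s, (∑ b, f (ω b)) ^ 2 = q * (s : ℝ) ^ q * ∑ j, f j ^ 2 := by
  induction q with
  | zero => simp
  | succ q ih =>
    rw [← (Fin.consEquiv (fun _ : Fin (q + 1) => Fin s)).sum_comp]
    rw [Fintype.sum_prod_type]
    simp only [Fin.consEquiv_apply, Fin.sum_univ_succ, Fin.cons_zero, Fin.cons_succ]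
    have h1 : ∀ j : Fin s, ∑ ω : Fin q → Fin s, (f j + ∑ b, f (ω b)) ^ 2 =
        (s : ℝ) ^ q * f j ^ 2 + 2 * f j * (∑ ω : Fin q → Fin s, ∑ b, f (ω b)) +
          ∑ ω : Fin q → Fin s, (∑ b, f (ω b)) ^ 2 := by
      intro j
      have : ∀ ω : Fin q → Fin s, (f j + ∑ b, f (ω b)) ^ 2 =
          f j ^ 2 + 2 * f j * (∑ b, f (ω b)) + (∑ b, f (ω b)) ^ 2 := fun ω => by ring
      simp only [this, Finset.sum_add_distrib, Finset.sum_const, Finset.card_univ,
        Fintype.card_fun, Fintype.card_fin, nsmul_eq_mul, Nat.cast_pow, ← Finset.mul_sum]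
    simp only [h1, Finset.sum_add_distrib, ← Finset.mul_sum, ← Finset.sum_mul, h0]
    simp only [mul_zero, zero_mul, add_zero, Finset.sum_const, Finset.card_univ, Fintype.card_fin,
      nsmul_eq_mul]
    push_cast
    linear_combination (s : ℝ) * ih

theorem dev1 (s q : ℕ) (hs : 0 < s) (f : Fin s → ℝ) (C : ℝ) (h0 : ∑ j, f j = 0)
    (hC : ∀ j, |f j| ≤ C) :
    ∑ ω : Fin q → Fin s, |∑ b, f (ω b)| ≤ Real.sqrt q * C * (s : ℝ) ^ q := by
  have hs' : (0 : ℝ) < s := by exact_mod_cast hs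
  have hC0 : 0 ≤ C := le_trans (abs_nonneg _) (hC ⟨0, hs⟩)
  have h1 := dev_sq s q f h0
  have h2 : ∑ j, f j ^ 2 ≤ s * C ^ 2 := by
    calc ∑ j, f j ^ 2 ≤ ∑ _j : Fin s, C ^ 2 := by
          apply Finset.sum_le_sum
          intro j _
          rw [← sq_abs]
          exact pow_le_pow_left₀ (abs_nonneg _) (hC j) 2
      _ = s * C ^ 2 := by simp
  have h3 : ∑ ω : Fin q → Fin s, (∑ b, f (ω b)) ^ 2 ≤ q * (s : ℝ) ^ q * C ^ 2 := by
    have h4 : (s : ℝ) * ∑ ω : Fin q → Fin s, (∑ b, f (ω b)) ^ 2 ≤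
        s * (q * (s : ℝ) ^ q * C ^ 2) := by
      rw [h1]
      calc (q : ℝ) * (s : ℝ) ^ q * ∑ j, f j ^ 2 ≤ q * (s : ℝ) ^ q * (s * C ^ 2) := by
            apply mul_le_mul_of_nonneg_left h2
            positivity
        _ = s * (q * (s : ℝ) ^ q * C ^ 2) := by ring
    exact le_of_mul_le_mul_left h4 hs'
  have h5 : (∑ ω : Fin q → Fin s, |∑ b, f (ω b)|) ^ 2 ≤
      (Real.sqrt q * C * (s : ℝ) ^ q) ^ 2 := by
    have h6 := sq_sum_le_card_mul_sum_sq (s := (univ : Finset (Fin q → Fin s)))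
      (f := fun ω => |∑ b, f (ω b)|)
    simp only [sq_abs, Finset.card_univ, Fintype.card_fun, Fintype.card_fin, Nat.cast_pow] at h6
    calc (∑ ω : Fin q → Fin s, |∑ b, f (ω b)|) ^ 2 ≤ (s : ℝ) ^ q *
          ∑ ω : Fin q → Fin s, (∑ b, f (ω b)) ^ 2 := h6
      _ ≤ (s : ℝ) ^ q * (q * (s : ℝ) ^ q * C ^ 2) := by
          apply mul_le_mul_of_nonneg_left h3
          positivity
      _ = (Real.sqrt q * C * (s : ℝ) ^ q) ^ 2 := by
          rw [mul_pow, mul_pow, Real.sq_sqrt (Nat.cast_nonneg q)]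
          ring
  exact (abs_le_of_sq_le_sq' h5 (by positivity)).2

theorem dev2 (s q : ℕ) (hs : 0 < s) (h : Fin s → Fin s → ℝ) (C m : ℝ)
    (h0 : ∀ k l, 0 ≤ h k l) (hC : ∀ k l, h k l ≤ C) (hm : m * (s : ℝ) ^ 2 = ∑ k, ∑ l, h k l) :
    ∑ η : Fin q → Fin s, ∑ ζ : Fin q → Fin s, |∑ b, ∑ c, h (η b) (ζ c) - (q : ℝ) ^ 2 * m| ≤
      2 * q * Real.sqrt q * C * (s : ℝ) ^ q * (s : ℝ) ^ q := by
  have hs' : (0 : ℝ) < s := by exact_mod_cast hs
  -- row means
  set r : Fin s → ℝ := fun k => (∑ l, h k l) / s with hr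
  have hr0 : ∀ k, 0 ≤ r k := fun k => div_nonneg (Finset.sum_nonneg fun l _ => h0 k l) hs'.le
  have hrC : ∀ k, r k ≤ C := by
    intro k
    rw [hr]
    simp only
    rw [div_le_iff₀ hs']
    calc ∑ l, h k l ≤ ∑ _l : Fin s, C := Finset.sum_le_sum fun l _ => hC k l
      _ = C * s := by simp [mul_comm]
  have hsum_r : ∑ k, r k = s * m := by
    rw [hr]
    simp only
    rw [← Finset.sum_div, ← hm]
    field_simp
  have hm0 : 0 ≤ m := by
    have : 0 ≤ m * (s : ℝ) ^ 2 := by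
      rw [hm]
      exact Finset.sum_nonneg fun k _ => Finset.sum_nonneg fun l _ => h0 k l
    by_contra hneg
    push Not at hneg
    nlinarith [sq_pos_of_pos hs']
  have hmC : m ≤ C := by
    have : (s : ℝ) * m ≤ s * C := by
      rw [← hsum_r]
      calc ∑ k, r k ≤ ∑ _k : Fin s, C := Finset.sum_le_sum fun k _ => hrC k
        _ = s * C := by simp
    exact le_of_mul_le_mul_left this hs'
  -- first piece
  have hA : ∀ k : Fin s, ∑ ζ : Fin q → Fin s, |∑ c, (h k (ζ c) - r k)| ≤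
      Real.sqrt q * C * (s : ℝ) ^ q := by
    intro k
    apply dev1 s q hs (fun l => h k l - r k) C
    · rw [Finset.sum_sub_distrib]
      simp only [Finset.sum_const, Finset.card_univ, Fintype.card_fin, nsmul_eq_mul]
      rw [hr]
      simp only
      field_simp
      ring
    · intro l
      rw [abs_le]
      constructor <;> linarith [h0 k l, hC k l, hr0 k, hrC k]
  have hB : ∑ η : Fin q → Fin s, |∑ b, (r (η b) - m)| ≤ Real.sqrt q * C * (s : ℝ) ^ q := by
    apply dev1 s q hs (fun k => r k - m) C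
    · rw [Finset.sum_sub_distrib, hsum_r]
      simp
    · intro k
      rw [abs_le]
      constructor <;> linarith [hr0 k, hrC k]
  have hpt : ∀ η ζ : Fin q → Fin s, |∑ b, ∑ c, h (η b) (ζ c) - (q : ℝ) ^ 2 * m| ≤
      ∑ b, |∑ c, (h (η b) (ζ c) - r (η b))| + q * |∑ b, (r (η b) - m)| := by
    intro η ζ
    have hsplit : ∑ b, ∑ c, h (η b) (ζ c) - (q : ℝ) ^ 2 * m =
        ∑ b, ∑ c, (h (η b) (ζ c) - r (η b)) + q * ∑ b, (r (η b) - m) := by
      simp only [Finset.sum_sub_distrib, Finset.sum_const, Finset.card_univ, Fintype.card_fin,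
        nsmul_eq_mul, ← Finset.mul_sum]
      ring
    rw [hsplit]
    calc |∑ b, ∑ c, (h (η b) (ζ c) - r (η b)) + q * ∑ b, (r (η b) - m)| ≤
          |∑ b, ∑ c, (h (η b) (ζ c) - r (η b))| + |q * ∑ b, (r (η b) - m)| := abs_add_le _ _
      _ ≤ ∑ b, |∑ c, (h (η b) (ζ c) - r (η b))| + q * |∑ b, (r (η b) - m)| := by
          apply add_le_add
          · exact Finset.abs_sum_le_sum_abs _ _
          · rw [abs_mul, Nat.abs_cast]
  calc ∑ η : Fin q → Fin s, ∑ ζ : Fin q → Fin s, |∑ b, ∑ c, h (η b) (ζ c) - (q : ℝ) ^ 2 * m| ≤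
        ∑ η : Fin q → Fin s, ∑ ζ : Fin q → Fin s, (∑ b, |∑ c, (h (η b) (ζ c) - r (η b))| +
          q * |∑ b, (r (η b) - m)|) := by
        apply Finset.sum_le_sum
        intro η _
        apply Finset.sum_le_sum
        intro ζ _
        exact hpt η ζ
    _ = ∑ η : Fin q → Fin s, (∑ b, ∑ ζ : Fin q → Fin s, |∑ c, (h (η b) (ζ c) - r (η b))|) +
          (s : ℝ) ^ q * (q * ∑ η : Fin q → Fin s, |∑ b, (r (η b) - m)|) := by
        simp only [Finset.sum_add_distrib, Finset.sum_const, Finset.card_univ, Fintype.card_fun,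
          Fintype.card_fin, nsmul_eq_mul, Nat.cast_pow, ← Finset.mul_sum]
        congr 1
        apply Finset.sum_congr rfl
        intro η _
        rw [Finset.sum_comm]
    _ ≤ ∑ η : Fin q → Fin s, (∑ _b : Fin q, Real.sqrt q * C * (s : ℝ) ^ q) +
          (s : ℝ) ^ q * (q * (Real.sqrt q * C * (s : ℝ) ^ q)) := by
        apply add_le_add
        · apply Finset.sum_le_sum
          intro η _
          apply Finset.sum_le_sum
          intro b _
          exact hA (η b)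
        · apply mul_le_mul_of_nonneg_left _ (by positivity)
          exact mul_le_mul_of_nonneg_left hB (by positivity)
    _ = 2 * q * Real.sqrt q * C * (s : ℝ) ^ q * (s : ℝ) ^ q := by
        simp only [Finset.sum_const, Finset.card_univ, Fintype.card_fun,
          Fintype.card_fin, nsmul_eq_mul, Nat.cast_pow]
        ring

end Res12
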