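import Pool.Agent.Helper12.Res.Defs

/-!
# Exact bound from stability (helper2, module for MP_d365ae_co)
-/

namespace Res12

open Finset

namespace Exact

set_option linter.unusedSectionVars false

variable {V : Type} [Fintype V] [DecidableEq V]

/-- indicator of `{x,y,z} ∈ F` -/
noncomputable def ind (F : Finset (Finset V)) (x y z : V) : ℝ :=
  if ({x, y, z} : Finset V) ∈ F then 1 else 0

/-- number of ordered pairs `(y,z) ∈ Y × Z` with `{v,y,z} ∈ F` -/
noncomputable def cc (F : Finset (Finset V)) (v : V) (Y Z : Finset V) : ℝ :=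
  ∑ y ∈ Y, ∑ z ∈ Z, ind F v y z

variable {F : Finset (Finset V)} {s : ℕ}

theorem ind_nonneg (x y z : V) : 0 ≤ ind F x y z := by
  unfold ind; split_ifs <;> norm_num

theorem ind_le_one (x y z : V) : ind F x y z ≤ 1 := by
  unfold ind; split_ifs <;> norm_num

theorem ind_swap12 (x y z : V) : ind F x y z = ind F y x z := by
  unfold ind; rw [Finset.insert_comm]

theorem ind_swap23 (x y z : V) : ind F x y z = ind F x z y := by
  unfold ind; rw [Finset.pair_comm]

theorem ind_eq_zero {x y z : V} (h : ({x, y, z} : Finset V) ∉ F) : ind F x y z = 0 := if_neg h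

theorem sum_ind (v y : V) (Z : Finset V) :
    ∑ z ∈ Z, ind F v y z = ((Z.filter (fun z => z ∈ N F v y)).card : ℝ) := by
  unfold ind
  rw [Finset.sum_ite, Finset.sum_const_zero, add_zero, Finset.sum_const, nsmul_eq_mul, mul_one]
  simp [mem_N]

theorem sum_ind_le (v y : V) (Z : Finset V) :
    ∑ z ∈ Z, ind F v y z ≤ ((N F v y).card : ℝ) := by
  rw [sum_ind]
  exact_mod_cast card_le_card (fun z hz => (mem_filter.1 hz).2)

theorem cc_nonneg (v : V) (Y Z : Finset V) : 0 ≤ cc F v Y Z :=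
  sum_nonneg fun _ _ => sum_nonneg fun _ _ => ind_nonneg _ _ _

theorem cc_mono {v : V} {Y Y' Z Z' : Finset V} (hY : Y ⊆ Y') (hZ : Z ⊆ Z') :
    cc F v Y Z ≤ cc F v Y' Z' := by
  unfold cc
  refine (sum_le_sum fun y _ => ?_).trans
    (sum_le_sum_of_subset_of_nonneg hY fun y _ _ => sum_nonneg fun _ _ => ind_nonneg _ _ _)
  exact sum_le_sum_of_subset_of_nonneg hZ fun y _ _ => ind_nonneg _ _ _

theorem cc_comm (v : V) (Y Z : Finset V) : cc F v Y Z = cc F v Z Y := by
  unfold cc
  rw [sum_comm]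
  exact sum_congr rfl fun _ _ => sum_congr rfl fun _ _ => ind_swap23 _ _ _

theorem cc_union_le (v : V) (Y Y' Z : Finset V) : cc F v (Y ∪ Y') Z ≤ cc F v Y Z + cc F v Y' Z := by
  unfold cc
  have h := Finset.sum_union_inter (s₁ := Y) (s₂ := Y') (f := fun y => ∑ z ∈ Z, ind F v y z)
  have h2 : 0 ≤ ∑ y ∈ Y ∩ Y', ∑ z ∈ Z, ind F v y z :=
    sum_nonneg fun _ _ => sum_nonneg fun _ _ => ind_nonneg _ _ _
  linarith

theorem cc_le_mul (v : V) (Y Z : Finset V) {c : ℝ} (h : ∀ y ∈ Y, ∑ z ∈ Z, ind F v y z ≤ c) :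
    cc F v Y Z ≤ Y.card * c := by
  unfold cc
  calc _ ≤ ∑ _y ∈ Y, c := sum_le_sum h
    _ = Y.card * c := by rw [sum_const, nsmul_eq_mul]

theorem cc_le_three (h : Hyp F s) (v : V) (Y Z : Finset V) : cc F v Y Z ≤ Y.card * (3 * s) := by
  refine cc_le_mul v Y Z fun y _ => (sum_ind_le v y Z).trans ?_
  exact_mod_cast h.card_N_le v y

theorem pair_deg_le (h3 : ∀ e ∈ F, e.card = 3) {v y : V} (hyv : y ≠ v) :
    ((F.filter (fun e => v ∈ e ∧ y ∈ e)).card : ℝ) ≤ ∑ z ∈ univ, ind F v y z := by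
  rw [sum_ind]
  norm_cast
  have hsub : F.filter (fun e => v ∈ e ∧ y ∈ e) ⊆
      (univ.filter (fun z => z ∈ N F v y)).image (fun z => ({v, y, z} : Finset V)) := by
    intro e he
    rw [mem_filter] at he
    obtain ⟨he, hv, hy'⟩ := he
    have hc : ((e.erase v).erase y).card = 1 := by
      rw [card_erase_of_mem (mem_erase.2 ⟨hyv, hy'⟩), card_erase_of_mem hv, h3 e he]
    obtain ⟨z, hz⟩ := card_eq_one.1 hc
    have hez : e = {v, y, z} := by
      rw [← insert_erase hv, ← insert_erase (mem_erase.2 ⟨hyv, hy'⟩), hz]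
    rw [mem_image]
    refine ⟨z, ?_, hez.symm⟩
    rw [mem_filter, mem_N, ← hez]
    exact ⟨mem_univ _, he⟩
  exact (card_le_card hsub).trans card_image_le

/-- edges through `v` meeting `B ∌ v` -/
theorem meet_deg_le (h3 : ∀ e ∈ F, e.card = 3) {v : V} {B : Finset V} (hv : v ∉ B) :
    ((F.filter (fun e => v ∈ e ∧ ∃ x ∈ B, x ∈ e)).card : ℝ) ≤ cc F v B univ := by
  have h1 : F.filter (fun e => v ∈ e ∧ ∃ x ∈ B, x ∈ e) ⊆
      B.biUnion (fun x => F.filter (fun e => v ∈ e ∧ x ∈ e)) := by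
    intro e he
    rw [mem_filter] at he
    obtain ⟨he, hv, x, hx, hxe⟩ := he
    rw [mem_biUnion]
    exact ⟨x, hx, mem_filter.2 ⟨he, hv, hxe⟩⟩
  have h2 : ((F.filter (fun e => v ∈ e ∧ ∃ x ∈ B, x ∈ e)).card : ℝ) ≤
      ∑ x ∈ B, ((F.filter (fun e => v ∈ e ∧ x ∈ e)).card : ℝ) := by
    exact_mod_cast (card_le_card h1).trans card_biUnion_le
  refine h2.trans (sum_le_sum fun x hx => ?_)
  exact pair_deg_le h3 (fun hxv => hv (hxv ▸ hx))

/-- `2 deg v ≤ cc v univ univ` -/
theorem two_deg_le (h3 : ∀ e ∈ F, e.card = 3) (v : V) :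
    2 * ((F.filter (fun e => v ∈ e)).card : ℝ) ≤ cc F v univ univ := by
  have h1 : ∀ y ∈ univ.erase v, ((F.filter (fun e => v ∈ e ∧ y ∈ e)).card : ℝ) ≤
      ∑ z ∈ univ, ind F v y z := by
    intro y hy
    exact pair_deg_le h3 (mem_erase.1 hy).1
  have h2 : ∑ y ∈ univ.erase v, ((F.filter (fun e => v ∈ e ∧ y ∈ e)).card : ℝ) =
      2 * ((F.filter (fun e => v ∈ e)).card : ℝ) := by
    have h4 : ∀ y, ((F.filter (fun e => v ∈ e ∧ y ∈ e)).card : ℝ) =
        ∑ e ∈ F.filter (fun e => v ∈ e), if y ∈ e then (1 : ℝ) else 0 := by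
      intro y
      rw [sum_ite, sum_const_zero, add_zero, sum_const, nsmul_eq_mul, mul_one, filter_filter]
    simp only [h4]
    rw [sum_comm]
    have h5 : ∀ e ∈ F.filter (fun e => v ∈ e),
        (∑ y ∈ univ.erase v, if y ∈ e then (1 : ℝ) else 0) = 2 := by
      intro e he
      rw [mem_filter] at he
      rw [sum_ite, sum_const_zero, add_zero, sum_const, nsmul_eq_mul, mul_one]
      have : (univ.erase v).filter (fun y => y ∈ e) = e.erase v := by
        ext y; simp [mem_erase]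
      rw [this, card_erase_of_mem he.2, h3 e he.1]
      norm_num
    rw [sum_congr rfl h5, sum_const, nsmul_eq_mul]
    ring
  rw [← h2]
  refine (sum_le_sum h1).trans ?_
  exact sum_le_sum_of_subset_of_nonneg (erase_subset _ _)
    fun _ _ _ => sum_nonneg fun _ _ => ind_nonneg _ _ _

theorem total_le (h3 : ∀ e ∈ F, e.card = 3) :
    6 * (F.card : ℝ) ≤ ∑ v, cc F v univ univ := by
  have h1 : ∑ v, ((F.filter (fun e => v ∈ e)).card : ℝ) = 3 * (F.card : ℝ) := by
    have h4 : ∀ v, ((F.filter (fun e => v ∈ e)).card : ℝ) = ∑ e ∈ F, if v ∈ e then (1 : ℝ) else 0 := by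
      intro v
      rw [sum_ite, sum_const_zero, add_zero, sum_const, nsmul_eq_mul, mul_one]
    simp only [h4]
    rw [sum_comm]
    have h5 : ∀ e ∈ F, (∑ v, if v ∈ e then (1 : ℝ) else 0) = 3 := by
      intro e he
      rw [sum_ite, sum_const_zero, add_zero, sum_const, nsmul_eq_mul, mul_one]
      have : (univ.filter (fun y => y ∈ e)) = e := by ext y; simp
      rw [this, h3 e he]
      norm_num
    rw [sum_congr rfl h5, sum_const, nsmul_eq_mul]
    ring
  calc 6 * (F.card : ℝ) = ∑ v, 2 * ((F.filter (fun e => v ∈ e)).card : ℝ) := by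
        rw [← mul_sum, h1]; ring
    _ ≤ _ := sum_le_sum fun v _ => two_deg_le h3 v

/-! ## Consequences of stability -/

/-- the stability hypothesis -/
structure Stab (F : Finset (Finset V)) (s : ℕ) (U : Finset V) (t : ℝ) : Prop where
  hU : 3 * (s : ℝ) - t ≤ U.card
  hP : ∀ P ⊆ F, IsMatching P → P.card = s → ((U \ VS P).card : ℝ) ≤ t

variable {U : Finset V} {t : ℝ}

theorem card_VS_real (h : Hyp F s) {P : Finset (Finset V)} (hP : P ⊆ F) (hm : IsMatching P)
    (hc : P.card = s) : ((VS P).card : ℝ) = 3 * s := by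
  rw [card_VS hm (fun e he => h.three e (hP he)), hc]; push_cast; ring

theorem VS_out (h : Hyp F s) (hS : Stab F s U t) {P : Finset (Finset V)} (hP : P ⊆ F)
    (hm : IsMatching P) (hc : P.card = s) : ((VS P \ U).card : ℝ) ≤ 2 * t := by
  have h1 := card_VS_real h hP hm hc
  have h2 := hS.hP P hP hm hc
  have h3 := hS.hU
  have h4 : (((VS P \ U).card + (VS P ∩ U).card : ℕ) : ℝ) = (VS P).card := by
    rw [card_sdiff_add_card_inter]
  have h5 : (((U \ VS P).card + (U ∩ VS P).card : ℕ) : ℝ) = U.card := by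
    rw [card_sdiff_add_card_inter]
  rw [inter_comm] at h5
  push_cast at h4 h5
  linarith

theorem N_out (h : Hyp F s) (hS : Stab F s U t) (a b : V) :
    ((N F a b \ U).card : ℝ) ≤ 2 * t := by
  obtain ⟨P, hP, hm, hc, hav⟩ := h.avoid a b
  refine le_trans ?_ (VS_out h hS hP hm hc)
  exact_mod_cast card_le_card (sdiff_subset_sdiff (h.N_subset hP hm hc hav) (Subset.refl _))

theorem N_outQ (h : Hyp F s) (hS : Stab F s U t) {P : Finset (Finset V)} (hP : P ⊆ F)
    (hm : IsMatching P) (hc : P.card = s) (a b : V) :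
    ((N F a b \ VS P).card : ℝ) ≤ 3 * t := by
  obtain ⟨Q, hQ, hmQ, hcQ, hav⟩ := h.avoid a b
  have h1 := VS_out h hS hQ hmQ hcQ
  have h2 := hS.hP P hP hm hc
  have hsub : N F a b \ VS P ⊆ (VS Q \ U) ∪ (U \ VS P) := by
    intro x hx
    rw [mem_sdiff] at hx
    rw [mem_union, mem_sdiff, mem_sdiff]
    by_cases hxU : x ∈ U
    · exact Or.inr ⟨hxU, hx.2⟩
    · exact Or.inl ⟨h.N_subset hQ hmQ hcQ hav hx.1, hxU⟩
  have h3 : ((N F a b \ VS P).card : ℝ) ≤ (VS Q \ U).card + (U \ VS P).card := by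
    exact_mod_cast (card_le_card hsub).trans (card_union_le _ _)
  linarith

theorem ind_zero_of_out (h : Hyp F s) {P : Finset (Finset V)} (hP : P ⊆ F)
    (hm : IsMatching P) (hc : P.card = s) {x y z : V} (hx : x ∉ VS P) (hy : y ∉ VS P)
    (hz : z ∉ VS P) : ind F x y z = 0 := by
  apply ind_eq_zero
  intro he
  apply h.meets hP hm hc he
  rw [disjoint_left]
  intro v hv hvP
  simp only [mem_insert, mem_singleton] at hv
  rcases hv with rfl | rfl | rfl
  · exact hx hvP
  · exact hy hvP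
  · exact hz hvP

theorem sum_ind_compl_le (v y : V) (W : Finset V) :
    ∑ z ∈ Wᶜ, ind F v y z ≤ ((N F v y \ W).card : ℝ) := by
  rw [sum_ind]
  norm_cast
  refine card_le_card fun z hz => ?_
  rw [mem_filter, mem_compl] at hz
  exact mem_sdiff.2 ⟨hz.2, hz.1⟩

theorem D_le (h : Hyp F s) (hS : Stab F s U t) (v : V) :
    cc F v univ univ ≤ 9 * (s : ℝ) ^ 2 + 18 * s * t := by
  obtain ⟨P, hP, hm, hc, hav⟩ := h.avoid v v
  have hv : v ∉ VS P := by
    rw [mem_VS]; rintro ⟨e, he, hve⟩; exact (hav e he).1 hve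
  have hcard := card_VS_real h hP hm hc
  set Q := VS P with hQ
  have h1 : cc F v univ univ ≤ cc F v Q univ + cc F v Qᶜ univ := by
    have := cc_union_le (F := F) v Q Qᶜ univ
    rwa [union_compl] at this
  have h2 : cc F v Q univ ≤ cc F v Q Q + cc F v Q Qᶜ := by
    rw [cc_comm v Q univ, cc_comm v Q Q, cc_comm v Q Qᶜ]
    have := cc_union_le (F := F) v Q Qᶜ Q
    rwa [union_compl] at this
  have h3 : cc F v Qᶜ univ ≤ cc F v Qᶜ Q + cc F v Qᶜ Qᶜ := by
    rw [cc_comm v Qᶜ univ, cc_comm v Qᶜ Q, cc_comm v Qᶜ Qᶜ]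
    have := cc_union_le (F := F) v Q Qᶜ Qᶜ
    rw [union_compl, cc_comm v Qᶜ Qᶜ] at this
    rw [cc_comm v Qᶜ Qᶜ]
    exact this
  have h4 : cc F v Qᶜ Qᶜ = 0 := by
    unfold cc
    refine sum_eq_zero fun y hy => sum_eq_zero fun z hz => ?_
    exact ind_zero_of_out h hP hm hc hv (mem_compl.1 hy) (mem_compl.1 hz)
  have h5 : cc F v Q Qᶜ ≤ Q.card * (3 * t) := by
    refine cc_le_mul v Q Qᶜ fun y _ => ?_
    exact (sum_ind_compl_le v y Q).trans (N_outQ h hS hP hm hc v y)
  have h6 : cc F v Q Q ≤ Q.card * Q.card := by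
    refine cc_le_mul v Q Q fun y _ => ?_
    calc ∑ z ∈ Q, ind F v y z ≤ ∑ _z ∈ Q, (1 : ℝ) := sum_le_sum fun z _ => ind_le_one _ _ _
      _ = Q.card := by simp
  rw [hcard] at h5 h6
  rw [cc_comm v Qᶜ Q] at h3
  nlinarith

theorem O_le (h : Hyp F s) (hS : Stab F s U t) (v : V) :
    cc F v Uᶜ univ ≤ 12 * s * t := by
  obtain ⟨P, hP, hm, hc, hav⟩ := h.avoid v v
  have hv : v ∉ VS P := by
    rw [mem_VS]; rintro ⟨e, he, hve⟩; exact (hav e he).1 hve
  have hcard := card_VS_real h hP hm hc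
  have hout := VS_out h hS hP hm hc
  set Q := VS P with hQ
  have h1 : cc F v Uᶜ univ ≤ cc F v (Q \ U) univ + cc F v (Uᶜ ∩ Qᶜ) univ := by
    refine (cc_mono (F := F) (v := v) (Y' := (Q \ U) ∪ (Uᶜ ∩ Qᶜ)) ?_ (Subset.refl _)).trans
      (cc_union_le _ _ _ _)
    intro x hx
    rw [mem_union, mem_sdiff, mem_inter, mem_compl, mem_compl]
    rw [mem_compl] at hx
    by_cases hxQ : x ∈ Q
    · exact Or.inl ⟨hxQ, hx⟩
    · exact Or.inr ⟨hx, hxQ⟩
  have h2 : cc F v (Q \ U) univ ≤ (2 * t) * (3 * s) := by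
    refine (cc_le_three h v _ _).trans ?_
    exact mul_le_mul_of_nonneg_right hout (by positivity)
  have h3 : cc F v (Uᶜ ∩ Qᶜ) univ ≤ Q.card * (2 * t) := by
    have h4 : cc F v (Uᶜ ∩ Qᶜ) univ ≤ cc F v (Uᶜ ∩ Qᶜ) Q + cc F v (Uᶜ ∩ Qᶜ) Qᶜ := by
      rw [cc_comm v _ univ, cc_comm v _ Q, cc_comm v _ Qᶜ]
      have := cc_union_le (F := F) v Q Qᶜ (Uᶜ ∩ Qᶜ)
      rwa [union_compl] at this
    have h5 : cc F v (Uᶜ ∩ Qᶜ) Qᶜ = 0 := by
      unfold cc
      refine sum_eq_zero fun y hy => sum_eq_zero fun z hz => ?_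
      exact ind_zero_of_out h hP hm hc hv (mem_compl.1 (mem_inter.1 hy).2) (mem_compl.1 hz)
    have h6 : cc F v (Uᶜ ∩ Qᶜ) Q ≤ Q.card * (2 * t) := by
      rw [cc_comm]
      refine cc_le_mul v Q _ fun y _ => ?_
      refine le_trans ?_ ((sum_ind_compl_le v y U).trans (N_out h hS v y))
      exact sum_le_sum_of_subset_of_nonneg inter_subset_left fun _ _ _ => ind_nonneg _ _ _
    linarith
  rw [hcard] at h3
  nlinarith

theorem sumU_le (h : Hyp F s) (hS : Stab F s U t) (a : V) :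
    ∑ v ∈ Uᶜ, cc F v univ univ ≤ 90 * (s : ℝ) ^ 2 * t + 36 * s * t ^ 2 := by
  obtain ⟨P, hP, hm, hc, -⟩ := h.avoid a a
  have hcard := card_VS_real h hP hm hc
  have hout := VS_out h hS hP hm hc
  set Q := VS P with hQ
  -- pointwise bound
  have hpt : ∀ x y z : V, ind F x y z ≤ (if x ∈ Q then ind F x y z else 0) +
      (if y ∈ Q then ind F x y z else 0) + (if z ∈ Q then ind F x y z else 0) := by
    intro x y z
    have h0 := ind_nonneg (F := F) x y z
    by_cases hx : x ∈ Q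
    · rw [if_pos hx]; split_ifs <;> linarith
    · by_cases hy : y ∈ Q
      · rw [if_pos hy]; split_ifs <;> linarith
      · by_cases hz : z ∈ Q
        · rw [if_pos hz]; split_ifs; linarith
        · rw [ind_zero_of_out h hP hm hc hx hy hz]; simp
  have hsum : ∑ x ∈ Uᶜ, cc F x univ univ ≤
      ∑ x ∈ Uᶜ, ∑ y, ∑ z, ((if x ∈ Q then ind F x y z else 0) +
      (if y ∈ Q then ind F x y z else 0) + (if z ∈ Q then ind F x y z else 0)) := by
    unfold cc
    exact sum_le_sum fun x _ => sum_le_sum fun y _ => sum_le_sum fun z _ => hpt x y z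
  simp only [sum_add_distrib] at hsum
  -- first part
  have e1 : ∑ x ∈ Uᶜ, ∑ y, ∑ z, (if x ∈ Q then ind F x y z else 0) =
      ∑ x ∈ Q \ U, cc F x univ univ := by
    have : ∀ x, ∑ y, ∑ z, (if x ∈ Q then ind F x y z else 0) =
        if x ∈ Q then cc F x univ univ else 0 := by
      intro x; unfold cc; split_ifs <;> simp
    simp only [this]
    rw [← sum_filter]
    congr 1
    ext x; simp [and_comm]
  have e2 : ∑ x ∈ Uᶜ, ∑ y, ∑ z, (if y ∈ Q then ind F x y z else 0) =
      ∑ y ∈ Q, cc F y Uᶜ univ := by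
    rw [sum_comm]
    have : ∀ y, ∑ x ∈ Uᶜ, ∑ z, (if y ∈ Q then ind F x y z else 0) =
        if y ∈ Q then cc F y Uᶜ univ else 0 := by
      intro y; unfold cc; split_ifs
      · exact sum_congr rfl fun x _ => sum_congr rfl fun z _ => ind_swap12 _ _ _
      · simp
    simp only [this]
    rw [← sum_filter]
    congr 1
    ext x; simp
  have e3 : ∑ x ∈ Uᶜ, ∑ y, ∑ z, (if z ∈ Q then ind F x y z else 0) =
      ∑ y ∈ Q, cc F y Uᶜ univ := by
    rw [← e2]
    refine sum_congr rfl fun x _ => ?_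
    rw [sum_comm]
    refine sum_congr rfl fun z _ => sum_congr rfl fun y _ => ?_
    rw [ind_swap23]
  rw [e1, e2, e3] at hsum
  have b1 : ∑ x ∈ Q \ U, cc F x univ univ ≤ (Q \ U).card * (9 * (s : ℝ) ^ 2 + 18 * s * t) := by
    calc _ ≤ ∑ _x ∈ Q \ U, (9 * (s : ℝ) ^ 2 + 18 * s * t) := sum_le_sum fun x _ => D_le h hS x
      _ = _ := by rw [sum_const, nsmul_eq_mul]
  have b2 : ∑ y ∈ Q, cc F y Uᶜ univ ≤ Q.card * (12 * s * t) := by
    calc _ ≤ ∑ _y ∈ Q, (12 * s * t) := sum_le_sum fun x _ => O_le h hS x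
      _ = _ := by rw [sum_const, nsmul_eq_mul]
  rw [hcard] at b2
  have ht : 0 ≤ t := le_trans (by positivity) (hS.hP P hP hm hc)
  have b3 : ((Q \ U).card : ℝ) * (9 * (s : ℝ) ^ 2 + 18 * s * t) ≤
      2 * t * (9 * (s : ℝ) ^ 2 + 18 * s * t) := mul_le_mul_of_nonneg_right hout (by positivity)
  nlinarith

/-! ## Vertices of large degree -/

/-- vertices of large degree -/
noncomputable def big (F : Finset (Finset V)) (s : ℕ) (θ : ℝ) : Finset V :=
  univ.filter (fun v => (9 - θ) * (s : ℝ) ^ 2 ≤ cc F v univ univ)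

theorem mem_big {θ : ℝ} {v : V} : v ∈ big F s θ ↔ (9 - θ) * (s : ℝ) ^ 2 ≤ cc F v univ univ := by
  simp [big]

theorem U_card_le (h : Hyp F s) (hS : Stab F s U t) (a : V) : (U.card : ℝ) ≤ 3 * s + t := by
  obtain ⟨P, hP, hm, hc, -⟩ := h.avoid a a
  have h1 := card_VS_real h hP hm hc
  have h2 := hS.hP P hP hm hc
  have h5 : (((U \ VS P).card + (U ∩ VS P).card : ℕ) : ℝ) = U.card := by
    rw [card_sdiff_add_card_inter]
  have h6 : ((U ∩ VS P).card : ℝ) ≤ (VS P).card := by
    exact_mod_cast card_le_card inter_subset_right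
  push_cast at h5
  linarith

theorem t_nonneg (h : Hyp F s) (hS : Stab F s U t) (a : V) : 0 ≤ t := by
  obtain ⟨P, hP, hm, hc, -⟩ := h.avoid a a
  exact le_trans (by positivity) (hS.hP P hP hm hc)

theorem small_le (h : Hyp F s) (hS : Stab F s U t) (a : V) {θ : ℝ}
    (hF : 27 * (s : ℝ) ^ 3 ≤ 6 * F.card) :
    ((U \ big F s θ).card : ℝ) * (θ * (s : ℝ) ^ 2) ≤ 153 * (s : ℝ) ^ 2 * t + 54 * s * t ^ 2 := by
  have ht := t_nonneg h hS a
  have h1 := total_le (F := F) h.three
  have h2 := sumU_le h hS a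
  have h3 : ∑ v, cc F v univ univ = ∑ v ∈ U, cc F v univ univ + ∑ v ∈ Uᶜ, cc F v univ univ :=
    (sum_add_sum_compl _ _).symm
  have h4 : ∑ v ∈ U, cc F v univ univ ≤ ∑ v ∈ U, ((9 * (s : ℝ) ^ 2 + 18 * s * t) -
      (if v ∈ U \ big F s θ then θ * (s : ℝ) ^ 2 else 0)) := by
    refine sum_le_sum fun v hv => ?_
    have h5 := D_le h hS v
    split_ifs with h6
    · rw [mem_sdiff, mem_big, not_le] at h6
      have : 0 ≤ 18 * (s : ℝ) * t := by positivity
      nlinarith [h6.2]
    · linarith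
  rw [sum_sub_distrib, sum_const, nsmul_eq_mul] at h4
  have h7 : (∑ v ∈ U, if v ∈ U \ big F s θ then θ * (s : ℝ) ^ 2 else 0) =
      (U \ big F s θ).card * (θ * (s : ℝ) ^ 2) := by
    rw [← sum_filter, sum_const, nsmul_eq_mul]
    congr 3
    ext v; simp only [mem_filter, mem_sdiff]; tauto
  rw [h7] at h4
  have h8 := U_card_le h hS a
  have h9 : (U.card : ℝ) * (9 * (s : ℝ) ^ 2 + 18 * s * t) ≤
      (3 * s + t) * (9 * (s : ℝ) ^ 2 + 18 * s * t) :=
    mul_le_mul_of_nonneg_right h8 (by positivity)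
  nlinarith

theorem extra_le (h : Hyp F s) (hS : Stab F s U t) (a : V) {θ : ℝ} :
    ((big F s θ \ U).card : ℝ) * ((9 - θ) * (s : ℝ) ^ 2) ≤ 90 * (s : ℝ) ^ 2 * t + 36 * s * t ^ 2 := by
  refine le_trans ?_ (sumU_le h hS a)
  calc ((big F s θ \ U).card : ℝ) * ((9 - θ) * (s : ℝ) ^ 2)
      = ∑ _v ∈ big F s θ \ U, ((9 - θ) * (s : ℝ) ^ 2) := by rw [sum_const, nsmul_eq_mul]
    _ ≤ ∑ v ∈ big F s θ \ U, cc F v univ univ := by
        refine sum_le_sum fun v hv => ?_
        exact mem_big.1 (mem_sdiff.1 hv).1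
    _ ≤ _ := by
        refine sum_le_sum_of_subset_of_nonneg ?_ fun _ _ _ => cc_nonneg _ _ _
        intro v hv
        exact mem_compl.2 (mem_sdiff.1 hv).2

theorem cc_bigc_le (h : Hyp F s) (hS : Stab F s U t) {θ : ℝ} (v : V) :
    cc F v (big F s θ)ᶜ univ ≤ 12 * s * t + (U \ big F s θ).card * (3 * s) := by
  have h1 : (big F s θ)ᶜ ⊆ Uᶜ ∪ (U \ big F s θ) := by
    intro x hx
    rw [mem_compl] at hx
    rw [mem_union, mem_compl, mem_sdiff]
    by_cases hxU : x ∈ U
    · exact Or.inr ⟨hxU, hx⟩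
    · exact Or.inl hxU
  refine (cc_mono h1 (Subset.refl _)).trans ((cc_union_le _ _ _ _).trans ?_)
  have := O_le h hS v
  have h2 := cc_le_three h v (U \ big F s θ) univ
  linarith

/-! ## Nearly perfect matchings in dense parts -/

theorem exists_matching (h3 : ∀ e ∈ F, e.card = 3) {A : Finset V} {S K : ℝ} (hS : 1000 ≤ S)
    (hA : 29 / 10 * S ≤ A.card) (hK : K ≤ 6 / 100 * S ^ 2)
    (hN : ∀ w ∈ A, (((A ×ˢ A).filter (fun p => ({w, p.1, p.2} : Finset V) ∉ F)).card : ℝ) ≤ K) :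
    ∃ P ⊆ F, IsMatching P ∧ (∀ e ∈ P, e ⊆ A) ∧ A.card ≤ 3 * P.card + 2 := by
  classical
  let C : Finset (Finset (Finset V)) := F.powerset.filter (fun P => IsMatching P ∧ ∀ e ∈ P, e ⊆ A)
  have hC : C.Nonempty := ⟨∅, by simp [C, IsMatching]⟩
  obtain ⟨P, hP, hmax⟩ := exists_max_image C Finset.card hC
  simp only [C, mem_filter, mem_powerset] at hP hmax
  obtain ⟨hPF, hm, hPA⟩ := hP
  refine ⟨P, hPF, hm, hPA, ?_⟩
  by_contra hcon
  push Not at hcon
  have h3P : ∀ e ∈ P, e.card = 3 := fun e he => h3 e (hPF he)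
  have hVSA : VS P ⊆ A := by
    intro v hv
    obtain ⟨e, he, hve⟩ := mem_VS.1 hv
    exact hPA e he hve
  set R := A \ VS P with hR
  have hRc : R.card + 3 * P.card = A.card := by
    rw [hR, ← card_VS hm h3P]
    exact card_sdiff_add_card_eq_card hVSA
  have hRA : R ⊆ A := sdiff_subset
  -- no edge inside R
  have hno : ∀ x ∈ R, ∀ y ∈ R, ∀ z ∈ R, ({x, y, z} : Finset V) ∉ F := by
    intro x hx y hy z hz he
    have hd : Disjoint ({x, y, z} : Finset V) (VS P) := by
      rw [disjoint_left]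
      intro v hv hvP
      simp only [mem_insert, mem_singleton] at hv
      rcases hv with rfl | rfl | rfl
      · exact (mem_sdiff.1 hx).2 hvP
      · exact (mem_sdiff.1 hy).2 hvP
      · exact (mem_sdiff.1 hz).2 hvP
    have hne : ({x, y, z} : Finset V).Nonempty := ⟨x, by simp⟩
    have := hmax (insert {x, y, z} P) ⟨?_, hm.insert hd, ?_⟩
    · rw [card_insert_of_notMem (not_mem_of_disjoint_VS hne hd)] at this
      omega
    · intro f hf
      rw [mem_insert] at hf
      rcases hf with rfl | hf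
      · exact he
      · exact hPF hf
    · intro f hf
      rw [mem_insert] at hf
      rcases hf with rfl | hf
      · intro v hv
        simp only [mem_insert, mem_singleton] at hv
        rcases hv with rfl | rfl | rfl
        · exact hRA hx
        · exact hRA hy
        · exact hRA hz
      · exact hPA f hf
  have hR3 : 3 ≤ R.card := by omega
  obtain ⟨x, hx, y, hy, z, hz, hxy, hxz, hyz⟩ := two_lt_card.1 (show 2 < R.card by omega)
  -- R is small
  have hRK : (R.card : ℝ) ^ 2 ≤ K := by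
    refine le_trans ?_ (hN x (hRA hx))
    have : R ×ˢ R ⊆ (A ×ˢ A).filter (fun p => ({x, p.1, p.2} : Finset V) ∉ F) := by
      intro p hp
      rw [mem_product] at hp
      rw [mem_filter, mem_product]
      exact ⟨⟨hRA hp.1, hRA hp.2⟩, hno x hx _ hp.1 _ hp.2⟩
    have h1 := card_le_card this
    rw [card_product] at h1
    have h2 : ((R.card * R.card : ℕ) : ℝ) ≤
      (((A ×ˢ A).filter (fun p => ({x, p.1, p.2} : Finset V) ∉ F)).card : ℝ) := by exact_mod_cast h1
    push_cast at h2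
    nlinarith
  have hRc' : (R.card : ℝ) + 3 * P.card = A.card := by exact_mod_cast hRc
  have hPbig : S / 2 ≤ (P.card : ℝ) := by
    by_contra hlt
    push Not at hlt
    have : 14 / 10 * S ≤ (R.card : ℝ) := by linarith
    nlinarith
  -- swap
  have hswap : ∀ q ∈ P.offDiag, ∃ w ∈ ({x, y, z} : Finset V), ∃ u ∈ q.1, ∃ v ∈ q.2,
      ({w, u, v} : Finset V) ∉ F := by
    rintro ⟨e, f⟩ hq
    rw [mem_offDiag] at hq
    obtain ⟨he, hf, hef⟩ := hq
    simp only at he hf hef ⊢
    by_contra hall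
    push Not at hall
    obtain ⟨e1, e2, e3, he12, he13, he23, rfl⟩ := card_eq_three.1 (h3P e he)
    obtain ⟨f1, f2, f3, hf12, hf13, hf23, rfl⟩ := card_eq_three.1 (h3P f hf)
    have hefd := hm _ he _ hf hef
    set e : Finset V := {e1, e2, e3} with hedef
    set f : Finset V := {f1, f2, f3} with hfdef
    set P1 := (P.erase e).erase f with hP1
    have hP1P : P1 ⊆ P := (erase_subset _ _).trans (erase_subset _ _)
    have hm1 : IsMatching P1 := hm.mono hP1P
    have hc1 : P1.card + 2 = P.card := by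
      have h1 : P1.card = (P.erase e).card - 1 :=
        card_erase_of_mem (mem_erase.2 ⟨hef.symm, hf⟩)
      have h2 : (P.erase e).card = P.card - 1 := card_erase_of_mem he
      have h3' : 2 ≤ P.card := by
        have : ({e, f} : Finset (Finset V)) ⊆ P := by
          intro g hg
          simp only [mem_insert, mem_singleton] at hg
          rcases hg with rfl | rfl
          · exact he
          · exact hf
        have h4 := card_le_card this
        rwa [card_pair hef] at h4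
      omega
    -- disjointness from VS P1
    have hdx : ∀ w ∈ R, w ∉ VS P := fun w hw => (mem_sdiff.1 hw).2
    have hVP1 : ∀ w, w ∈ VS P1 → w ∈ VS P := by
      intro w hw
      obtain ⟨g, hg, hwg⟩ := mem_VS.1 hw
      exact mem_VS.2 ⟨g, hP1P hg, hwg⟩
    have heP1 : ∀ u ∈ e, u ∉ VS P1 := by
      intro u hu hu1
      obtain ⟨g, hg, hug⟩ := mem_VS.1 hu1
      rw [hP1, mem_erase, mem_erase] at hg
      exact disjoint_left.1 (hm e he g hg.2.2 (Ne.symm hg.2.1)) hu hug
    have hfP1 : ∀ u ∈ f, u ∉ VS P1 := by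
      intro u hu hu1
      obtain ⟨g, hg, hug⟩ := mem_VS.1 hu1
      rw [hP1, mem_erase, mem_erase] at hg
      exact disjoint_left.1 (hm f hf g hg.2.2 (Ne.symm hg.1)) hu hug
    have hRe : ∀ w ∈ R, ∀ u ∈ e, w ≠ u := by
      intro w hw u hu hwu
      exact hdx w hw (mem_VS.2 ⟨e, he, hwu ▸ hu⟩)
    have hRf : ∀ w ∈ R, ∀ u ∈ f, w ≠ u := by
      intro w hw u hu hwu
      exact hdx w hw (mem_VS.2 ⟨f, hf, hwu ▸ hu⟩)
    have hef' : ∀ u ∈ e, ∀ v ∈ f, u ≠ v := by
      intro u hu v hv huv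
      exact disjoint_left.1 hefd hu (huv ▸ hv)
    have m1 : e1 ∈ e := by simp [hedef]
    have m2 : e2 ∈ e := by simp [hedef]
    have m3 : e3 ∈ e := by simp [hedef]
    have n1 : f1 ∈ f := by simp [hfdef]
    have n2 : f2 ∈ f := by simp [hfdef]
    have n3 : f3 ∈ f := by simp [hfdef]
    set g1 : Finset V := {x, e1, f1} with hg1
    set g2 : Finset V := {y, e2, f2} with hg2
    set g3 : Finset V := {z, e3, f3} with hg3
    have G1 : g1 ∈ F := hall x (by simp) e1 m1 f1 n1
    have G2 : g2 ∈ F := hall y (by simp) e2 m2 f2 n2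
    have G3 : g3 ∈ F := hall z (by simp) e3 m3 f3 n3
    have k1 : Disjoint g1 (VS P1) := by
      rw [disjoint_left]; intro v hv
      simp only [hg1, mem_insert, mem_singleton] at hv
      rcases hv with rfl | rfl | rfl
      · exact fun hh => hdx _ hx (hVP1 _ hh)
      · exact heP1 _ m1
      · exact hfP1 _ n1
    have k2 : Disjoint g2 (VS P1) := by
      rw [disjoint_left]; intro v hv
      simp only [hg2, mem_insert, mem_singleton] at hv
      rcases hv with rfl | rfl | rfl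
      · exact fun hh => hdx _ hy (hVP1 _ hh)
      · exact heP1 _ m2
      · exact hfP1 _ n2
    have k3 : Disjoint g3 (VS P1) := by
      rw [disjoint_left]; intro v hv
      simp only [hg3, mem_insert, mem_singleton] at hv
      rcases hv with rfl | rfl | rfl
      · exact fun hh => hdx _ hz (hVP1 _ hh)
      · exact heP1 _ m3
      · exact hfP1 _ n3
    have k12 : Disjoint g2 g1 := by
      rw [disjoint_left]; intro v hv hv'
      simp only [hg2, hg1, mem_insert, mem_singleton] at hv hv'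
      rcases hv with rfl | rfl | rfl <;> rcases hv' with h' | h' | h'
      · exact hxy h'.symm
      · exact hRe _ hy _ m1 h'
      · exact hRf _ hy _ n1 h'
      · exact hRe _ hx _ m2 h'.symm
      · exact he12 h'.symm
      · exact hef' _ m2 _ n1 h'
      · exact hRf _ hx _ n2 h'.symm
      · exact hef' _ m1 _ n2 h'.symm
      · exact hf12 h'.symm
    have k13 : Disjoint g3 g1 := by
      rw [disjoint_left]; intro v hv hv'
      simp only [hg3, hg1, mem_insert, mem_singleton] at hv hv'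
      rcases hv with rfl | rfl | rfl <;> rcases hv' with h' | h' | h'
      · exact hxz h'.symm
      · exact hRe _ hz _ m1 h'
      · exact hRf _ hz _ n1 h'
      · exact hRe _ hx _ m3 h'.symm
      · exact he13 h'.symm
      · exact hef' _ m3 _ n1 h'
      · exact hRf _ hx _ n3 h'.symm
      · exact hef' _ m1 _ n3 h'.symm
      · exact hf13 h'.symm
    have k23 : Disjoint g3 g2 := by
      rw [disjoint_left]; intro v hv hv'
      simp only [hg3, hg2, mem_insert, mem_singleton] at hv hv'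
      rcases hv with rfl | rfl | rfl <;> rcases hv' with h' | h' | h'
      · exact hyz h'.symm
      · exact hRe _ hz _ m2 h'
      · exact hRf _ hz _ n2 h'
      · exact hRe _ hy _ m3 h'.symm
      · exact he23 h'.symm
      · exact hef' _ m3 _ n2 h'
      · exact hRf _ hy _ n3 h'.symm
      · exact hef' _ m2 _ n3 h'.symm
      · exact hf23 h'.symm
    have hVSins : ∀ (g : Finset V) (Q : Finset (Finset V)), VS (insert g Q) = g ∪ VS Q := by
      intro g Q; unfold VS; rw [biUnion_insert]; rfl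
    have d1 : Disjoint g2 (VS (insert g1 P1)) := by
      rw [hVSins, disjoint_union_right]; exact ⟨k12, k2⟩
    have d2 : Disjoint g3 (VS (insert g2 (insert g1 P1))) := by
      rw [hVSins, hVSins, disjoint_union_right, disjoint_union_right]; exact ⟨k23, k13, k3⟩
    have hmn : IsMatching (insert g3 (insert g2 (insert g1 P1))) :=
      ((hm1.insert k1).insert d1).insert d2
    have hcn : (insert g3 (insert g2 (insert g1 P1))).card = P1.card + 3 := by
      rw [card_insert_of_notMem (not_mem_of_disjoint_VS ⟨z, by simp [hg3]⟩ d2),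
        card_insert_of_notMem (not_mem_of_disjoint_VS ⟨y, by simp [hg2]⟩ d1),
        card_insert_of_notMem (not_mem_of_disjoint_VS ⟨x, by simp [hg1]⟩ k1)]
    have heA := hPA _ he
    have hfA := hPA _ hf
    have := hmax (insert g3 (insert g2 (insert g1 P1))) ⟨?_, hmn, ?_⟩
    · omega
    · intro g hg
      simp only [mem_insert] at hg
      rcases hg with rfl | rfl | rfl | hg
      · exact G3
      · exact G2
      · exact G1
      · exact hPF (hP1P hg)
    · intro g hg
      simp only [mem_insert] at hg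
      rcases hg with rfl | rfl | rfl | hg
      · intro v hv
        simp only [hg3, mem_insert, mem_singleton] at hv
        rcases hv with rfl | rfl | rfl
        · exact hRA hz
        · exact heA m3
        · exact hfA n3
      · intro v hv
        simp only [hg2, mem_insert, mem_singleton] at hv
        rcases hv with rfl | rfl | rfl
        · exact hRA hy
        · exact heA m2
        · exact hfA n2
      · intro v hv
        simp only [hg1, mem_insert, mem_singleton] at hv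
        rcases hv with rfl | rfl | rfl
        · exact hRA hx
        · exact heA m1
        · exact hfA n1
      · exact hPA g (hP1P hg)
  have : Nonempty V := ⟨x⟩
  choose! w hw u hu v hv hnot using hswap
  have hcount : P.offDiag.card ≤ ∑ c ∈ ({x, y, z} : Finset V),
      ((A ×ˢ A).filter (fun p => ({c, p.1, p.2} : Finset V) ∉ F)).card := by
    rw [← card_sigma]
    refine card_le_card_of_injOn (fun q => (⟨w q, (u q, v q)⟩ : Σ _ : V, V × V)) ?_ ?_
    · intro q hq
      have hq' := mem_offDiag.1 (mem_coe.1 hq)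
      rw [mem_coe, mem_sigma, mem_filter, mem_product]
      exact ⟨hw q hq, ⟨hPA _ hq'.1 (hu q hq), hPA _ hq'.2.1 (hv q hq)⟩, hnot q hq⟩
    · intro q hq q' hq' heq
      simp only [Sigma.mk.injEq, heq_eq_eq, Prod.mk.injEq] at heq
      obtain ⟨-, h1, h2⟩ := heq
      have hq1 := mem_offDiag.1 (mem_coe.1 hq)
      have hq2 := mem_offDiag.1 (mem_coe.1 hq')
      have a1 : q.1 = q'.1 := by
        by_contra hne
        exact disjoint_left.1 (hm _ hq1.1 _ hq2.1 hne) (hu q hq) (h1 ▸ hu q' hq')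
      have a2 : q.2 = q'.2 := by
        by_contra hne
        exact disjoint_left.1 (hm _ hq1.2.1 _ hq2.2.1 hne) (hv q hq) (h2 ▸ hv q' hq')
      exact Prod.ext a1 a2
  have hc3 : ({x, y, z} : Finset V).card ≤ 3 := card_le_three
  have hle : (P.offDiag.card : ℝ) ≤ 3 * K := by
    have h1 : (P.offDiag.card : ℝ) ≤ ∑ c ∈ ({x, y, z} : Finset V),
      (((A ×ˢ A).filter (fun p => ({c, p.1, p.2} : Finset V) ∉ F)).card : ℝ) := by
      exact_mod_cast hcount
    have h2 : ∑ c ∈ ({x, y, z} : Finset V),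
      (((A ×ˢ A).filter (fun p => ({c, p.1, p.2} : Finset V) ∉ F)).card : ℝ) ≤
        ∑ _c ∈ ({x, y, z} : Finset V), K := by
      refine sum_le_sum fun c hc => hN c ?_
      simp only [mem_insert, mem_singleton] at hc
      rcases hc with rfl | rfl | rfl
      · exact hRA hx
      · exact hRA hy
      · exact hRA hz
    rw [sum_const, nsmul_eq_mul] at h2
    have hK0 : 0 ≤ K := le_trans (by positivity) (hN x (hRA hx))
    have h3 : ((({x, y, z} : Finset V).card : ℕ) : ℝ) * K ≤ 3 * K :=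
      mul_le_mul_of_nonneg_right (by exact_mod_cast hc3) hK0
    linarith
  rw [offDiag_card] at hle
  have h4 : ((P.card * P.card - P.card : ℕ) : ℝ) = (P.card : ℝ) ^ 2 - P.card := by
    rw [Nat.cast_sub (Nat.le_mul_self _)]
    push_cast; ring
  rw [h4] at hle
  nlinarith

/-! ## The exact bound -/

theorem choose_add_ge (a r : ℕ) : a.choose 3 + r * a.choose 2 ≤ (a + r).choose 3 := by
  induction r with
  | zero => simp
  | succ r ih =>
    have h1 : (a + (r + 1)).choose 3 = (a + r).choose 2 + (a + r).choose 3 :=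
      Nat.choose_succ_succ (a + r) 2
    have h2 : a.choose 2 ≤ (a + r).choose 2 := Nat.choose_le_choose 2 (Nat.le_add_right a r)
    rw [h1]
    nlinarith

theorem choose_three_real (n : ℕ) : 6 * ((n.choose 3 : ℕ) : ℝ) = n * (n - 1) * (n - 2) := by
  induction n with
  | zero => simp
  | succ n ih =>
    have h1 : (n + 1).choose 3 = n.choose 2 + n.choose 3 := Nat.choose_succ_succ n 2
    have h2 := Nat.cast_choose_two ℝ n
    rw [h1]
    push_cast
    rw [h2]
    linarith

/-- numerical consequences -/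
structure Num (F : Finset (Finset V)) (s : ℕ) (A : Finset V) : Prop where
  lower : (29998 / 10000) * (s : ℝ) ≤ A.card
  upper : (A.card : ℝ) ^ 2 ≤ (90001 / 10000) * (s : ℝ) ^ 2
  big : ∀ v ∈ A, (898 / 100) * (s : ℝ) ^ 2 ≤ cc F v univ univ
  small : ∀ v ∉ A, cc F v univ univ ≤ (898 / 100) * (s : ℝ) ^ 2
  out : ∀ v, cc F v Aᶜ univ ≤ (32 / 100000) * (s : ℝ) ^ 2

theorem num_of_stab (h : Hyp F s) (hS : Stab F s U (s / 10 ^ 8)) (a : V)
    (hs : 1000 ≤ s) (hF : 27 * (s : ℝ) ^ 3 ≤ 6 * F.card) :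
    Num F s (big F s (1 / 50)) := by
  have hs' : (1000 : ℝ) ≤ s := by exact_mod_cast hs
  have hs0 : (0 : ℝ) < s := by linarith
  have h1 := small_le (θ := 1 / 50) h hS a hF
  have h2 := extra_le (θ := 1 / 50) h hS a
  have h3 := U_card_le h hS a
  have hb : ((U \ big F s (1 / 50)).card : ℝ) ≤ (104 / 1000000) * s := by
    have h4 : ((U \ big F s (1 / 50)).card : ℝ) * (s : ℝ) ^ 2 ≤ (104 / 1000000) * s * (s : ℝ) ^ 2 := by
      have : 0 ≤ (s : ℝ) ^ 3 := by positivity
      nlinarith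
    exact le_of_mul_le_mul_right h4 (by positivity)
  have he : ((big F s (1 / 50) \ U).card : ℝ) ≤ (1 / 1000000) * s := by
    have h4 : ((big F s (1 / 50) \ U).card : ℝ) * (s : ℝ) ^ 2 ≤ (1 / 1000000) * s * (s : ℝ) ^ 2 := by
      have : 0 ≤ (s : ℝ) ^ 3 := by positivity
      nlinarith
    exact le_of_mul_le_mul_right h4 (by positivity)
  have hA1 : (U.card : ℝ) ≤ (big F s (1 / 50)).card + (U \ big F s (1 / 50)).card := by
    have := card_le_card_sdiff_add_card (s := U) (t := big F s (1 / 50))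
    have h5 : (U.card : ℝ) ≤ (((U \ big F s (1 / 50)).card + (big F s (1 / 50)).card : ℕ) : ℝ) := by
      exact_mod_cast this
    push_cast at h5
    linarith
  have hA2 : ((big F s (1 / 50)).card : ℝ) ≤ U.card + (big F s (1 / 50) \ U).card := by
    have := card_le_card_sdiff_add_card (s := big F s (1 / 50)) (t := U)
    have h5 : ((big F s (1 / 50)).card : ℝ) ≤ (((big F s (1 / 50) \ U).card + U.card : ℕ) : ℝ) := by
      exact_mod_cast this
    push_cast at h5
    linarith
  have hUl := hS.hU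
  refine ⟨?_, ?_, ?_, ?_, ?_⟩
  · linarith
  · have h6 : ((big F s (1 / 50)).card : ℝ) ≤ (3 + 2 / 1000000) * s := by linarith
    have h7 : (0 : ℝ) ≤ (big F s (1 / 50)).card := by positivity
    calc ((big F s (1 / 50)).card : ℝ) ^ 2 ≤ ((3 + 2 / 1000000) * s) ^ 2 :=
          pow_le_pow_left₀ h7 h6 2
      _ ≤ _ := by nlinarith [sq_nonneg (s : ℝ)]
  · intro v hv
    have := mem_big.1 hv
    linarith
  · intro v hv
    rw [mem_big, not_le] at hv
    linarith
  · intro v
    have h8 := cc_bigc_le (θ := 1 / 50) h hS v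
    have h9 : ((U \ big F s (1 / 50)).card : ℝ) * (3 * s) ≤ (104 / 1000000) * s * (3 * s) :=
      mul_le_mul_of_nonneg_right hb (by positivity)
    nlinarith [sq_nonneg (s : ℝ)]

theorem inner_matching (h : Hyp F s) {A : Finset V} (hN : Num F s A) (hs : 1000 ≤ s)
    {A' : Finset V} (hA' : A' ⊆ A) (hd : ((A \ A').card : ℝ) ≤ 6 / 1000 * s) :
    ∃ P ⊆ F, IsMatching P ∧ (∀ e ∈ P, e ⊆ A') ∧ A'.card ≤ 3 * P.card + 2 := by
  have hs' : (1000 : ℝ) ≤ s := by exact_mod_cast hs
  have hc : (((A \ A').card + A'.card : ℕ) : ℝ) = A.card := by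
    exact_mod_cast card_sdiff_add_card_eq_card hA'
  push_cast at hc
  have hl := hN.lower
  refine exists_matching h.three (S := s) (K := 6 / 100 * (s : ℝ) ^ 2) hs' (by linarith) le_rfl ?_
  intro w hw
  have h1 : ((((A' ×ˢ A').filter (fun p => ({w, p.1, p.2} : Finset V) ∉ F)).card : ℕ) : ℝ) +
      cc F w A' A' = (A'.card : ℝ) ^ 2 := by
    have h2 : cc F w A' A' =
        (((A' ×ˢ A').filter (fun p => ({w, p.1, p.2} : Finset V) ∈ F)).card : ℝ) := by
      unfold cc ind
      rw [← sum_product', sum_ite, sum_const_zero, add_zero, sum_const, nsmul_eq_mul, mul_one]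
    rw [h2]
    have h3 := card_filter_add_card_filter_not (s := A' ×ˢ A')
      (fun p => ({w, p.1, p.2} : Finset V) ∈ F)
    rw [card_product] at h3
    have h4 : ((((A' ×ˢ A').filter (fun p => ({w, p.1, p.2} : Finset V) ∈ F)).card +
      ((A' ×ˢ A').filter (fun p => ({w, p.1, p.2} : Finset V) ∉ F)).card : ℕ) : ℝ) =
        ((A'.card * A'.card : ℕ) : ℝ) := by exact_mod_cast h3
    push_cast at h4
    nlinarith
  have hbig := hN.big w (hA' hw)
  have h5 : cc F w univ univ ≤ cc F w A' A' + 2 * cc F w A'ᶜ univ := by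
    have a1 : cc F w univ univ ≤ cc F w A' univ + cc F w A'ᶜ univ := by
      have := cc_union_le (F := F) w A' A'ᶜ univ
      rwa [union_compl] at this
    have a2 : cc F w A' univ ≤ cc F w A' A' + cc F w A'ᶜ univ := by
      rw [cc_comm w A' univ]
      have := cc_union_le (F := F) w A' A'ᶜ A'
      rw [union_compl] at this
      have a3 : cc F w A'ᶜ A' ≤ cc F w A'ᶜ univ := cc_mono (Subset.refl _) (subset_univ _)
      linarith
    linarith
  have h6 : cc F w A'ᶜ univ ≤ cc F w Aᶜ univ + cc F w (A \ A') univ := by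
    refine le_trans (cc_mono (F := F) (Y' := Aᶜ ∪ (A \ A')) ?_ (Subset.refl _))
      (cc_union_le _ _ _ _)
    intro x hx
    rw [mem_compl] at hx
    rw [mem_union, mem_compl, mem_sdiff]
    by_cases hxA : x ∈ A
    · exact Or.inr ⟨hxA, hx⟩
    · exact Or.inl hxA
  have h7 := hN.out w
  have h8 : cc F w (A \ A') univ ≤ 6 / 1000 * s * (3 * s) :=
    (cc_le_three h w _ _).trans (mul_le_mul_of_nonneg_right hd (by positivity))
  have h9 : (A'.card : ℝ) ^ 2 ≤ (90001 / 10000) * (s : ℝ) ^ 2 := by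
    refine le_trans ?_ hN.upper
    exact pow_le_pow_left₀ (by positivity) (by exact_mod_cast card_le_card hA') 2
  nlinarith

theorem card_VS_inter {P : Finset (Finset V)} (hm : IsMatching P) (B : Finset V) :
    (VS P ∩ B).card = ∑ e ∈ P, (e ∩ B).card := by
  unfold VS
  rw [biUnion_inter, card_biUnion]
  · rfl
  · intro e he f hf hef
    exact (hm e he f hf hef).mono inter_subset_left inter_subset_left

theorem outer_matching (h : Hyp F s) {A : Finset V} (hN : Num F s A) (hs : 1000 ≤ s)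
    {P : Finset (Finset V)} (hP : P ⊆ F) (hm : IsMatching P)
    (hB : ∀ e ∈ P, ∃ x ∈ Aᶜ, x ∈ e) (hc : (P.card : ℝ) ≤ 3 / 1000 * s) :
    P.card ≤ (VS P ∩ Aᶜ).card ∧ (VS P ∩ A).card + (VS P ∩ Aᶜ).card = 3 * P.card ∧
      (VS P ∩ Aᶜ).card + A.card ≤ 3 * s + 2 := by
  have h3P : ∀ e ∈ P, e.card = 3 := fun e he => h.three e (hP he)
  have h1 : P.card ≤ (VS P ∩ Aᶜ).card := by
    rw [card_VS_inter hm, card_eq_sum_ones]
    refine sum_le_sum fun e he => ?_
    obtain ⟨x, hx, hxe⟩ := hB e he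
    exact card_pos.2 ⟨x, mem_inter.2 ⟨hxe, hx⟩⟩
  have h2 : (VS P ∩ A).card + (VS P ∩ Aᶜ).card = 3 * P.card := by
    rw [← card_VS hm h3P, ← sdiff_eq_inter_compl]
    exact card_inter_add_card_sdiff _ _
  refine ⟨h1, h2, ?_⟩
  have hd : ((A \ (A \ VS P)).card : ℝ) ≤ 6 / 1000 * s := by
    have h4 : A \ (A \ VS P) = VS P ∩ A := by
      rw [sdiff_sdiff_right_self]
      ext x
      simp [and_comm]
    rw [h4]
    have h5 : (VS P ∩ A).card ≤ 2 * P.card := by omega
    have h6 : ((VS P ∩ A).card : ℝ) ≤ 2 * P.card := by exact_mod_cast h5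
    linarith
  obtain ⟨P2, hP2, hm2, hPA2, hc2⟩ := inner_matching h hN hs (sdiff_subset (s := A) (t := VS P)) hd
  have hdis : ∀ e ∈ P, ∀ f ∈ P2, Disjoint e f := by
    intro e he f hf
    rw [disjoint_left]
    intro v hve hvf
    exact (mem_sdiff.1 (hPA2 f hf hvf)).2 (mem_VS.2 ⟨e, he, hve⟩)
  have hmU : IsMatching (P ∪ P2) := by
    intro e he f hf hef
    rw [mem_union] at he hf
    rcases he with he | he <;> rcases hf with hf | hf
    · exact hm e he f hf hef
    · exact hdis e he f hf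
    · exact (hdis f hf e he).symm
    · exact hm2 e he f hf hef
  have hdPP : Disjoint P P2 := by
    rw [disjoint_left]
    intro e he he2
    have h4 := hdis e he e he2
    rw [disjoint_self] at h4
    have h5 := h3P e he
    rw [h4] at h5
    simp at h5
  have h7 := h.le (P ∪ P2) (union_subset hP hP2) hmU
  rw [card_union_of_disjoint hdPP] at h7
  have h8 : (A \ VS P).card + (VS P ∩ A).card = A.card := by
    rw [inter_comm]; exact card_sdiff_add_card_inter _ _
  omega

end Exact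

open Exact

theorem exact_of_stab : ∃ η : ℝ, 0 < η ∧ ∃ s₀ : ℕ, ∀ s ≥ s₀, ∀ (V : Type) [Fintype V]
    [DecidableEq V] (F : Finset (Finset V)), Hyp F s →
    (∃ U : Finset V, (3 - η) * s ≤ (U.card : ℝ) ∧
      ∀ P ⊆ F, IsMatching P → P.card = s → ((U \ VS P).card : ℝ) ≤ η * s) →
    F.card ≤ (3 * s + 2).choose 3 := by
  classical
  refine ⟨1 / 10 ^ 8, by norm_num, 10000, ?_⟩
  intro s hs V _ _ F h hU
  obtain ⟨U, hU1, hU2⟩ := hU
  by_contra hcon
  push Not at hcon
  have hs1 : 1000 ≤ s := by omega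
  have hsr : (10000 : ℝ) ≤ s := by exact_mod_cast hs
  have hS : Stab F s U ((s : ℝ) / 10 ^ 8) := by
    refine ⟨by linarith, fun P hP hm hc => ?_⟩
    have := hU2 P hP hm hc
    linarith
  -- a vertex
  have hFne : F.Nonempty := by
    rw [← card_pos]; omega
  obtain ⟨e0, he0⟩ := hFne
  obtain ⟨a, -⟩ : e0.Nonempty := by
    rw [← card_pos, h.three e0 he0]; norm_num
  have hFbig : 27 * (s : ℝ) ^ 3 ≤ 6 * F.card := by
    have h1 := choose_three_real (3 * s + 2)
    have h2 : (((3 * s + 2).choose 3 : ℕ) : ℝ) ≤ F.card := by exact_mod_cast hcon.le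
    push_cast at h1
    have h3 : 0 ≤ (s : ℝ) ^ 2 := by positivity
    nlinarith
  have hN := num_of_stab h hS a hs1 hFbig
  set A := Exact.big F s (1 / 50) with hA
  -- |A| ≤ 3s+2
  have hAle : A.card ≤ 3 * s + 2 := by
    obtain ⟨P, hP, hm, -, hc⟩ := inner_matching h hN hs1 (Subset.refl A) (by simp)
    have := h.le P hP hm
    omega
  -- the family of edges meeting the complement of `A`
  set Γ := F.filter (fun e => ∃ x ∈ Aᶜ, x ∈ e) with hΓ
  have hlow := hN.lower
  have hsmall : ∀ P ⊆ Γ, IsMatching P → (P.card : ℝ) ≤ 3 / 1000 * s := by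
    intro P hP hm
    by_contra hlt
    push Not at hlt
    obtain ⟨P', hP', hc'⟩ := exists_subset_card_eq (s := P) (n := ⌊3 / 1000 * (s : ℝ)⌋₊) (by
      have := Nat.floor_le (a := 3 / 1000 * (s : ℝ)) (by positivity)
      exact_mod_cast this.trans hlt.le)
    have hfl := Nat.floor_le (a := 3 / 1000 * (s : ℝ)) (by positivity)
    have hfl2 := Nat.lt_floor_add_one (3 / 1000 * (s : ℝ))
    have h1 := outer_matching h hN hs1 (P := P')
      (fun e he => (mem_filter.1 (hP (hP' he))).1) (hm.mono hP')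
      (fun e he => (mem_filter.1 (hP (hP' he))).2) (by rw [hc']; exact hfl)
    have h2 : P'.card + A.card ≤ 3 * s + 2 := by omega
    have h3 : (P'.card : ℝ) + A.card ≤ 3 * s + 2 := by exact_mod_cast h2
    rw [hc'] at h3
    linarith
  let C : Finset (Finset (Finset V)) := Γ.powerset.filter (fun P => IsMatching P)
  have hC : C.Nonempty := ⟨∅, by simp [C, IsMatching]⟩
  obtain ⟨P, hP, hmax⟩ := exists_max_image C Finset.card hC
  simp only [C, mem_filter, mem_powerset] at hP hmax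
  obtain ⟨hPΓ, hm⟩ := hP
  have hPF : P ⊆ F := hPΓ.trans (filter_subset _ _)
  obtain ⟨k1, k2, k3⟩ := outer_matching h hN hs1 hPF hm
    (fun e he => (mem_filter.1 (hPΓ he)).2) (hsmall P hPΓ hm)
  obtain ⟨r, hr⟩ : ∃ r, A.card + r = 3 * s + 2 := ⟨3 * s + 2 - A.card, by omega⟩
  have hPr : P.card ≤ r := by omega
  have hBr : (VS P ∩ Aᶜ).card ≤ r := by omega
  have hAr : (VS P ∩ A).card ≤ 2 * r := by omega
  have hmeet : ∀ e ∈ Γ, ∃ v ∈ VS P, v ∈ e := by
    intro e he
    by_contra hno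
    push Not at hno
    have heF := (mem_filter.1 he).1
    have hd : Disjoint e (VS P) := by
      rw [disjoint_left]; intro v hv hvP; exact hno v hvP hv
    have hne : e.Nonempty := by
      rw [← card_pos, h.three e heF]; norm_num
    have := hmax (insert e P) ⟨by
      intro f hf
      rw [mem_insert] at hf
      rcases hf with rfl | hf
      · exact he
      · exact hPΓ hf, hm.insert hd⟩
    rw [card_insert_of_notMem (not_mem_of_disjoint_VS hne hd)] at this
    omega
  -- count Γ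
  have hΓsub : Γ ⊆ (VS P ∩ Aᶜ).biUnion (fun v => F.filter (fun e => v ∈ e)) ∪
      (VS P ∩ A).biUnion (fun v => F.filter (fun e => v ∈ e ∧ ∃ x ∈ Aᶜ, x ∈ e)) := by
    intro e he
    obtain ⟨v, hv, hve⟩ := hmeet e he
    have he' := mem_filter.1 he
    rw [mem_union, mem_biUnion, mem_biUnion]
    by_cases hvA : v ∈ A
    · exact Or.inr ⟨v, mem_inter.2 ⟨hv, hvA⟩, mem_filter.2 ⟨he'.1, hve, he'.2⟩⟩
    · exact Or.inl ⟨v, mem_inter.2 ⟨hv, mem_compl.2 hvA⟩, mem_filter.2 ⟨he'.1, hve⟩⟩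
  have hΓc : (Γ.card : ℝ) ≤ ∑ v ∈ VS P ∩ Aᶜ, ((F.filter (fun e => v ∈ e)).card : ℝ) +
      ∑ v ∈ VS P ∩ A, ((F.filter (fun e => v ∈ e ∧ ∃ x ∈ Aᶜ, x ∈ e)).card : ℝ) := by
    have := (card_le_card hΓsub).trans ((card_union_le _ _).trans
      (add_le_add card_biUnion_le card_biUnion_le))
    exact_mod_cast this
  have c1 : ∑ v ∈ VS P ∩ Aᶜ, ((F.filter (fun e => v ∈ e)).card : ℝ) ≤
      r * (449 / 100 * (s : ℝ) ^ 2) := by
    calc _ ≤ ∑ _v ∈ VS P ∩ Aᶜ, (449 / 100 * (s : ℝ) ^ 2) := by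
          refine sum_le_sum fun v hv => ?_
          have h1 := two_deg_le (F := F) h.three v
          have h2 := hN.small v (mem_compl.1 (mem_inter.1 hv).2)
          linarith
      _ = ((VS P ∩ Aᶜ).card : ℝ) * (449 / 100 * (s : ℝ) ^ 2) := by rw [sum_const, nsmul_eq_mul]
      _ ≤ _ := mul_le_mul_of_nonneg_right (by exact_mod_cast hBr) (by positivity)
  have c2 : ∑ v ∈ VS P ∩ A, ((F.filter (fun e => v ∈ e ∧ ∃ x ∈ Aᶜ, x ∈ e)).card : ℝ) ≤
      (2 * r) * (32 / 100000 * (s : ℝ) ^ 2) := by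
    calc _ ≤ ∑ _v ∈ VS P ∩ A, (32 / 100000 * (s : ℝ) ^ 2) := by
          refine sum_le_sum fun v hv => ?_
          have h1 := meet_deg_le (F := F) h.three (v := v) (B := Aᶜ)
            (fun hh => (mem_compl.1 hh) (mem_inter.1 hv).2)
          exact h1.trans (hN.out v)
      _ = ((VS P ∩ A).card : ℝ) * (32 / 100000 * (s : ℝ) ^ 2) := by rw [sum_const, nsmul_eq_mul]
      _ ≤ _ := mul_le_mul_of_nonneg_right (by exact_mod_cast hAr) (by positivity)
  -- count F
  have hFc : F.card ≤ A.card.choose 3 + Γ.card := by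
    have h1 := card_filter_add_card_filter_not (s := F) (fun e => ∃ x ∈ Aᶜ, x ∈ e)
    have h2 : (F.filter (fun e => ¬ ∃ x ∈ Aᶜ, x ∈ e)).card ≤ A.card.choose 3 := by
      rw [← card_powersetCard]
      refine card_le_card fun e he => ?_
      rw [mem_filter] at he
      rw [mem_powersetCard]
      refine ⟨fun x hx => ?_, h.three e he.1⟩
      by_contra hxA
      exact he.2 ⟨x, mem_compl.2 hxA, hx⟩
    rw [← h1]
    have : Γ.card = (F.filter (fun e => ∃ x ∈ Aᶜ, x ∈ e)).card := rfl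
    omega
  have hch := choose_add_ge A.card r
  rw [hr] at hch
  have hch' : ((A.card.choose 3 : ℕ) : ℝ) + r * ((A.card.choose 2 : ℕ) : ℝ) ≤
      (((3 * s + 2).choose 3 : ℕ) : ℝ) := by exact_mod_cast hch
  have hFc' : (F.card : ℝ) ≤ ((A.card.choose 3 : ℕ) : ℝ) + Γ.card := by exact_mod_cast hFc
  have hcon' : (((3 * s + 2).choose 3 : ℕ) : ℝ) < F.card := by exact_mod_cast hcon
  have h2c : (4491 / 1000) * (s : ℝ) ^ 2 ≤ ((A.card.choose 2 : ℕ) : ℝ) := by
    rw [Nat.cast_choose_two]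
    nlinarith
  have hr0 : (0 : ℝ) ≤ r := by positivity
  have hfin : (r : ℝ) * ((4491 / 1000) * (s : ℝ) ^ 2) ≤ r * ((A.card.choose 2 : ℕ) : ℝ) :=
    mul_le_mul_of_nonneg_left h2c hr0
  have hlast : (r : ℝ) * (449 / 100 * (s : ℝ) ^ 2) + (2 * r) * (32 / 100000 * (s : ℝ) ^ 2) ≤
      (r : ℝ) * ((4491 / 1000) * (s : ℝ) ^ 2) := by
    have : 0 ≤ (r : ℝ) * (s : ℝ) ^ 2 := by positivity
    nlinarith
  linarith

end Res12
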