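import Pool.Agent.Helper12.Res.Stab3

/-!
Second stage: the number of high degree vertices is close to `3 s`; the stability theorem.
-/

namespace Res12

open Finset

set_option linter.unusedSectionVars false

variable {V : Type} [Fintype V] [DecidableEq V]

/-- every edge is counted six times -/
theorem six_card_le {F : Finset (Finset V)} (h3 : ∀ e ∈ F, e.card = 3) :
    6 * (F.card : ℝ) ≤ S3 (tt F) univ univ univ := by
  classical
  have h1 : S3 (tt F) univ univ univ =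
      ((univ.filter (fun p : V × V × V => ({p.1, p.2.1, p.2.2} : Finset V) ∈ F)).card : ℝ) := by
    unfold S3 tt tm
    rw [Finset.card_filter]
    push_cast
    rw [Fintype.sum_prod_type]
    apply Finset.sum_congr rfl
    intro a _
    rw [Fintype.sum_prod_type]
  have h2 : 6 * F.card ≤
      (univ.filter (fun p : V × V × V => ({p.1, p.2.1, p.2.2} : Finset V) ∈ F)).card := by
    have hmaps : ∀ p ∈ univ.filter (fun p : V × V × V => ({p.1, p.2.1, p.2.2} : Finset V) ∈ F),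
        (fun p : V × V × V => ({p.1, p.2.1, p.2.2} : Finset V)) p ∈ F := by
      intro p hp
      exact (mem_filter.1 hp).2
    rw [Finset.card_eq_sum_card_fiberwise (f := fun p : V × V × V =>
      ({p.1, p.2.1, p.2.2} : Finset V)) (t := F) hmaps]
    have h4 : ∀ e ∈ F, 6 ≤ ((univ.filter (fun p : V × V × V =>
        ({p.1, p.2.1, p.2.2} : Finset V) ∈ F)).filter
          (fun p => ({p.1, p.2.1, p.2.2} : Finset V) = e)).card := by
      intro e he
      obtain ⟨x, y, z, hxy, hxz, hyz, rfl⟩ := Finset.card_eq_three.1 (h3 e he)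
      have hsub : ({(x, y, z), (x, z, y), (y, x, z), (y, z, x), (z, x, y), (z, y, x)} :
          Finset (V × V × V)) ⊆ ((univ.filter (fun p : V × V × V =>
        ({p.1, p.2.1, p.2.2} : Finset V) ∈ F)).filter
          (fun p => ({p.1, p.2.1, p.2.2} : Finset V) = {x, y, z})) := by
        intro p hp
        simp only [mem_insert, mem_singleton] at hp
        have key : ({p.1, p.2.1, p.2.2} : Finset V) = {x, y, z} := by
          rcases hp with rfl | rfl | rfl | rfl | rfl | rfl <;>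
          · ext t
            simp only [mem_insert, mem_singleton] <;> tauto
        rw [mem_filter, mem_filter]
        refine ⟨⟨mem_univ _, ?_⟩, key⟩
        rw [key]
        exact he
      refine le_trans ?_ (card_le_card hsub)
      have hxy' := hxy.symm
      have hxz' := hxz.symm
      have hyz' := hyz.symm
      rw [card_insert_of_notMem, card_insert_of_notMem, card_insert_of_notMem,
        card_insert_of_notMem, card_insert_of_notMem, card_singleton] <;>
      simp only [mem_insert, mem_singleton, Prod.mk.injEq, not_or, not_and] <;> tauto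
    calc 6 * F.card = ∑ _e ∈ F, 6 := by rw [Finset.sum_const, smul_eq_mul, mul_comm]
      _ ≤ _ := Finset.sum_le_sum h4
  rw [h1]
  exact_mod_cast h2

namespace St

variable {F : Finset (Finset V)} {s : ℕ} {δ : ℝ} {U : Finset V} {M : Finset (Finset V)}
  {w : V → ℝ}

/-- a sharper bound for the links of light vertices -/
theorem ell_le_light (H : St F s δ U M w) {a : V} (ha : w a ≤ 2 / 3) :
    ell F U a ≤ 7 * Om U w * cS s δ U + bad F w δ a := by
  have hδ := H.hδ
  have hδ1 := H.hδ1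
  have hδ2 : δ ^ 2 ≤ 1 / 10000 := by nlinarith
  have hpt : ∀ b c, tt F a b c ≤ 7 / 2 * (w b * tt F a b c + w c * tt F a b c) +
      badf F w (δ ^ 2) a b c := by
    intro b c
    unfold badf
    by_cases hF : ({a, b, c} : Finset V) ∈ F
    · have h1 : tt F a b c = 1 := by
        unfold tt tm
        rw [if_pos hF]
      rw [h1]
      by_cases hlt : w a + w b + w c < 1 - δ ^ 2
      · rw [if_pos ⟨hF, hlt⟩]
        linarith [H.w0 b, H.w0 c]
      · rw [if_neg (fun hh => hlt hh.2)]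
        linarith
    · have h1 : tt F a b c = 0 := by
        unfold tt tm
        rw [if_neg hF]
      rw [h1, if_neg (fun hh => hF hh.1)]
      simp
  have h1 : ell F U a ≤ ∑ b ∈ Uᶜ, ∑ c ∈ Uᶜ, (7 / 2 * (w b * tt F a b c + w c * tt F a b c) +
      badf F w (δ ^ 2) a b c) := by
    unfold ell
    exact Finset.sum_le_sum fun b _ => Finset.sum_le_sum fun c _ => hpt b c
  have e1 : ∑ b ∈ Uᶜ, ∑ c ∈ Uᶜ, w c * tt F a b c = ∑ b ∈ Uᶜ, ∑ c ∈ Uᶜ, w b * tt F a b c := by
    rw [Finset.sum_comm]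
    apply Finset.sum_congr rfl
    intro b _
    apply Finset.sum_congr rfl
    intro c _
    rw [(tt_sym F).s23]
  have e2 : ∑ b ∈ Uᶜ, ∑ c ∈ Uᶜ, w b * tt F a b c ≤ Om U w * cS s δ U := by
    unfold Om
    rw [Finset.sum_mul]
    apply Finset.sum_le_sum
    intro b _
    rw [← Finset.mul_sum, sum_tt_on_compl]
    exact mul_le_mul_of_nonneg_left (H.tau_le a b) (H.w0 b)
  have e3 : ∑ b ∈ Uᶜ, ∑ c ∈ Uᶜ, badf F w (δ ^ 2) a b c ≤ bad F w δ a := by
    unfold bad
    calc ∑ b ∈ Uᶜ, ∑ c ∈ Uᶜ, badf F w (δ ^ 2) a b c ≤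
          ∑ b ∈ Uᶜ, ∑ c, badf F w (δ ^ 2) a b c := by
          apply Finset.sum_le_sum
          intro b _
          exact Finset.sum_le_sum_of_subset_of_nonneg (subset_univ _)
            fun c _ _ => badf_nonneg _ _ _ _ _ _
      _ ≤ _ := Finset.sum_le_sum_of_subset_of_nonneg (subset_univ _)
            fun b _ _ => Finset.sum_nonneg fun c _ => badf_nonneg _ _ _ _ _ _
  have e4 : ∑ b ∈ Uᶜ, ∑ c ∈ Uᶜ, (7 / 2 * (w b * tt F a b c + w c * tt F a b c) +
      badf F w (δ ^ 2) a b c) = 7 / 2 * (∑ b ∈ Uᶜ, ∑ c ∈ Uᶜ, w b * tt F a b c +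
      ∑ b ∈ Uᶜ, ∑ c ∈ Uᶜ, w c * tt F a b c) + ∑ b ∈ Uᶜ, ∑ c ∈ Uᶜ, badf F w (δ ^ 2) a b c := by
    simp only [Finset.sum_add_distrib, ← Finset.mul_sum]
  rw [e4, e1] at h1
  linarith

/-- The second charging inequality. -/
theorem charge2 (H : St F s δ U M w) :
    S3 (tt F) univ univ univ ≤ 54 * ((XX U w).card : ℝ) * (s : ℝ) ^ 2 +
      3 * s * (((U.card : ℝ) - (XX U w).card) ^ 2 +
        2 * ((U.card : ℝ) - (XX U w).card) * cS s δ U + 7 * Om U w * cS s δ U) +
      54 * Om U w * (s : ℝ) ^ 2 + 166 * δ ^ 2 * (s : ℝ) ^ 3 := by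
  classical
  have hδ := H.hδ
  have hδ1 := H.hδ1
  have hsym := tt_sym F
  have hs := H.sR
  set X := XX U w with hX
  have hXU : X ⊆ U := XX_sub
  have hUX : (0 : ℝ) ≤ (U.card : ℝ) - X.card := by
    have : (X.card : ℝ) ≤ U.card := by exact_mod_cast card_le_card hXU
    linarith
  have hOm := H.Om_nonneg
  have hcS := H.cS_nonneg
  set A : ℝ := ((U.card : ℝ) - X.card) ^ 2 + 2 * ((U.card : ℝ) - X.card) * cS s δ U with hA
  have hA0 : 0 ≤ A := by positivity
  let R : V → ℝ := fun a => ∑ b ∈ Xᶜ, ∑ c ∈ Xᶜ, tt F a b c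
  have hR : ∀ a, R a ≤ A + ell F U a := fun a => H.R_le hXU a
  have hR18 : ∀ a, R a ≤ 18 * (s : ℝ) ^ 2 := by
    intro a
    refine le_trans ?_ (H.hyp.deg_le a)
    calc ∑ b ∈ Xᶜ, ∑ c ∈ Xᶜ, tt F a b c ≤ ∑ b ∈ Xᶜ, ∑ c, tt F a b c := by
          apply Finset.sum_le_sum
          intro b _
          exact Finset.sum_le_sum_of_subset_of_nonneg (subset_univ _)
            fun c _ _ => tt_nonneg _ _ _ _
      _ ≤ _ := Finset.sum_le_sum_of_subset_of_nonneg (subset_univ _)
            fun b _ _ => Finset.sum_nonneg fun c _ => tt_nonneg _ _ _ _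
  have hsplit := split3 hsym X
  have h5 : ∑ a ∈ X, dg F a = S3 (tt F) X X X + 2 * S3 (tt F) X X Xᶜ + S3 (tt F) X Xᶜ Xᶜ := by
    unfold dg S3
    rw [Finset.mul_sum, ← Finset.sum_add_distrib, ← Finset.sum_add_distrib]
    apply Finset.sum_congr rfl
    intro a _
    exact split2 hsym X a
  have h6 : ∑ a ∈ X, dg F a ≤ 18 * (X.card : ℝ) * (s : ℝ) ^ 2 := by
    calc ∑ a ∈ X, dg F a ≤ ∑ _a ∈ X, 18 * (s : ℝ) ^ 2 :=
          Finset.sum_le_sum fun a _ => H.hyp.deg_le a
      _ = _ := by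
          rw [Finset.sum_const, nsmul_eq_mul]
          ring
  have hnn : ∀ X Y Z : Finset V, 0 ≤ S3 (tt F) X Y Z := fun X Y Z =>
    Finset.sum_nonneg fun _ _ => Finset.sum_nonneg fun _ _ => Finset.sum_nonneg fun _ _ =>
      tt_nonneg _ _ _ _
  have n1 := hnn X X X
  have n2 := hnn X X Xᶜ
  have p4 : S3 (tt F) Xᶜ Xᶜ Xᶜ ≤ 3 * ∑ a ∈ Xᶜ, w a * R a + 163 * δ ^ 2 * (s : ℝ) ^ 3 :=
    H.T0_le X
  have hXc : Xᶜ = (U \ X) ∪ Uᶜ := by
    ext u
    simp only [mem_compl, mem_union, mem_sdiff]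
    constructor
    · intro hu
      by_cases huU : u ∈ U
      · exact Or.inl ⟨huU, hu⟩
      · exact Or.inr huU
    · rintro (hu | hu)
      · exact hu.2
      · exact fun h => hu (hXU h)
  have hd : Disjoint (U \ X) Uᶜ := by
    rw [Finset.disjoint_left]
    intro u hu hu'
    exact (mem_compl.1 hu') (mem_sdiff.1 hu).1
  have q0 : ∑ a ∈ Xᶜ, w a * R a = ∑ a ∈ U \ X, w a * R a + ∑ a ∈ Uᶜ, w a * R a := by
    conv_lhs => rw [hXc]
    exact Finset.sum_union hd
  have q1 : ∑ a ∈ U \ X, w a * R a ≤ s * (A + 7 * Om U w * cS s δ U) + δ ^ 2 * (s : ℝ) ^ 3 := by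
    have h1 : ∑ a ∈ U \ X, w a * R a ≤ (∑ a ∈ U \ X, w a) * (A + 7 * Om U w * cS s δ U) +
        ∑ a ∈ U \ X, bad F w δ a := by
      rw [Finset.sum_mul, ← Finset.sum_add_distrib]
      apply Finset.sum_le_sum
      intro a ha
      have haw : w a ≤ 2 / 3 := by
        by_contra hcon
        push Not at hcon
        exact (mem_sdiff.1 ha).2 (mem_filter.2 ⟨(mem_sdiff.1 ha).1, hcon⟩)
      have h1 := H.ell_le_light haw
      have h2 := hR a
      have h3 : R a ≤ (A + 7 * Om U w * cS s δ U) + bad F w δ a := by linarith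
      have h4 := H.w0 a
      have h5 := H.w_le_one a
      have h6 := bad_nonneg (F := F) (w := w) (δ := δ) a
      calc w a * R a ≤ w a * ((A + 7 * Om U w * cS s δ U) + bad F w δ a) :=
            mul_le_mul_of_nonneg_left h3 h4
        _ ≤ w a * (A + 7 * Om U w * cS s δ U) + bad F w δ a := by nlinarith
    have h2 : ∑ a ∈ U \ X, w a ≤ s := by
      rw [← H.sumw]
      exact Finset.sum_le_sum_of_subset_of_nonneg (subset_univ _) fun a _ _ => H.w0 a
    have h3 : (∑ a ∈ U \ X, w a) * (A + 7 * Om U w * cS s δ U) ≤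
        s * (A + 7 * Om U w * cS s δ U) :=
      mul_le_mul_of_nonneg_right h2 (by positivity)
    have h4 := H.sum_bad_le (U \ X)
    linarith
  have q2 : ∑ a ∈ Uᶜ, w a * R a ≤ Om U w * (18 * (s : ℝ) ^ 2) := by
    unfold Om
    rw [Finset.sum_mul]
    exact Finset.sum_le_sum fun a _ => mul_le_mul_of_nonneg_left (hR18 a) (H.w0 a)
  rw [q0] at p4
  linarith

/-- stage 2: the deficiency is small -/
theorem stage2 (H : St F s δ U M w) {ρ : ℝ} (hρ : 0 < ρ) (hρ1 : ρ ≤ 1 / 100) (hδρ : δ = ρ ^ 2)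
    (hT : 27 * (s : ℝ) ^ 3 ≤ S3 (tt F) univ univ univ) :
    cS s δ U ^ 2 ≤ 255 * ρ * (s : ℝ) ^ 2 := by
  have hs := H.sR
  have hδ := H.hδ
  have hδ1 : δ ≤ 1 / 10000 := by rw [hδρ]; nlinarith
  have hst1 := H.stage1
  have hch := H.charge2
  set X := XX U w with hX
  have hXU : X ⊆ U := XX_sub
  set n : ℝ := (s : ℝ) with hn
  obtain ⟨k, hk⟩ : ∃ k : ℝ, (X.card : ℝ) = k * n := ⟨X.card / n, by field_simp⟩
  obtain ⟨u, hu⟩ : ∃ u : ℝ, (U.card : ℝ) = u * n := ⟨U.card / n, by field_simp⟩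
  obtain ⟨ω, hω⟩ : ∃ ω : ℝ, Om U w = ω * n := ⟨Om U w / n, by field_simp⟩
  set c : ℝ := 3 - u + δ with hc
  have hcS : cS s δ U = c * n := by
    unfold cS
    rw [hu, hc]
    ring
  have hk0 : 0 ≤ k := by
    have : (0 : ℝ) ≤ X.card := Nat.cast_nonneg _
    rw [hk] at this
    exact nonneg_of_mul_nonneg_left this hs
  have hk1 : k ≤ 1 := by
    have := H.card_XX_le
    rw [← hX, hk] at this
    have : k * n ≤ 1 * n := by linarith
    exact le_of_mul_le_mul_right this hs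
  have hku : k ≤ u := by
    have : (X.card : ℝ) ≤ U.card := by exact_mod_cast card_le_card hXU
    rw [hk, hu] at this
    exact le_of_mul_le_mul_right this hs
  have hc0 : 0 ≤ c := by
    have := H.cS_nonneg
    rw [hcS] at this
    exact nonneg_of_mul_nonneg_left this hs
  have hω0 : 0 ≤ ω := by
    have := H.Om_nonneg
    rw [hω] at this
    exact nonneg_of_mul_nonneg_left this hs
  have hn3 : (0 : ℝ) < n ^ 3 := by positivity
  -- stage 1
  have hdiv1 : (X.card : ℝ) / n = k := by rw [hk]; field_simp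
  have hdiv2 : Om U w / n = ω := by rw [hω]; field_simp
  rw [hdiv1, hdiv2] at hst1
  have h1 : (27 : ℝ) ≤ 27 - 3 / 4 * k - 9 * (1 - k) * ω ^ 2 + 100 * δ :=
    le_of_mul_le_mul_right (hT.trans hst1) hn3
  have hsq : 0 ≤ 9 * (1 - k) * ω ^ 2 := by
    have : 0 ≤ 1 - k := by linarith
    positivity
  have hk2 : k ≤ 134 * δ := by linarith
  have hk3 : k ≤ 1 / 50 := by linarith
  have hω2 : ω ^ 2 ≤ 23 * ρ ^ 2 := by
    rw [← hδρ]
    have h2 : 9 * (1 - k) * ω ^ 2 ≤ 100 * δ := by linarith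
    have h3 : (49 / 50 : ℝ) * (9 * ω ^ 2) ≤ (1 - k) * (9 * ω ^ 2) :=
      mul_le_mul_of_nonneg_right (by linarith) (by positivity)
    nlinarith [sq_nonneg ω]
  have hω3 : ω ≤ 5 * ρ := by
    by_contra hcon
    push Not at hcon
    nlinarith
  -- stage 2
  have h4 : 27 * n ^ 3 ≤ (54 * k + 3 * ((u - k) ^ 2 + 2 * (u - k) * c + 7 * ω * c) + 54 * ω +
      166 * δ ^ 2) * n ^ 3 := by
    refine hT.trans (hch.trans (le_of_eq ?_))
    rw [hcS, hk, hu, hω]
    ring
  have h5 : (27 : ℝ) ≤ 54 * k + 3 * ((u - k) ^ 2 + 2 * (u - k) * c + 7 * ω * c) + 54 * ω +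
      166 * δ ^ 2 := le_of_mul_le_mul_right h4 hn3
  have hcc : (u - k) ^ 2 + 2 * (u - k) * c = (3 + δ - k) ^ 2 - c ^ 2 := by
    rw [hc]
    ring
  have hc4 : c ≤ 4 := by rw [hc]; linarith
  have h6 : ω * c ≤ 5 * ρ * 4 := mul_le_mul hω3 hc4 hc0 (by positivity)
  have h7 : (3 + δ - k) ^ 2 ≤ 9 + 7 * δ := by
    have : (3 + δ - k) ^ 2 ≤ (3 + δ) ^ 2 := by
      apply pow_le_pow_left₀ _ (by linarith)
      linarith
    nlinarith
  rw [hcc] at h5
  have hδ3 : δ ≤ 1 / 100 * ρ := by rw [hδρ]; nlinarith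
  have hδ4 : δ ^ 2 ≤ 1 / 10000 * δ := by nlinarith
  have h8 : c ^ 2 ≤ 255 * ρ := by nlinarith
  rw [hcS]
  calc (c * n) ^ 2 = c ^ 2 * n ^ 2 := by ring
    _ ≤ (255 * ρ) * n ^ 2 := mul_le_mul_of_nonneg_right h8 (by positivity)

end St

/-- The stability theorem. -/
theorem stab (η : ℝ) (hη : 0 < η) : ∃ s₀ : ℕ, ∀ s ≥ s₀, ∀ (V : Type) [Fintype V]
    [DecidableEq V] (F : Finset (Finset V)), Hyp F s → (3 * s + 2).choose 3 < F.card →
    ∃ U : Finset V, (3 - η) * s ≤ (U.card : ℝ) ∧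
      ∀ P ⊆ F, IsMatching P → P.card = s → ((U \ VS P).card : ℝ) ≤ η * s := by
  classical
  obtain ⟨ρ, hρ, hρ1, hρη, hρη2⟩ : ∃ ρ : ℝ, 0 < ρ ∧ ρ ≤ 1 / 100 ∧ 255 * ρ ≤ η ^ 2 ∧ ρ ≤ η := by
    refine ⟨min (min (1 / 100) (η ^ 2 / 255)) η, by positivity, ?_, ?_, ?_⟩
    · exact (min_le_left _ _).trans (min_le_left _ _)
    · have : min (min (1 / 100) (η ^ 2 / 255)) η ≤ η ^ 2 / 255 :=
        (min_le_left _ _).trans (min_le_right _ _)
      linarith
    · exact min_le_right _ _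
  set δ : ℝ := ρ ^ 2 with hδdef
  have hδ : 0 < δ := by positivity
  have hδ1 : δ ≤ 1 / 100 := by rw [hδdef]; nlinarith
  have hδη : δ ≤ η := by
    have : ρ ^ 2 ≤ ρ := by nlinarith
    linarith
  obtain ⟨s₁, hs₁, hbc⟩ := bulk_cover (δ ^ 2) (by positivity)
  obtain ⟨s₂, hs₂⟩ := exists_nat_gt (1 / δ)
  refine ⟨max s₁ s₂, ?_⟩
  intro s hs V _ _ F h hF
  have hs1 : s₁ ≤ s := (le_max_left _ _).trans hs
  have hs2 : s₂ ≤ s := (le_max_right _ _).trans hs
  have hspos : 0 < s := lt_of_lt_of_le hs₁ hs1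
  have hsR : (0 : ℝ) < s := by exact_mod_cast hspos
  have hS : 1 ≤ δ * s := by
    have h1 : 1 / δ < s := lt_of_lt_of_le hs₂ (by exact_mod_cast hs2)
    rw [div_lt_iff₀ hδ] at h1
    linarith
  set U : Finset V := univ.filter (fun v => (6 + 2 * δ) * (s : ℝ) ^ 2 ≤ dg F v) with hU
  have hUhigh : ∀ v ∈ U, (6 + 2 * δ) * (s : ℝ) ^ 2 ≤ dg F v := fun v hv => (mem_filter.1 hv).2
  have hcov : ∀ P ⊆ F, IsMatching P → P.card = s → ((U \ VS P).card : ℝ) ≤ δ * s := by
    intro P hP hm hc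
    obtain ⟨w, w0, woff, wM, wbad⟩ := hbc s hs1 V F h P hP hm hc
    exact high_cov h hspos hδ hδ1 hm hc w0 woff wM wbad hUhigh
  -- a maximum matching
  have hne : Nonempty V := by
    by_contra hcon
    rw [not_nonempty_iff] at hcon
    have hF0 : F = ∅ := by
      rw [Finset.eq_empty_iff_forall_notMem]
      intro e he
      have h3 := h.three e he
      have : e = ∅ := Finset.eq_empty_of_isEmpty e
      rw [this] at h3
      simp at h3
    rw [hF0] at hF
    simp at hF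
  obtain ⟨v₀⟩ := hne
  obtain ⟨M, hMF, hMm, hMc, -⟩ := h.avoid v₀ v₀
  obtain ⟨w, w0, woff, wM, wbad⟩ := hbc s hs1 V F h M hMF hMm hMc
  have H : St F s δ U M w :=
    { hyp := h
      spos := hspos
      hδ := hδ
      hδ1 := hδ1
      hS := hS
      MF := hMF
      Mm := hMm
      Mc := hMc
      w0 := w0
      woff := woff
      wM := wM
      wbad := wbad
      Ulow := by
        intro v hv
        by_contra hcon
        push Not at hcon
        exact hv (mem_filter.2 ⟨mem_univ _, hcon.le⟩)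
      cov := hcov }
  -- the total
  have hT : 27 * (s : ℝ) ^ 3 ≤ S3 (tt F) univ univ univ := by
    refine le_trans ?_ (six_card_le h.three)
    have h1 : (((3 * s + 2).choose 3 : ℕ) : ℝ) ≤ F.card := by exact_mod_cast hF.le
    have h2 : 6 * (3 * s + 2).choose 3 = (3 * s + 2) * (3 * s + 1) * (3 * s) := by
      have := Nat.add_one_mul_choose_eq (3 * s + 1) 2
      have h4 : (3 * s + 1).choose 2 * 2 = (3 * s + 1) * (3 * s) := by
        have := Nat.add_one_mul_choose_eq (3 * s) 1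
        rw [Nat.choose_one_right] at this
        linarith
      have h5 : (3 * s + 1 + 1) * (3 * s + 1).choose 2 = (3 * s + 1 + 1).choose (2 + 1) * (2 + 1) :=
        this
      have h6 : (3 * s + 2).choose 3 * 3 = (3 * s + 2) * (3 * s + 1).choose 2 := by
        rw [← h5]
      calc 6 * (3 * s + 2).choose 3 = 2 * ((3 * s + 2).choose 3 * 3) := by ring
        _ = (3 * s + 2) * ((3 * s + 1).choose 2 * 2) := by rw [h6]; ring
        _ = _ := by rw [h4]; ring
    have h3 : (6 : ℝ) * (((3 * s + 2).choose 3 : ℕ) : ℝ) =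
        (3 * s + 2) * (3 * s + 1) * (3 * s) := by exact_mod_cast h2
    nlinarith [pow_pos hsR 2, pow_pos hsR 3]
  have hc := H.stage2 hρ hρ1 rfl hT
  have hc0 := H.cS_nonneg
  have hc1 : St.cS s δ U ≤ η * s := by
    have h1 : St.cS s δ U ^ 2 ≤ (η * s) ^ 2 := by
      calc St.cS s δ U ^ 2 ≤ 255 * ρ * (s : ℝ) ^ 2 := hc
        _ ≤ η ^ 2 * (s : ℝ) ^ 2 := mul_le_mul_of_nonneg_right hρη (by positivity)
        _ = _ := by ring
    exact le_of_sq_le_sq h1 (by positivity)
  refine ⟨U, ?_, ?_⟩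
  · unfold St.cS at hc1
    have : 0 ≤ δ * s := by positivity
    linarith
  · intro P hP hm hc'
    refine (hcov P hP hm hc').trans ?_
    exact mul_le_mul_of_nonneg_right hδη hsR.le

end Res12
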