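import Pool.Agent.Helper65.Res.Frame
import Pool.Agent.Helper70.Res.GSum
import Pool.Agent.Helper47.Res.LA7
import Pool.Agent.Helper13.Res.Caps

/-!
# Route A: the one-block bracket of a block with edges `Gp`

`SetUp.sum_Gp_zero`, `SetUp.sum_Gp_two`, `SetUp.sum_Gp_le`: the number of edges with one point in
the block `e` and two outside points (not `x`, `y`), by the type of `e`.
`SetUp.flag_block_le`: the whole bracket of a block with such an edge is at most
`6 s ^ 2 + 20 s - 20`.
-/

namespace RouteA

open Finset Res12 Helper9.Res Helper1.Res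

set_option linter.unusedSectionVars false

variable {V : Type} [Fintype V] [DecidableEq V]
variable {F P : Finset (Finset V)} {s j : ℕ} {x y : V} {e : Finset V}

theorem dg_one (h : SetUp F s j P x y) {v : V} (hv : v ∈ VS P) :
    Helper28.Res.dg F (VS P) {v} = gW F (VS P) v := by
  rw [dg_eq_ex]
  exact ex_one h.three hv

/-- a block of type at most 1 has no `Gp` edges -/
theorem SetUp.sum_Gp_zero (h : SetUp F s j P x y) (he : e ∈ P) (h1 : ty F x y e ≤ 1) :
    ∑ v ∈ e, (Gp F P x y v).card = 0 := by
  apply Finset.sum_eq_zero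
  intro v hv
  rw [h.gp_empty he h1 hv, card_empty]

/-- in a block of type 2: at most `s ^ 2` edges -/
theorem SetUp.sum_Gp_two (h : SetUp F s j P x y) (he : e ∈ P) (h2 : ty F x y e = 2) :
    ∑ v ∈ e, (Gp F P x y v).card ≤ s * s := by
  by_cases hG : ∃ p ∈ e, (Gp F P x y p).Nonempty
  · obtain ⟨p, hp, hGp⟩ := hG
    have hpE := h.gp_two he h2 hp hGp
    rw [Finset.sum_eq_single_of_mem p hp]
    · exact h.Gp_E_le hpE
    · intro q hq hqp
      rw [card_eq_zero, ← not_nonempty_iff_eq_empty]
      intro hGq
      exact h.gp_J he hp hGp q hq hqp (h.gp_two he h2 hq hGq)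
  · push Not at hG
    have : ∑ v ∈ e, (Gp F P x y v).card = 0 := by
      apply Finset.sum_eq_zero
      intro v hv
      rw [hG v hv, card_empty]
    omega

/-- all the edges with exactly one point in the block `e` and two outside points -/
theorem SetUp.sum_point_le (h : SetUp F s j P x y) (hs : 3 ≤ s) (he : e ∈ P) :
    ∑ v ∈ e, (((Gp F P x y v).card : ℤ) + (lb F P x y x v).card + (lb F P x y y v).card) + 3 ≤
      ((s : ℤ) + 1) * (s + 1) + ty F x y e := by
  have h1 := h.sum_points he
  have h2 := Helper70.Res.sum_gW_le h.toMM hs he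
  have h3 : ∑ p ∈ e.powersetCard 1, (Helper28.Res.dg F (VS P) p : ℤ) =
      ((∑ v ∈ e, gW F (VS P) v : ℕ) : ℤ) := by
    push_cast
    rw [Finset.powersetCard_one, Finset.sum_map]
    refine Finset.sum_congr rfl fun v hv => ?_
    exact_mod_cast dg_one h (subset_VS he hv)
  rw [h3] at h1
  have h4 : ((∑ v ∈ e, gW F (VS P) v : ℕ) : ℤ) ≤ ((s : ℤ) + 1) * (s + 1) := by
    exact_mod_cast h2
  linarith

/-- in any block: at most `(s+1) ^ 2` edges -/
theorem SetUp.sum_Gp_le (h : SetUp F s j P x y) (hs : 3 ≤ s) (he : e ∈ P) :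
    ∑ v ∈ e, (Gp F P x y v).card ≤ (s + 1) * (s + 1) := by
  have h1 := h.sum_point_le hs he
  have h2 : ∑ v ∈ e, ((Gp F P x y v).card : ℤ) ≤
      ∑ v ∈ e, (((Gp F P x y v).card : ℤ) + (lb F P x y x v).card + (lb F P x y y v).card) := by
    apply Finset.sum_le_sum
    intro v hv
    have : (0 : ℤ) ≤ (lb F P x y x v).card := by positivity
    have : (0 : ℤ) ≤ (lb F P x y y v).card := by positivity
    linarith
  have h3 : ty F x y e ≤ 3 := by
    unfold ty
    exact (card_le_card sdiff_subset).trans_eq (h.threeP e he)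
  have h4 : ((∑ v ∈ e, (Gp F P x y v).card : ℕ) : ℤ) ≤ (((s + 1) * (s + 1) : ℕ) : ℤ) := by
    push_cast
    have : (ty F x y e : ℤ) ≤ 3 := by exact_mod_cast h3
    linarith
  exact_mod_cast h4

/-- a `Gp` edge at `p` leaves at most its two outside points as neighbours of the own pair
opposite to `p` -/
theorem SetUp.lam_opp_le (h : SetUp F s j P x y) {p q r : V} (he : ({p, q, r} : Finset V) ∈ P)
    (hG : (Gp F P x y p).Nonempty) : lam F P q r ≤ 0 := by
  classical
  obtain ⟨g, hg⟩ := hG
  obtain ⟨w, w', hww, hw, hw', -, -, -, -, -, -, -, hF⟩ := h.gp_form hg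
  have hM := h.toMM
  obtain ⟨npq, npr, nqr⟩ := hM.ne3 he
  have hsub : N F q r \ VS P ⊆ {w, w'} := by
    intro z hz
    rw [mem_sdiff, mem_N] at hz
    obtain ⟨hzF, hzV⟩ := hz
    by_contra hcon
    simp only [mem_insert, mem_singleton, not_or] at hcon
    have hp : p ∈ ({p, q, r} : Finset V) := by simp
    have hq : q ∈ ({p, q, r} : Finset V) := by simp
    have hr : r ∈ ({p, q, r} : Finset V) := by simp
    refine one_block hM he hF hzF ?_ ?_ ?_
    · rw [Finset.disjoint_left]
      intro t ht ht'
      simp only [mem_insert, mem_singleton] at ht ht'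
      rcases ht with rfl | rfl | rfl
      · rcases ht' with h1 | h1 | h1
        · exact npq h1
        · exact npr h1
        · exact hzV (by rw [← h1]; exact mem_VS.2 ⟨_, he, hp⟩)
      · rcases ht' with h1 | h1 | h1
        · exact hw (by rw [h1]; exact mem_VS.2 ⟨_, he, hq⟩)
        · exact hw (by rw [h1]; exact mem_VS.2 ⟨_, he, hr⟩)
        · exact hcon.1 h1.symm
      · rcases ht' with h1 | h1 | h1
        · exact hw' (by rw [h1]; exact mem_VS.2 ⟨_, he, hq⟩)
        · exact hw' (by rw [h1]; exact mem_VS.2 ⟨_, he, hr⟩)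
        · exact hcon.2 h1.symm
    · intro t ht
      simp only [mem_insert, mem_singleton] at ht
      rcases ht with rfl | rfl | rfl
      · exact Or.inl hp
      · exact Or.inr hw
      · exact Or.inr hw'
    · intro t ht
      simp only [mem_insert, mem_singleton] at ht
      rcases ht with rfl | rfl | rfl
      · exact Or.inl hq
      · exact Or.inl hr
      · exact Or.inr hzV
  have h1 := (card_le_card hsub).trans card_le_two
  unfold lam dW
  have : ((N F q r \ VS P).card : ℤ) ≤ 2 := by exact_mod_cast h1
  linarith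

/-- sum over the own pairs of a block -/
theorem SetUp.sum_own_pairs (h : SetUp F s j P x y) {p q r : V}
    (he : ({p, q, r} : Finset V) ∈ P) :
    ∑ c ∈ ({p, q, r} : Finset V).powersetCard 2, ((Helper28.Res.dg F (VS P) c : ℤ) - 2) =
      lam F P p q + lam F P p r + lam F P q r := by
  classical
  obtain ⟨npq, npr, nqr⟩ := h.toMM.ne3 he
  have hp : p ∈ VS P := mem_VS.2 ⟨_, he, by simp⟩
  have hq : q ∈ VS P := mem_VS.2 ⟨_, he, by simp⟩
  have hr : r ∈ VS P := mem_VS.2 ⟨_, he, by simp⟩
  have hset : ({p, q, r} : Finset V).powersetCard 2 = {{p, q}, {p, r}, {q, r}} := by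
    ext c
    rw [mem_powersetCard]
    simp only [mem_insert, mem_singleton]
    constructor
    · rintro ⟨hc, h2⟩
      obtain ⟨a, b, hab, rfl⟩ := card_eq_two.1 h2
      have ha := hc (mem_insert_self a _)
      have hb := hc (mem_insert_of_mem (mem_singleton_self b))
      simp only [mem_insert, mem_singleton] at ha hb
      rcases ha with rfl | rfl | rfl <;> rcases hb with rfl | rfl | rfl
      · exact absurd rfl hab
      · exact Or.inl rfl
      · exact Or.inr (Or.inl rfl)
      · exact Or.inl (pair_comm _ _)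
      · exact absurd rfl hab
      · exact Or.inr (Or.inr rfl)
      · exact Or.inr (Or.inl (pair_comm _ _))
      · exact Or.inr (Or.inr (pair_comm _ _))
      · exact absurd rfl hab
    · rintro (rfl | rfl | rfl)
      · exact ⟨by
          intro z hz
          simp only [mem_insert, mem_singleton] at hz ⊢
          tauto, card_pair npq⟩
      · exact ⟨by
          intro z hz
          simp only [mem_insert, mem_singleton] at hz ⊢
          tauto, card_pair npr⟩
      · exact ⟨by
          intro z hz
          simp only [mem_insert, mem_singleton] at hz ⊢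
          tauto, card_pair nqr⟩
  have n1 : ({p, q} : Finset V) ≠ {p, r} := by
    intro hh
    have : q ∈ ({p, r} : Finset V) := by rw [← hh]; simp
    simp only [mem_insert, mem_singleton] at this
    rcases this with h1 | h1
    · exact npq h1.symm
    · exact nqr h1
  have n2 : ({p, q} : Finset V) ≠ {q, r} := by
    intro hh
    have : p ∈ ({q, r} : Finset V) := by rw [← hh]; simp
    simp only [mem_insert, mem_singleton] at this
    rcases this with h1 | h1
    · exact npq h1
    · exact npr h1
  have n3 : ({p, r} : Finset V) ≠ {q, r} := by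
    intro hh
    have : p ∈ ({q, r} : Finset V) := by rw [← hh]; simp
    simp only [mem_insert, mem_singleton] at this
    rcases this with h1 | h1
    · exact npq h1
    · exact npr h1
  rw [hset, Finset.sum_insert (by simp [n1, n2]), Finset.sum_insert (by simp [n3]),
    Finset.sum_singleton, dg_pair h.three npq hp hq, dg_pair h.three npr hp hr,
    dg_pair h.three nqr hq hr]
  unfold lam
  ring

/-- **the bracket of a block with a `Gp` edge** -/
theorem SetUp.flag_block_le (h : SetUp F s j P x y) (hs : 3 ≤ s) (he : e ∈ P) {v : V}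
    (hv : v ∈ e) (hG : (Gp F P x y v).Nonempty) :
    4 * ∑ p ∈ e.powersetCard 2, ((Helper28.Res.dg F (VS P) p : ℤ) - 2) - 6 * ty F x y e +
        6 * ∑ v ∈ e, (((Gp F P x y v).card : ℤ) + (lb F P x y x v).card +
          (lb F P x y y v).card) ≤ 6 * (s : ℤ) ^ 2 + 20 * s - 20 := by
  have h1 := h.sum_point_le hs he
  have h2 : ∑ p ∈ e.powersetCard 2, ((Helper28.Res.dg F (VS P) p : ℤ) - 2) ≤ 2 * ((s : ℤ) - 1) := by
    obtain ⟨q, r, -, -, -, rfl⟩ := h.block_first he hv
    rw [h.sum_own_pairs he]
    have a1 := h.lam_own_le he (a := v) (b := q) (by simp) (by simp)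
    have a2 := h.lam_own_le he (a := v) (b := r) (by simp) (by simp)
    have a3 := h.lam_opp_le he hG
    linarith
  nlinarith

end RouteA
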