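import Pool.Agent.Helper12.Res.Dev

/-!
Averaging over tripartite samples.
-/

namespace Res12

open Finset

/-- maximum of three numbers -/
noncomputable def M3 (f : Fin 3 → ℝ) : ℝ := max (max (f 0) (f 1)) (f 2)

theorem le_M3 (f : Fin 3 → ℝ) (α : Fin 3) : f α ≤ M3 f := by
  unfold M3
  fin_cases α
  · exact le_trans (le_max_left _ _) (le_max_left _ _)
  · exact le_trans (le_max_right _ _) (le_max_left _ _)
  · exact le_max_right _ _

theorem M3_le {f : Fin 3 → ℝ} {c : ℝ} (h : ∀ α, f α ≤ c) : M3 f ≤ c :=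
  max_le (max_le (h 0) (h 1)) (h 2)

theorem M3_eq (f : Fin 3 → ℝ) : ∃ α, M3 f = f α := by
  unfold M3
  rcases max_choice (max (f 0) (f 1)) (f 2) with h | h
  · rcases max_choice (f 0) (f 1) with h' | h'
    · exact ⟨0, by rw [h, h']⟩
    · exact ⟨1, by rw [h, h']⟩
  · exact ⟨2, h⟩

theorem M3_mul {f : Fin 3 → ℝ} {c : ℝ} (hc : 0 ≤ c) : M3 (fun α => c * f α) = c * M3 f := by
  unfold M3
  rw [mul_max_of_nonneg _ _ hc, mul_max_of_nonneg _ _ hc]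

theorem M3_mono {f g : Fin 3 → ℝ} (h : ∀ α, f α ≤ g α) : M3 f ≤ M3 g :=
  M3_le fun α => (h α).trans (le_M3 g α)

theorem M3_nonneg {f : Fin 3 → ℝ} (h : ∀ α, 0 ≤ f α) : 0 ≤ M3 f := (h 0).trans (le_M3 f 0)

theorem M3_le_add (f g : Fin 3 → ℝ) : M3 f ≤ M3 g + ∑ α, |f α - g α| := by
  apply M3_le
  intro α
  have h1 : |f α - g α| ≤ ∑ α, |f α - g α| :=
    Finset.single_le_sum (f := fun α => |f α - g α|) (fun _ _ => abs_nonneg _) (mem_univ α)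
  have h2 := le_M3 g α
  have h3 := le_abs_self (f α - g α)
  linarith

/-- the cap of position `a` of the first sample against the two other samples -/
noncomputable def cap {s q : ℕ} (G : Fin 3 → Fin s → Fin s → Fin s → ℝ)
    (η ζ θ : Fin q → Fin s) (a : Fin q) : ℝ :=
  M3 (fun α => ∑ b, ∑ c, G α (η a) (ζ b) (θ c))

noncomputable def gain {s q : ℕ} (G : Fin 3 → Fin s → Fin s → Fin s → ℝ)
    (H : Fin s → Fin s → Fin s → ℝ) (η ζ θ : Fin q → Fin s) : ℝ :=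
  ∑ a, ∑ b, ∑ c, H (η a) (ζ b) (θ c) - ∑ a, cap G η ζ θ a - ∑ b, cap G ζ η θ b -
    ∑ c, cap G θ η ζ c

theorem cap_sum_le (s q : ℕ) (hs : 0 < s) (G : Fin 3 → Fin s → Fin s → Fin s → ℝ) (C : ℝ)
    (hG0 : ∀ α j k l, 0 ≤ G α j k l) (hGC : ∀ α j k l, G α j k l ≤ C) (a : Fin q) :
    (s : ℝ) ^ 3 * ∑ η : Fin q → Fin s, ∑ ζ : Fin q → Fin s, ∑ θ : Fin q → Fin s,
        cap G η ζ θ a ≤
      (s : ℝ) ^ q * (s : ℝ) ^ q * (s : ℝ) ^ q * ((q : ℝ) ^ 2 * ∑ j, M3 (fun α => ∑ k, ∑ l, G α j k l) +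
        6 * q * Real.sqrt q * C * (s : ℝ) ^ 3) := by
  have hs' : (0 : ℝ) < s := by exact_mod_cast hs
  set m : Fin 3 → Fin s → ℝ := fun α j => (∑ k, ∑ l, G α j k l) / (s : ℝ) ^ 2 with hm
  have hm' : ∀ α j, m α j * (s : ℝ) ^ 2 = ∑ k, ∑ l, G α j k l := by
    intro α j
    rw [hm]
    field_simp
  have h1 : ∀ η ζ θ : Fin q → Fin s, cap G η ζ θ a ≤
      (q : ℝ) ^ 2 * M3 (fun α => m α (η a)) +
        ∑ α, |∑ b, ∑ c, G α (η a) (ζ b) (θ c) - (q : ℝ) ^ 2 * m α (η a)| := by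
    intro η ζ θ
    unfold cap
    have := M3_le_add (fun α => ∑ b, ∑ c, G α (η a) (ζ b) (θ c))
      (fun α => (q : ℝ) ^ 2 * m α (η a))
    rwa [M3_mul (by positivity)] at this
  have h2 : ∀ η : Fin q → Fin s, ∑ ζ : Fin q → Fin s, ∑ θ : Fin q → Fin s, cap G η ζ θ a ≤
      (s : ℝ) ^ q * (s : ℝ) ^ q * ((q : ℝ) ^ 2 * M3 (fun α => m α (η a))) +
        3 * (2 * q * Real.sqrt q * C * (s : ℝ) ^ q * (s : ℝ) ^ q) := by
    intro η
    calc ∑ ζ : Fin q → Fin s, ∑ θ : Fin q → Fin s, cap G η ζ θ a ≤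
        ∑ ζ : Fin q → Fin s, ∑ θ : Fin q → Fin s, ((q : ℝ) ^ 2 * M3 (fun α => m α (η a)) +
        ∑ α, |∑ b, ∑ c, G α (η a) (ζ b) (θ c) - (q : ℝ) ^ 2 * m α (η a)|) := by
          apply Finset.sum_le_sum
          intro ζ _
          apply Finset.sum_le_sum
          intro θ _
          exact h1 η ζ θ
      _ = (s : ℝ) ^ q * (s : ℝ) ^ q * ((q : ℝ) ^ 2 * M3 (fun α => m α (η a))) +
          ∑ α, ∑ ζ : Fin q → Fin s, ∑ θ : Fin q → Fin s,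
            |∑ b, ∑ c, G α (η a) (ζ b) (θ c) - (q : ℝ) ^ 2 * m α (η a)| := by
          simp only [Finset.sum_add_distrib, Finset.sum_const, Finset.card_univ, Fintype.card_fun,
            Fintype.card_fin, nsmul_eq_mul, Nat.cast_pow]
          congr 1
          · ring
          · have : ∀ ζ : Fin q → Fin s, (∑ θ : Fin q → Fin s, ∑ α,
                |∑ b, ∑ c, G α (η a) (ζ b) (θ c) - (q : ℝ) ^ 2 * m α (η a)|) =
                ∑ α, ∑ θ : Fin q → Fin s,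
                |∑ b, ∑ c, G α (η a) (ζ b) (θ c) - (q : ℝ) ^ 2 * m α (η a)| := by
              intro ζ
              rw [Finset.sum_comm]
            simp only [this]
            exact Finset.sum_comm
      _ ≤ (s : ℝ) ^ q * (s : ℝ) ^ q * ((q : ℝ) ^ 2 * M3 (fun α => m α (η a))) +
          ∑ _α : Fin 3, (2 * q * Real.sqrt q * C * (s : ℝ) ^ q * (s : ℝ) ^ q) := by
          gcongr with α _
          exact dev2 s q hs (fun k l => G α (η a) k l) C (m α (η a)) (fun k l => hG0 _ _ _ _)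
            (fun k l => hGC _ _ _ _) (hm' α (η a))
      _ = _ := by simp
  have h3 : (s : ℝ) * ∑ η : Fin q → Fin s, M3 (fun α => m α (η a)) =
      (s : ℝ) ^ q * ∑ j, M3 (fun α => m α j) := sum_coord s q a (fun j => M3 (fun α => m α j))
  have h4 : (s : ℝ) ^ 2 * ∑ j, M3 (fun α => m α j) = ∑ j, M3 (fun α => ∑ k, ∑ l, G α j k l) := by
    rw [Finset.mul_sum]
    apply Finset.sum_congr rfl
    intro j _
    rw [← M3_mul (by positivity)]
    congr 1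
    funext α
    rw [← hm' α j]
    ring
  calc (s : ℝ) ^ 3 * ∑ η : Fin q → Fin s, ∑ ζ : Fin q → Fin s, ∑ θ : Fin q → Fin s,
        cap G η ζ θ a ≤ (s : ℝ) ^ 3 * ∑ η : Fin q → Fin s,
        ((s : ℝ) ^ q * (s : ℝ) ^ q * ((q : ℝ) ^ 2 * M3 (fun α => m α (η a))) +
        3 * (2 * q * Real.sqrt q * C * (s : ℝ) ^ q * (s : ℝ) ^ q)) := by
        gcongr with η _
        exact h2 η
    _ = (s : ℝ) ^ 2 * ((s : ℝ) ^ q * (s : ℝ) ^ q * (q : ℝ) ^ 2 *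
          ((s : ℝ) * ∑ η : Fin q → Fin s, M3 (fun α => m α (η a)))) +
        (s : ℝ) ^ 3 * ((s : ℝ) ^ q * (3 * (2 * q * Real.sqrt q * C * (s : ℝ) ^ q * (s : ℝ) ^ q))) := by
        simp only [Finset.sum_add_distrib, Finset.sum_const, Finset.card_univ, Fintype.card_fun,
          Fintype.card_fin, nsmul_eq_mul, Nat.cast_pow, ← Finset.mul_sum]
        ring
    _ = (s : ℝ) ^ q * (s : ℝ) ^ q * (s : ℝ) ^ q * ((q : ℝ) ^ 2 * ((s : ℝ) ^ 2 * ∑ j, M3 (fun α => m α j)) +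
        6 * q * Real.sqrt q * C * (s : ℝ) ^ 3) := by
        rw [h3]
        ring
    _ = _ := by rw [h4]

theorem H_sum_eq (s q : ℕ) (H : Fin s → Fin s → Fin s → ℝ) :
    (s : ℝ) ^ 3 * ∑ η : Fin q → Fin s, ∑ ζ : Fin q → Fin s, ∑ θ : Fin q → Fin s,
        ∑ a, ∑ b, ∑ c, H (η a) (ζ b) (θ c) =
      (s : ℝ) ^ q * (s : ℝ) ^ q * (s : ℝ) ^ q * ((q : ℝ) ^ 3 * ∑ j, ∑ k, ∑ l, H j k l) := by
  have key : ∀ φ : Fin s → ℝ, (s : ℝ) * ∑ ω : Fin q → Fin s, ∑ a, φ (ω a) =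
      (s : ℝ) ^ q * (q * ∑ j, φ j) := by
    intro φ
    rw [Finset.sum_comm, Finset.mul_sum]
    rw [Finset.sum_congr rfl (fun a _ => sum_coord s q a φ)]
    simp only [Finset.sum_const, Finset.card_univ, Fintype.card_fin, nsmul_eq_mul]
    ring
  -- reorder
  have e1 : ∀ η ζ : Fin q → Fin s, (s : ℝ) * ∑ θ : Fin q → Fin s,
      ∑ a, ∑ b, ∑ c, H (η a) (ζ b) (θ c) = (s : ℝ) ^ q * (q * ∑ l, ∑ a, ∑ b, H (η a) (ζ b) l) := by
    intro η ζ
    rw [← key (fun l => ∑ a, ∑ b, H (η a) (ζ b) l)]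
    congr 1
    apply Finset.sum_congr rfl
    intro θ _
    have : ∀ a, ∑ b, ∑ c, H (η a) (ζ b) (θ c) = ∑ c, ∑ b, H (η a) (ζ b) (θ c) := fun a =>
      Finset.sum_comm
    simp only [this]
    exact Finset.sum_comm
  have e2 : ∀ η : Fin q → Fin s, (s : ℝ) * ∑ ζ : Fin q → Fin s,
      ∑ l, ∑ a, ∑ b, H (η a) (ζ b) l = (s : ℝ) ^ q * (q * ∑ k, ∑ l, ∑ a, H (η a) k l) := by
    intro η
    rw [← key (fun k => ∑ l, ∑ a, H (η a) k l)]
    congr 1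
    apply Finset.sum_congr rfl
    intro ζ _
    have : ∀ l, ∑ a, ∑ b, H (η a) (ζ b) l = ∑ b, ∑ a, H (η a) (ζ b) l := fun l =>
      Finset.sum_comm
    simp only [this]
    rw [Finset.sum_comm]
  have e3 : (s : ℝ) * ∑ η : Fin q → Fin s, ∑ k, ∑ l, ∑ a, H (η a) k l =
      (s : ℝ) ^ q * (q * ∑ j, ∑ k, ∑ l, H j k l) := by
    rw [← key (fun j => ∑ k, ∑ l, H j k l)]
    congr 1
    apply Finset.sum_congr rfl
    intro η _
    have : ∀ k, ∑ l, ∑ a, H (η a) k l = ∑ a, ∑ l, H (η a) k l := fun k => Finset.sum_comm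
    simp only [this]
    rw [Finset.sum_comm]
  calc (s : ℝ) ^ 3 * ∑ η : Fin q → Fin s, ∑ ζ : Fin q → Fin s, ∑ θ : Fin q → Fin s,
        ∑ a, ∑ b, ∑ c, H (η a) (ζ b) (θ c) =
      (s : ℝ) ^ 2 * ∑ η : Fin q → Fin s, ∑ ζ : Fin q → Fin s, ((s : ℝ) * ∑ θ : Fin q → Fin s,
        ∑ a, ∑ b, ∑ c, H (η a) (ζ b) (θ c)) := by
        simp only [← Finset.mul_sum]
        ring
    _ = s * ((s : ℝ) ^ q * q) * ∑ η : Fin q → Fin s, ((s : ℝ) * ∑ ζ : Fin q → Fin s,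
        ∑ l, ∑ a, ∑ b, H (η a) (ζ b) l) := by
        simp only [e1, ← Finset.mul_sum]
        ring
    _ = ((s : ℝ) ^ q * q) * ((s : ℝ) ^ q * q) * ((s : ℝ) * ∑ η : Fin q → Fin s,
        ∑ k, ∑ l, ∑ a, H (η a) k l) := by
        simp only [e2, ← Finset.mul_sum]
        ring
    _ = _ := by
        rw [e3]
        ring

open Classical in
theorem popular_gain (ε C C' : ℝ) (hε : 0 < ε) (hC' : 0 < C') :
    ∃ q : ℕ, 0 < q ∧ ∀ s : ℕ, 0 < s → ∀ (G : Fin 3 → Fin s → Fin s → Fin s → ℝ)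
      (H : Fin s → Fin s → Fin s → ℝ), (∀ α j k l, 0 ≤ G α j k l) → (∀ α j k l, G α j k l ≤ C) →
      (∀ j k l, 0 ≤ H j k l) → (∀ j k l, H j k l ≤ C') →
      3 * ∑ j, M3 (fun α => ∑ k, ∑ l, G α j k l) + ε * (s : ℝ) ^ 3 ≤ ∑ j, ∑ k, ∑ l, H j k l →
      ε / (4 * C') * ((s : ℝ) ^ q * (s : ℝ) ^ q * (s : ℝ) ^ q) ≤
        ((univ.filter (fun ω : (Fin q → Fin s) × (Fin q → Fin s) × (Fin q → Fin s) =>
          (q : ℝ) ^ 3 * (ε / 4) ≤ gain G H ω.1 ω.2.1 ω.2.2)).card : ℝ) := by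
  obtain ⟨q, hq⟩ := exists_nat_ge ((36 * C / ε) ^ 2 + 1)
  have hq0 : 0 < q := by
    rw [Nat.pos_iff_ne_zero]
    rintro rfl
    have : (0 : ℝ) ≤ (36 * C / ε) ^ 2 := by positivity
    norm_num at hq
    linarith
  have hqR : (0 : ℝ) < q := by exact_mod_cast hq0
  have hsq : 36 * C ≤ ε * Real.sqrt q := by
    have h1 : 36 * C / ε ≤ Real.sqrt q := by
      apply Real.le_sqrt_of_sq_le
      linarith
    rw [div_le_iff₀ hε] at h1
    linarith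
  refine ⟨q, hq0, ?_⟩
  intro s hs G H hG0 hGC hH0 hHC hbig
  have hs' : (0 : ℝ) < s := by exact_mod_cast hs
  set Q3 := (s : ℝ) ^ q * (s : ℝ) ^ q * (s : ℝ) ^ q with hQ3
  have hQ3pos : 0 < Q3 := by positivity
  set Ms := ∑ j, M3 (fun α => ∑ k, ∑ l, G α j k l) with hMs
  set S := ∑ η : Fin q → Fin s, ∑ ζ : Fin q → Fin s, ∑ θ : Fin q → Fin s, gain G H η ζ θ with hS
  -- lower bound for S
  have hcap1 : (s : ℝ) ^ 3 * ∑ η : Fin q → Fin s, ∑ ζ : Fin q → Fin s, ∑ θ : Fin q → Fin s,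
      ∑ a, cap G η ζ θ a ≤ q * (Q3 * ((q : ℝ) ^ 2 * Ms + 6 * q * Real.sqrt q * C * (s : ℝ) ^ 3)) := by
    have e : ∑ η : Fin q → Fin s, ∑ ζ : Fin q → Fin s, ∑ θ : Fin q → Fin s,
      ∑ a, cap G η ζ θ a = ∑ a, ∑ η : Fin q → Fin s, ∑ ζ : Fin q → Fin s, ∑ θ : Fin q → Fin s,
        cap G η ζ θ a := by
      have e1 : ∀ η ζ : Fin q → Fin s, ∑ θ : Fin q → Fin s, ∑ a, cap G η ζ θ a =
          ∑ a, ∑ θ : Fin q → Fin s, cap G η ζ θ a := fun _ _ => Finset.sum_comm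
      simp only [e1]
      have e2 : ∀ η : Fin q → Fin s, ∑ ζ : Fin q → Fin s, ∑ a, ∑ θ : Fin q → Fin s, cap G η ζ θ a =
          ∑ a, ∑ ζ : Fin q → Fin s, ∑ θ : Fin q → Fin s, cap G η ζ θ a := fun _ => Finset.sum_comm
      simp only [e2]
      exact Finset.sum_comm
    rw [e, Finset.mul_sum]
    calc ∑ a, (s : ℝ) ^ 3 * ∑ η : Fin q → Fin s, ∑ ζ : Fin q → Fin s, ∑ θ : Fin q → Fin s,
        cap G η ζ θ a ≤ ∑ _a : Fin q, (Q3 * ((q : ℝ) ^ 2 * Ms +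
          6 * q * Real.sqrt q * C * (s : ℝ) ^ 3)) := by
          apply Finset.sum_le_sum
          intro a _
          exact cap_sum_le s q hs G C hG0 hGC a
      _ = _ := by simp
  have hcap2 : ∑ η : Fin q → Fin s, ∑ ζ : Fin q → Fin s, ∑ θ : Fin q → Fin s,
      ∑ b, cap G ζ η θ b = ∑ η : Fin q → Fin s, ∑ ζ : Fin q → Fin s, ∑ θ : Fin q → Fin s,
      ∑ a, cap G η ζ θ a := Finset.sum_comm
  have hcap3 : ∑ η : Fin q → Fin s, ∑ ζ : Fin q → Fin s, ∑ θ : Fin q → Fin s,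
      ∑ c, cap G θ η ζ c = ∑ η : Fin q → Fin s, ∑ ζ : Fin q → Fin s, ∑ θ : Fin q → Fin s,
      ∑ a, cap G η ζ θ a := by
    have e1 : ∀ η : Fin q → Fin s, ∑ ζ : Fin q → Fin s, ∑ θ : Fin q → Fin s, ∑ c, cap G θ η ζ c =
        ∑ θ : Fin q → Fin s, ∑ ζ : Fin q → Fin s, ∑ c, cap G θ η ζ c := fun _ => Finset.sum_comm
    simp only [e1]
    exact Finset.sum_comm
  have hSeq : S = ∑ η : Fin q → Fin s, ∑ ζ : Fin q → Fin s, ∑ θ : Fin q → Fin s,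
        ∑ a, ∑ b, ∑ c, H (η a) (ζ b) (θ c) - 3 * ∑ η : Fin q → Fin s, ∑ ζ : Fin q → Fin s,
        ∑ θ : Fin q → Fin s, ∑ a, cap G η ζ θ a := by
    rw [hS]
    unfold gain
    simp only [Finset.sum_sub_distrib]
    rw [hcap2, hcap3]
    ring
  have hlow : Q3 * ((q : ℝ) ^ 3 * (ε / 2)) ≤ S := by
    have h1 : (s : ℝ) ^ 3 * (Q3 * ((q : ℝ) ^ 3 * (ε / 2))) ≤ (s : ℝ) ^ 3 * S := by
      rw [hSeq, mul_sub, H_sum_eq s q H]
      have h2 : (s : ℝ) ^ 3 * (3 * ∑ η : Fin q → Fin s, ∑ ζ : Fin q → Fin s,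
        ∑ θ : Fin q → Fin s, ∑ a, cap G η ζ θ a) ≤
        3 * (q * (Q3 * ((q : ℝ) ^ 2 * Ms + 6 * q * Real.sqrt q * C * (s : ℝ) ^ 3))) := by
        linarith
      have h3 : Q3 * ((q : ℝ) ^ 3 * (3 * Ms + ε * (s : ℝ) ^ 3)) ≤
          Q3 * ((q : ℝ) ^ 3 * ∑ j, ∑ k, ∑ l, H j k l) := by
        gcongr
      have h4 : 18 * (q : ℝ) ^ 2 * Real.sqrt q * C ≤ (q : ℝ) ^ 3 * (ε / 2) := by
        have hqq : (q : ℝ) = Real.sqrt q * Real.sqrt q := (Real.mul_self_sqrt hqR.le).symm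
        have h5 : (q : ℝ) ^ 3 * (ε / 2) = (q : ℝ) ^ 2 * Real.sqrt q * ((ε * Real.sqrt q) / 2) := by
          calc (q : ℝ) ^ 3 * (ε / 2) = (q : ℝ) ^ 2 * (q : ℝ) * (ε / 2) := by ring
            _ = (q : ℝ) ^ 2 * (Real.sqrt q * Real.sqrt q) * (ε / 2) := by rw [← hqq]
            _ = _ := by ring
        rw [h5]
        have h6 : 0 ≤ (q : ℝ) ^ 2 * Real.sqrt q := by positivity
        nlinarith
      have h7 : (s : ℝ) ^ 3 * (Q3 * (18 * (q : ℝ) ^ 2 * Real.sqrt q * C)) ≤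
          (s : ℝ) ^ 3 * (Q3 * ((q : ℝ) ^ 3 * (ε / 2))) := by
        gcongr
      nlinarith [h2, h3, h7]
    exact le_of_mul_le_mul_left h1 (by positivity)
  -- upper bound
  have hcap0 : ∀ (η ζ θ : Fin q → Fin s) (a : Fin q), 0 ≤ cap G η ζ θ a := by
    intro η ζ θ a
    exact M3_nonneg fun α => Finset.sum_nonneg fun b _ => Finset.sum_nonneg fun c _ => hG0 _ _ _ _
  have hup : ∀ η ζ θ : Fin q → Fin s, gain G H η ζ θ ≤ (q : ℝ) ^ 3 * C' := by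
    intro η ζ θ
    unfold gain
    have h1 : ∑ a, ∑ b, ∑ c, H (η a) (ζ b) (θ c) ≤ (q : ℝ) ^ 3 * C' := by
      calc ∑ a, ∑ b, ∑ c, H (η a) (ζ b) (θ c) ≤ ∑ _a : Fin q, ∑ _b : Fin q, ∑ _c : Fin q, C' := by
            gcongr
            exact hHC _ _ _
        _ = (q : ℝ) ^ 3 * C' := by
            simp only [Finset.sum_const, Finset.card_univ, Fintype.card_fin, nsmul_eq_mul]
            ring
    have h2 := Finset.sum_nonneg (s := univ) (f := fun a => cap G η ζ θ a) fun a _ => hcap0 _ _ _ a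
    have h3 := Finset.sum_nonneg (s := univ) (f := fun a => cap G ζ η θ a) fun a _ => hcap0 _ _ _ a
    have h4 := Finset.sum_nonneg (s := univ) (f := fun a => cap G θ η ζ a) fun a _ => hcap0 _ _ _ a
    linarith
  set A := univ.filter (fun ω : (Fin q → Fin s) × (Fin q → Fin s) × (Fin q → Fin s) =>
          (q : ℝ) ^ 3 * (ε / 4) ≤ gain G H ω.1 ω.2.1 ω.2.2) with hA
  have hSprod : S = ∑ ω : (Fin q → Fin s) × (Fin q → Fin s) × (Fin q → Fin s),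
      gain G H ω.1 ω.2.1 ω.2.2 := by
    rw [hS, Fintype.sum_prod_type]
    apply Finset.sum_congr rfl
    intro η _
    rw [Fintype.sum_prod_type]
  have hSup : S ≤ A.card * ((q : ℝ) ^ 3 * C') + Q3 * ((q : ℝ) ^ 3 * (ε / 4)) := by
    rw [hSprod, ← Finset.sum_filter_add_sum_filter_not univ
      (fun ω : (Fin q → Fin s) × (Fin q → Fin s) × (Fin q → Fin s) =>
          (q : ℝ) ^ 3 * (ε / 4) ≤ gain G H ω.1 ω.2.1 ω.2.2)]
    apply add_le_add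
    · rw [← hA]
      calc ∑ ω ∈ A, gain G H ω.1 ω.2.1 ω.2.2 ≤ ∑ _ω ∈ A, (q : ℝ) ^ 3 * C' := by
            apply Finset.sum_le_sum
            intro ω _
            exact hup _ _ _
        _ = _ := by simp
    · calc ∑ ω ∈ univ.filter (fun ω : (Fin q → Fin s) × (Fin q → Fin s) × (Fin q → Fin s) =>
          ¬ (q : ℝ) ^ 3 * (ε / 4) ≤ gain G H ω.1 ω.2.1 ω.2.2), gain G H ω.1 ω.2.1 ω.2.2 ≤
          ∑ _ω ∈ univ.filter (fun ω : (Fin q → Fin s) × (Fin q → Fin s) × (Fin q → Fin s) =>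
          ¬ (q : ℝ) ^ 3 * (ε / 4) ≤ gain G H ω.1 ω.2.1 ω.2.2), (q : ℝ) ^ 3 * (ε / 4) := by
            apply Finset.sum_le_sum
            intro ω hω
            exact (not_le.1 (mem_filter.1 hω).2).le
        _ ≤ ∑ _ω : (Fin q → Fin s) × (Fin q → Fin s) × (Fin q → Fin s), (q : ℝ) ^ 3 * (ε / 4) := by
            apply Finset.sum_le_sum_of_subset_of_nonneg (filter_subset _ _)
            intro _ _ _
            positivity
        _ = _ := by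
            simp only [Finset.sum_const, Finset.card_univ, Fintype.card_prod, Fintype.card_fun,
              Fintype.card_fin, nsmul_eq_mul, Nat.cast_mul, Nat.cast_pow]
            rw [hQ3]
            ring
  have hfin : Q3 * ((q : ℝ) ^ 3 * (ε / 4)) ≤ A.card * ((q : ℝ) ^ 3 * C') := by
    nlinarith [hlow, hSup]
  rw [div_mul_eq_mul_div, div_le_iff₀ (by positivity)]
  have hq3 : (0 : ℝ) < (q : ℝ) ^ 3 := by positivity
  have : (q : ℝ) ^ 3 * (ε * Q3) ≤ (q : ℝ) ^ 3 * (A.card * (4 * C')) := by nlinarith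
  exact le_of_mul_le_mul_left this hq3

end Res12
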