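import Pool.Agent.Helper12.Res.Split
import Pool.Agent.Helper12.Res.Samp

/-!
The load kernels and their sums.
-/

namespace Res12

open Finset

set_option linter.unusedSectionVars false

variable {V : Type} [Fintype V] [DecidableEq V]

section kern
variable (τ : V → V → V → ℝ) {s : ℕ} (x : Fin s → Fin 3 → V)

noncomputable def m2 (u v : V) : ℝ := ∑ w ∈ (CV x)ᶜ, τ u v w

noncomputable def m1 (u : V) : ℝ := ∑ w ∈ (CV x)ᶜ, ∑ w' ∈ (CV x)ᶜ, τ u w w'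

noncomputable def Gk (α : Fin 3) (j k l : Fin s) : ℝ :=
  ∑ β, ∑ γ, τ (x j α) (x k β) (x l γ) + (∑ β, m2 τ x (x j α) (x k β)) / s +
    (∑ γ, m2 τ x (x j α) (x l γ)) / s + m1 τ x (x j α) / (s : ℝ) ^ 2

noncomputable def Hk (j k l : Fin s) : ℝ :=
  ∑ α, ∑ β, ∑ γ, τ (x j α) (x k β) (x l γ) + (∑ α, ∑ β, m2 τ x (x j α) (x k β)) / s +
    (∑ α, ∑ γ, m2 τ x (x j α) (x l γ)) / s + (∑ β, ∑ γ, m2 τ x (x k β) (x l γ)) / s +
    (∑ α, m1 τ x (x j α) + ∑ β, m1 τ x (x k β) + ∑ γ, m1 τ x (x l γ)) / (s : ℝ) ^ 2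

variable {τ} {x}

theorem sum_Gk (hs : 0 < s) (hτ : Sym3 τ) {F : Finset (Finset V)} (hx : Blk F x) (α : Fin 3)
    (j : Fin s) : ∑ k, ∑ l, Gk τ x α j k l = ∑ b, ∑ c, τ (x j α) b c := by
  have hs' : (s : ℝ) ≠ 0 := by
    have : (0 : ℝ) < s := by exact_mod_cast hs
    exact this.ne'
  rw [split2 hτ (CV x) (x j α)]
  have e1 : ∑ b ∈ CV x, ∑ c ∈ CV x, τ (x j α) b c = ∑ k, ∑ l, ∑ β, ∑ γ, τ (x j α) (x k β) (x l γ) := by
    rw [sum_CV hx]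
    apply Finset.sum_congr rfl
    intro k _
    have h2 : ∀ β, ∑ c ∈ CV x, τ (x j α) (x k β) c = ∑ l, ∑ γ, τ (x j α) (x k β) (x l γ) :=
      fun β => sum_CV hx _
    simp only [h2]
    exact Finset.sum_comm
  have e2 : ∑ b ∈ CV x, ∑ c ∈ (CV x)ᶜ, τ (x j α) b c = ∑ k, ∑ β, m2 τ x (x j α) (x k β) := by
    rw [sum_CV hx]
    rfl
  have e3 : ∑ b ∈ (CV x)ᶜ, ∑ c ∈ (CV x)ᶜ, τ (x j α) b c = m1 τ x (x j α) := rfl
  rw [e1, e2, e3]
  unfold Gk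
  simp only [Finset.sum_add_distrib, Finset.sum_const, Finset.card_univ, Fintype.card_fin,
    nsmul_eq_mul, ← Finset.sum_div, ← Finset.mul_sum]
  field_simp
  ring

theorem sum_Hk (hs : 0 < s) (hτ : Sym3 τ) {F : Finset (Finset V)} (hx : Blk F x)
    (hW : S3 τ (CV x)ᶜ (CV x)ᶜ (CV x)ᶜ = 0) :
    ∑ j, ∑ k, ∑ l, Hk τ x j k l = S3 τ univ univ univ := by
  have hs' : (s : ℝ) ≠ 0 := by
    have : (0 : ℝ) < s := by exact_mod_cast hs
    exact this.ne'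
  rw [split3 hτ (CV x), hW]
  have e1 : S3 τ (CV x) (CV x) (CV x) =
      ∑ j, ∑ k, ∑ l, ∑ α, ∑ β, ∑ γ, τ (x j α) (x k β) (x l γ) := by
    unfold S3
    rw [sum_CV hx]
    apply Finset.sum_congr rfl
    intro j _
    have h1 : ∀ α, ∑ b ∈ CV x, ∑ c ∈ CV x, τ (x j α) b c =
        ∑ k, ∑ l, ∑ β, ∑ γ, τ (x j α) (x k β) (x l γ) := by
      intro α
      rw [sum_CV hx]
      apply Finset.sum_congr rfl
      intro k _
      have h2 : ∀ β, ∑ c ∈ CV x, τ (x j α) (x k β) c = ∑ l, ∑ γ, τ (x j α) (x k β) (x l γ) :=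
        fun β => sum_CV hx _
      simp only [h2]
      exact Finset.sum_comm
    simp only [h1]
    rw [Finset.sum_comm]
    apply Finset.sum_congr rfl
    intro k _
    rw [Finset.sum_comm]
  have e2 : S3 τ (CV x) (CV x) (CV x)ᶜ = ∑ j, ∑ k, ∑ α, ∑ β, m2 τ x (x j α) (x k β) := by
    unfold S3
    rw [sum_CV hx]
    apply Finset.sum_congr rfl
    intro j _
    have h2 : ∀ α, ∑ b ∈ CV x, ∑ c ∈ (CV x)ᶜ, τ (x j α) b c = ∑ k, ∑ β, m2 τ x (x j α) (x k β) :=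
      fun α => sum_CV hx _
    simp only [h2]
    exact Finset.sum_comm
  have e3 : S3 τ (CV x) (CV x)ᶜ (CV x)ᶜ = ∑ j, ∑ α, m1 τ x (x j α) := by
    unfold S3
    rw [sum_CV hx]
    rfl
  rw [e1, e2, e3]
  unfold Hk
  simp only [Finset.sum_add_distrib, Finset.sum_const, Finset.card_univ, Fintype.card_fin,
    nsmul_eq_mul, ← Finset.sum_div, ← Finset.mul_sum]
  field_simp
  ring

theorem m2_nonneg (h0 : ∀ a b c, 0 ≤ τ a b c) (u v : V) : 0 ≤ m2 τ x u v :=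
  Finset.sum_nonneg fun _ _ => h0 _ _ _

theorem m1_nonneg (h0 : ∀ a b c, 0 ≤ τ a b c) (u : V) : 0 ≤ m1 τ x u :=
  Finset.sum_nonneg fun _ _ => Finset.sum_nonneg fun _ _ => h0 _ _ _

theorem Gk_nonneg (h0 : ∀ a b c, 0 ≤ τ a b c) (α : Fin 3) (j k l : Fin s) :
    0 ≤ Gk τ x α j k l := by
  unfold Gk
  have h1 : 0 ≤ ∑ β, ∑ γ, τ (x j α) (x k β) (x l γ) :=
    Finset.sum_nonneg fun _ _ => Finset.sum_nonneg fun _ _ => h0 _ _ _
  have h2 : 0 ≤ (∑ β, m2 τ x (x j α) (x k β)) / s :=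
    div_nonneg (Finset.sum_nonneg fun _ _ => m2_nonneg h0 _ _) (Nat.cast_nonneg _)
  have h3 : 0 ≤ (∑ γ, m2 τ x (x j α) (x l γ)) / s :=
    div_nonneg (Finset.sum_nonneg fun _ _ => m2_nonneg h0 _ _) (Nat.cast_nonneg _)
  have h4 : 0 ≤ m1 τ x (x j α) / (s : ℝ) ^ 2 := div_nonneg (m1_nonneg h0 _) (by positivity)
  linarith

theorem Hk_nonneg (h0 : ∀ a b c, 0 ≤ τ a b c) (j k l : Fin s) : 0 ≤ Hk τ x j k l := by
  unfold Hk
  have h1 : 0 ≤ ∑ α, ∑ β, ∑ γ, τ (x j α) (x k β) (x l γ) :=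
    Finset.sum_nonneg fun _ _ => Finset.sum_nonneg fun _ _ => Finset.sum_nonneg fun _ _ => h0 _ _ _
  have h2 : ∀ j k : Fin s, 0 ≤ (∑ α, ∑ β, m2 τ x (x j α) (x k β)) / s := fun j k =>
    div_nonneg (Finset.sum_nonneg fun _ _ => Finset.sum_nonneg fun _ _ => m2_nonneg h0 _ _)
      (Nat.cast_nonneg _)
  have h3 : ∀ j : Fin s, 0 ≤ ∑ α, m1 τ x (x j α) := fun j =>
    Finset.sum_nonneg fun _ _ => m1_nonneg h0 _
  have h4 : 0 ≤ (∑ α, m1 τ x (x j α) + ∑ β, m1 τ x (x k β) + ∑ γ, m1 τ x (x l γ)) /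
      (s : ℝ) ^ 2 := div_nonneg (by linarith [h3 j, h3 k, h3 l]) (by positivity)
  linarith [h2 j k, h2 j l, h2 k l]

/-- upper bounds for the kernels -/
theorem Gk_le (hs : 0 < s) (h1 : ∀ a b c, τ a b c ≤ 1) (h2 : ∀ u v, m2 τ x u v ≤ 3 * s)
    (h3 : ∀ u, m1 τ x u ≤ 18 * (s : ℝ) ^ 2) (α : Fin 3) (j k l : Fin s) :
    Gk τ x α j k l ≤ 45 := by
  have hs' : (0 : ℝ) < s := by exact_mod_cast hs
  unfold Gk
  have e1 : ∑ β, ∑ γ, τ (x j α) (x k β) (x l γ) ≤ 9 := by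
    calc ∑ β, ∑ γ, τ (x j α) (x k β) (x l γ) ≤ ∑ _β : Fin 3, ∑ _γ : Fin 3, (1 : ℝ) := by
          gcongr
          exact h1 _ _ _
      _ = 9 := by norm_num
  have e2 : ∀ k : Fin s, (∑ β, m2 τ x (x j α) (x k β)) / s ≤ 9 := by
    intro k
    rw [div_le_iff₀ hs']
    calc ∑ β, m2 τ x (x j α) (x k β) ≤ ∑ _β : Fin 3, (3 * (s : ℝ)) := by
          gcongr
          exact h2 _ _
      _ = 9 * s := by
          simp only [Finset.sum_const, Finset.card_univ, Fintype.card_fin, nsmul_eq_mul]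
          push_cast
          ring
  have e3 : m1 τ x (x j α) / (s : ℝ) ^ 2 ≤ 18 := by
    rw [div_le_iff₀ (by positivity)]
    exact h3 _
  linarith [e2 k, e2 l]

theorem Hk_le (hs : 0 < s) (h1 : ∀ a b c, τ a b c ≤ 1) (h2 : ∀ u v, m2 τ x u v ≤ 3 * s)
    (h3 : ∀ u, m1 τ x u ≤ 18 * (s : ℝ) ^ 2) (j k l : Fin s) :
    Hk τ x j k l ≤ 270 := by
  have hs' : (0 : ℝ) < s := by exact_mod_cast hs
  unfold Hk
  have e1 : ∑ α, ∑ β, ∑ γ, τ (x j α) (x k β) (x l γ) ≤ 27 := by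
    calc ∑ α, ∑ β, ∑ γ, τ (x j α) (x k β) (x l γ) ≤
          ∑ _α : Fin 3, ∑ _β : Fin 3, ∑ _γ : Fin 3, (1 : ℝ) := by
          gcongr
          exact h1 _ _ _
      _ = 27 := by norm_num
  have e2 : ∀ j k : Fin s, (∑ α, ∑ β, m2 τ x (x j α) (x k β)) / s ≤ 27 := by
    intro j k
    rw [div_le_iff₀ hs']
    calc ∑ α, ∑ β, m2 τ x (x j α) (x k β) ≤ ∑ _α : Fin 3, ∑ _β : Fin 3, (3 * (s : ℝ)) := by
          gcongr
          exact h2 _ _
      _ = 27 * s := by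
          simp only [Finset.sum_const, Finset.card_univ, Fintype.card_fin, nsmul_eq_mul]
          push_cast
          ring
  have e3 : ∀ j : Fin s, ∑ α, m1 τ x (x j α) ≤ 54 * (s : ℝ) ^ 2 := by
    intro j
    calc ∑ α, m1 τ x (x j α) ≤ ∑ _α : Fin 3, (18 * (s : ℝ) ^ 2) := by
          gcongr
          exact h3 _
      _ = 54 * (s : ℝ) ^ 2 := by
          simp only [Finset.sum_const, Finset.card_univ, Fintype.card_fin, nsmul_eq_mul]
          push_cast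
          ring
  have e4 : (∑ α, m1 τ x (x j α) + ∑ β, m1 τ x (x k β) + ∑ γ, m1 τ x (x l γ)) /
      (s : ℝ) ^ 2 ≤ 162 := by
    rw [div_le_iff₀ (by positivity)]
    linarith [e3 j, e3 k, e3 l]
  linarith [e2 j k, e2 j l, e2 k l]

end kern

/-! ### moves -/

section moves
variable (τ : V → V → V → ℝ) {s q : ℕ} (x : Fin s → Fin 3 → V)

/-- the weight of a move -/
noncomputable def yv (η ζ θ : Fin q → Fin s) :
    Option (Fin q × Fin 3) → Option (Fin q × Fin 3) → Option (Fin q × Fin 3) → ℝ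
  | some A, some B, some C =>
      τ (x (η A.1) A.2) (x (ζ B.1) B.2) (x (θ C.1) C.2) / (q : ℝ) ^ 2
  | some A, some B, none => m2 τ x (x (η A.1) A.2) (x (ζ B.1) B.2) / (s * q)
  | some A, none, some C => m2 τ x (x (η A.1) A.2) (x (θ C.1) C.2) / (s * q)
  | none, some B, some C => m2 τ x (x (ζ B.1) B.2) (x (θ C.1) C.2) / (s * q)
  | some A, none, none => m1 τ x (x (η A.1) A.2) / (s : ℝ) ^ 2
  | none, some B, none => m1 τ x (x (ζ B.1) B.2) / (s : ℝ) ^ 2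
  | none, none, some C => m1 τ x (x (θ C.1) C.2) / (s : ℝ) ^ 2
  | none, none, none => 0

variable {τ} {x}

theorem yv_nonneg (h0 : ∀ a b c, 0 ≤ τ a b c) (η ζ θ : Fin q → Fin s)
    (o₀ o₁ o₂ : Option (Fin q × Fin 3)) : 0 ≤ yv τ x η ζ θ o₀ o₁ o₂ := by
  have h1 := m2_nonneg (x := x) h0
  have h2 := m1_nonneg (x := x) h0
  rcases o₀ with _ | A <;> rcases o₁ with _ | B <;> rcases o₂ with _ | C <;> simp only [yv]
  · exact le_rfl
  · exact div_nonneg (h2 _) (by positivity)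
  · exact div_nonneg (h2 _) (by positivity)
  · exact div_nonneg (h1 _ _) (by positivity)
  · exact div_nonneg (h2 _) (by positivity)
  · exact div_nonneg (h1 _ _) (by positivity)
  · exact div_nonneg (h1 _ _) (by positivity)
  · exact div_nonneg (h0 _ _ _) (by positivity)

theorem m2_symm (hτ : Sym3 τ) (u v : V) : m2 τ x u v = m2 τ x v u :=
  Finset.sum_congr rfl fun _ _ => hτ.s12 _ _ _

theorem load0 (hs : 0 < s) (hq : 0 < q) (η ζ θ : Fin q → Fin s) (a : Fin q) (α : Fin 3) :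
    ∑ o₁, ∑ o₂, yv τ x η ζ θ (some (a, α)) o₁ o₂ =
      (∑ b, ∑ c, Gk τ x α (η a) (ζ b) (θ c)) / (q : ℝ) ^ 2 := by
  have hq' : (q : ℝ) ≠ 0 := by
    have : (0 : ℝ) < q := by exact_mod_cast hq
    exact this.ne'
  have hs' : (s : ℝ) ≠ 0 := by
    have : (0 : ℝ) < s := by exact_mod_cast hs
    exact this.ne'
  simp only [Fintype.sum_option, yv, Fintype.sum_prod_type]
  unfold Gk
  have e1 : ∑ b, ∑ β, ∑ c, ∑ γ, τ (x (η a) α) (x (ζ b) β) (x (θ c) γ) =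
      ∑ b, ∑ c, ∑ β, ∑ γ, τ (x (η a) α) (x (ζ b) β) (x (θ c) γ) := by
    apply Finset.sum_congr rfl
    intro b _
    exact Finset.sum_comm
  simp only [Finset.sum_add_distrib, Finset.sum_const, Finset.card_univ, Fintype.card_fin,
    nsmul_eq_mul, ← Finset.sum_div, ← Finset.mul_sum, e1]
  field_simp
  ring

theorem load1 (hτ : Sym3 τ) (hs : 0 < s) (hq : 0 < q) (η ζ θ : Fin q → Fin s) (b : Fin q)
    (β : Fin 3) :
    ∑ o₀, ∑ o₂, yv τ x η ζ θ o₀ (some (b, β)) o₂ =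
      (∑ a, ∑ c, Gk τ x β (ζ b) (η a) (θ c)) / (q : ℝ) ^ 2 := by
  rw [← load0 hs hq ζ η θ b β]
  apply Finset.sum_congr rfl
  intro o₀ _
  apply Finset.sum_congr rfl
  intro o₂ _
  rcases o₀ with _ | A <;> rcases o₂ with _ | C <;> simp only [yv]
  · rw [m2_symm hτ]
  · rw [hτ.s12]

theorem load2 (hτ : Sym3 τ) (hs : 0 < s) (hq : 0 < q) (η ζ θ : Fin q → Fin s) (c : Fin q)
    (γ : Fin 3) :
    ∑ o₀, ∑ o₁, yv τ x η ζ θ o₀ o₁ (some (c, γ)) =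
      (∑ a, ∑ b, Gk τ x γ (θ c) (η a) (ζ b)) / (q : ℝ) ^ 2 := by
  rw [← load0 hs hq θ η ζ c γ]
  apply Finset.sum_congr rfl
  intro o₀ _
  apply Finset.sum_congr rfl
  intro o₁ _
  rcases o₀ with _ | A <;> rcases o₁ with _ | B <;> simp only [yv]
  · rw [m2_symm hτ]
  · rw [m2_symm hτ]
  · rw [hτ.s12 (x (θ c) γ), hτ.s23 (x (η A.1) A.2)]

theorem total_yv (hs : 0 < s) (hq : 0 < q) (η ζ θ : Fin q → Fin s) :
    ∑ o₀, ∑ o₁, ∑ o₂, yv τ x η ζ θ o₀ o₁ o₂ =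
      (∑ a, ∑ b, ∑ c, Hk τ x (η a) (ζ b) (θ c)) / (q : ℝ) ^ 2 := by
  have hq' : (q : ℝ) ≠ 0 := by
    have : (0 : ℝ) < q := by exact_mod_cast hq
    exact this.ne'
  have hs' : (s : ℝ) ≠ 0 := by
    have : (0 : ℝ) < s := by exact_mod_cast hs
    exact this.ne'
  simp only [Fintype.sum_option, yv, Fintype.sum_prod_type]
  unfold Hk
  have e1 : ∑ a, ∑ α, ∑ b, ∑ β, ∑ c, ∑ γ, τ (x (η a) α) (x (ζ b) β) (x (θ c) γ) =
      ∑ a, ∑ b, ∑ c, ∑ α, ∑ β, ∑ γ, τ (x (η a) α) (x (ζ b) β) (x (θ c) γ) := by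
    apply Finset.sum_congr rfl
    intro a _
    rw [Finset.sum_comm]
    apply Finset.sum_congr rfl
    intro b _
    have : ∀ α, ∑ β, ∑ c, ∑ γ, τ (x (η a) α) (x (ζ b) β) (x (θ c) γ) =
        ∑ c, ∑ β, ∑ γ, τ (x (η a) α) (x (ζ b) β) (x (θ c) γ) := fun α => Finset.sum_comm
    simp only [this]
    exact Finset.sum_comm
  have e2 : ∀ (η ζ : Fin q → Fin s), ∑ a, ∑ α, ∑ b, ∑ β, m2 τ x (x (η a) α) (x (ζ b) β) =
      ∑ a, ∑ b, ∑ α, ∑ β, m2 τ x (x (η a) α) (x (ζ b) β) := by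
    intro η ζ
    apply Finset.sum_congr rfl
    intro a _
    exact Finset.sum_comm
  simp only [Finset.sum_add_distrib, Finset.sum_const, Finset.card_univ, Fintype.card_fin,
    nsmul_eq_mul, ← Finset.sum_div, ← Finset.mul_sum, e1, e2]
  field_simp
  ring

end moves

end Res12
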