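import Pool.Agent.Helper12.Res.Defs

/-!
The realisation lemma for 2-resilient 3-graphs (problem MP_d365ae_co).
-/

namespace Res12

open Finset

set_option linter.unusedSectionVars false

variable {V : Type} [Fintype V] [DecidableEq V]

/-- `x` labels the `3 s` vertices of `s` pairwise disjoint edges of `F`. -/
structure Blk (F : Finset (Finset V)) {s : ℕ} (x : Fin s → Fin 3 → V) : Prop where
  inj : Function.Injective (fun p : Fin s × Fin 3 => x p.1 p.2)
  mem : ∀ i, ({x i 0, x i 1, x i 2} : Finset V) ∈ F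

/-- The set of covered vertices. -/
def CV {s : ℕ} (x : Fin s → Fin 3 → V) : Finset V :=
  univ.image (fun p : Fin s × Fin 3 => x p.1 p.2)

/-- `S` is `K`-robust: it extends to edges with trace exactly `S` on `CV x` avoiding any `K`
given outside vertices. -/
def Robust (F : Finset (Finset V)) {s : ℕ} (x : Fin s → Fin 3 → V) (K : ℕ) (S : Finset V) : Prop :=
  ∀ Z : Finset V, Z.card ≤ K → Disjoint Z (CV x) → ∃ e ∈ F, e ∩ CV x = S ∧ Disjoint e Z

theorem mem_CV {s : ℕ} (x : Fin s → Fin 3 → V) (i : Fin s) (α : Fin 3) : x i α ∈ CV x :=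
  mem_image.2 ⟨(i, α), mem_univ _, rfl⟩

theorem mem_blk {s : ℕ} (x : Fin s → Fin 3 → V) (i : Fin s) {v : V} :
    v ∈ ({x i 0, x i 1, x i 2} : Finset V) ↔ ∃ α, v = x i α := by
  simp only [mem_insert, mem_singleton]
  constructor
  · rintro (h | h | h)
    · exact ⟨0, h⟩
    · exact ⟨1, h⟩
    · exact ⟨2, h⟩
  · rintro ⟨α, h⟩
    fin_cases α
    · exact Or.inl h
    · exact Or.inr (Or.inl h)
    · exact Or.inr (Or.inr h)

/-- Greedy choice of pairwise disjoint edges with prescribed pairwise disjoint traces. -/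
theorem greedy {s : ℕ} {F : Finset (Finset V)} (h3 : ∀ e ∈ F, e.card = 3)
    (x : Fin s → Fin 3 → V) {κ : Type} [Fintype κ] [DecidableEq κ] (S : κ → Finset V)
    (hS : ∀ l l', l ≠ l' → Disjoint (S l) (S l'))
    (hrob : ∀ l, Robust F x (3 * Fintype.card κ) (S l)) (A : Finset κ) :
    ∃ e : κ → Finset V, (∀ l ∈ A, e l ∈ F ∧ e l ∩ CV x = S l) ∧
      ∀ l ∈ A, ∀ l' ∈ A, l ≠ l' → Disjoint (e l) (e l') := by
  classical
  induction A using Finset.induction_on with
  | empty => exact ⟨fun _ => ∅, by simp, by simp⟩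
  | insert a A ha ih =>
    obtain ⟨e, he1, he2⟩ := ih
    have hZ : (A.biUnion e \ CV x).card ≤ 3 * Fintype.card κ := by
      calc (A.biUnion e \ CV x).card ≤ (A.biUnion e).card := card_le_card sdiff_subset
        _ ≤ ∑ l ∈ A, (e l).card := card_biUnion_le
        _ = ∑ l ∈ A, 3 := sum_congr rfl (fun l hl => h3 _ (he1 l hl).1)
        _ = A.card * 3 := by simp
        _ ≤ Fintype.card κ * 3 := Nat.mul_le_mul_right _ (card_le_univ A)
        _ = 3 * Fintype.card κ := by ring
    obtain ⟨e', he'F, he'S, he'Z⟩ := hrob a (A.biUnion e \ CV x) hZ sdiff_disjoint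
    have key : ∀ l ∈ A, Disjoint e' (e l) := by
      intro l hl
      rw [Finset.disjoint_left]
      intro v hv hv'
      by_cases hc : v ∈ CV x
      · have h1 : v ∈ S a := by rw [← he'S]; exact mem_inter.2 ⟨hv, hc⟩
        have h2 : v ∈ S l := by rw [← (he1 l hl).2]; exact mem_inter.2 ⟨hv', hc⟩
        have hne : a ≠ l := by
          rintro rfl
          exact ha hl
        exact Finset.disjoint_left.1 (hS a l hne) h1 h2
      · exact Finset.disjoint_left.1 he'Z hv
          (mem_sdiff.2 ⟨mem_biUnion.2 ⟨l, hl, hv'⟩, hc⟩)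
    refine ⟨Function.update e a e', ?_, ?_⟩
    · intro l hl
      by_cases hla : l = a
      · subst hla
        simp only [Function.update_self]
        exact ⟨he'F, he'S⟩
      · rw [Function.update_of_ne hla]
        exact he1 l ((mem_insert.1 hl).resolve_left hla)
    · intro l hl l' hl' hne
      by_cases hla : l = a
      · subst hla
        have hl'a : l' ≠ l := fun h => hne h.symm
        rw [Function.update_self, Function.update_of_ne hl'a]
        exact key l' ((mem_insert.1 hl').resolve_left hl'a)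
      · have hlA := (mem_insert.1 hl).resolve_left hla
        by_cases hl'a : l' = a
        · subst hl'a
          rw [Function.update_self, Function.update_of_ne hla]
          exact (key l hlA).symm
        · rw [Function.update_of_ne hla, Function.update_of_ne hl'a]
          exact he2 l hlA l' ((mem_insert.1 hl').resolve_left hl'a) hne

theorem realize {s : ℕ} {F : Finset (Finset V)} (h3 : ∀ e ∈ F, e.card = 3)
    (hle : ∀ P ⊆ F, IsMatching P → P.card ≤ s)
    {x : Fin s → Fin 3 → V} (hx : Blk F x) {ι κ : Type} [Fintype ι] [DecidableEq ι]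
    [Fintype κ] [DecidableEq κ]
    (supp : κ → Finset (ι × Fin 3)) (I J : ι → Finset (Fin s)) (hJI : ∀ c, J c ⊆ I c)
    (hI : ∀ c, (I c).Nonempty)
    (hdis : ∀ c d, c ≠ d → Disjoint (I c) (I d))
    (hdist : ∀ l, ∀ p ∈ supp l, ∀ p' ∈ supp l, p.1 = p'.1 → p = p')
    (hload : ∀ c α, (univ.filter (fun l => (c, α) ∈ supp l)).card ≤ (J c).card)
    (hrob : ∀ l, ∀ ω : ι → Fin s, (∀ c, ω c ∈ I c) →
      Robust F x (3 * Fintype.card κ) ((supp l).image (fun p => x (ω p.1) p.2))) :
    Fintype.card κ ≤ ∑ c, (J c).card := by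
  classical
  -- the injections
  have hf : ∀ c α, ∃ g : κ → Fin s, (∀ l, (c, α) ∈ supp l → g l ∈ J c) ∧
      ∀ l l', (c, α) ∈ supp l → (c, α) ∈ supp l' → g l = g l' → l = l' := by
    intro c α
    have hcard : Fintype.card ↥(univ.filter (fun l => (c, α) ∈ supp l)) ≤
        Fintype.card ↥(J c) := by
      rw [Fintype.card_coe, Fintype.card_coe]
      exact hload c α
    obtain ⟨emb⟩ := Function.Embedding.nonempty_of_card_le hcard
    refine ⟨fun l => if h : (c, α) ∈ supp l then
      (emb ⟨l, mem_filter.2 ⟨mem_univ _, h⟩⟩ : Fin s) else (hI c).choose, ?_, ?_⟩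
    · intro l hl
      simp only [hl, dif_pos]
      exact (emb ⟨l, _⟩).2
    · intro l l' hl hl' hg
      simp only [hl, hl', dif_pos] at hg
      have h1 := emb.injective (Subtype.ext hg)
      exact congrArg Subtype.val h1
  choose f hfJ hfinj using hf
  -- the traces
  let S : κ → Finset V := fun l => (supp l).image (fun p => x (f p.1 p.2 l) p.2)
  have hSmem : ∀ l v, v ∈ S l → ∃ c α, (c, α) ∈ supp l ∧ v = x (f c α l) α := by
    intro l v hv
    obtain ⟨p, hp, hpv⟩ := mem_image.1 hv
    exact ⟨p.1, p.2, hp, hpv.symm⟩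
  have hinj : ∀ i α j β, x i α = x j β → i = j ∧ α = β := by
    intro i α j β h
    have := hx.inj (a₁ := (i, α)) (a₂ := (j, β)) h
    exact ⟨congrArg Prod.fst this, congrArg Prod.snd this⟩
  have hSdis : ∀ l l', l ≠ l' → Disjoint (S l) (S l') := by
    intro l l' hne
    rw [Finset.disjoint_left]
    intro v hv hv'
    obtain ⟨c, α, hc, rfl⟩ := hSmem l v hv
    obtain ⟨c', α', hc', h⟩ := hSmem l' _ hv'
    obtain ⟨h1, h2⟩ := hinj _ _ _ _ h
    subst h2
    have hcc : c = c' := by
      by_contra hcc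
      exact Finset.disjoint_left.1 (hdis c c' hcc) (hJI c (hfJ c α l hc))
        (h1 ▸ hJI c' (hfJ c' α l' hc'))
    subst hcc
    exact hne (hfinj c α l l' hc hc' h1)
  have hSrob : ∀ l, Robust F x (3 * Fintype.card κ) (S l) := by
    intro l
    let ω : ι → Fin s := fun c => if h : ∃ α, (c, α) ∈ supp l then f c h.choose l
      else (hI c).choose
    have hω : ∀ c, ω c ∈ I c := by
      intro c
      by_cases h : ∃ α, (c, α) ∈ supp l
      · simp only [ω, h, dif_pos]
        exact hJI c (hfJ c _ l h.choose_spec)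
      · simp only [ω, h, dif_neg, not_false_eq_true]
        exact (hI c).choose_spec
    have hS : S l = (supp l).image (fun p => x (ω p.1) p.2) := by
      apply image_congr
      intro p hp
      have h : ∃ α, (p.1, α) ∈ supp l := ⟨p.2, hp⟩
      have h2 := hdist l (p.1, h.choose) h.choose_spec p hp rfl
      have h3 : h.choose = p.2 := congrArg Prod.snd h2
      have h4 : ω p.1 = f p.1 p.2 l := by
        simp only [ω, h, dif_pos]
        rw [h3]
      simp only [h4]
    rw [hS]
    exact hrob l ω hω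
  obtain ⟨e, he1, he2⟩ := greedy h3 x S hSdis hSrob univ
  -- the union of the `J c`
  set W : Finset (Fin s) := univ.biUnion J with hW
  let blk : Fin s → Finset V := fun i => {x i 0, x i 1, x i 2}
  have hcross : ∀ l, ∀ i ∈ Wᶜ, Disjoint (e l) (blk i) := by
    intro l i hi
    rw [Finset.disjoint_left]
    intro v hv hv'
    obtain ⟨β, rfl⟩ := (mem_blk x i).1 hv'
    have h1 : x i β ∈ S l := by
      rw [← (he1 l (mem_univ _)).2]
      exact mem_inter.2 ⟨hv, mem_CV x i β⟩
    obtain ⟨c, α, hc, h⟩ := hSmem l _ h1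
    obtain ⟨h2, h3⟩ := hinj _ _ _ _ h
    rw [mem_compl] at hi
    apply hi
    rw [hW, mem_biUnion]
    exact ⟨c, mem_univ _, h2 ▸ hfJ c α l hc⟩
  have hblk : ∀ i j, i ≠ j → Disjoint (blk i) (blk j) := by
    intro i j hij
    rw [Finset.disjoint_left]
    intro v hv hv'
    obtain ⟨α, rfl⟩ := (mem_blk x i).1 hv
    obtain ⟨β, h⟩ := (mem_blk x j).1 hv'
    exact hij (hinj _ _ _ _ h).1
  have hne_of_disj : ∀ a b : Finset V, a ∈ F → Disjoint a b → a ≠ b := by
    intro a b ha hab h
    subst h
    rw [disjoint_self] at hab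
    have := h3 a ha
    rw [hab] at this
    simp at this
  have heinj : Function.Injective e := by
    intro l l' h
    by_contra hne
    exact hne_of_disj _ _ (he1 l (mem_univ _)).1 (he2 l (mem_univ _) l' (mem_univ _) hne) h
  have hbinj : Function.Injective blk := by
    intro i j h
    by_contra hne
    exact hne_of_disj _ _ (hx.mem i) (hblk i j hne) h
  have hdisj : Disjoint (univ.image e) (Wᶜ.image blk) := by
    rw [Finset.disjoint_left]
    intro a ha hb
    obtain ⟨l, -, rfl⟩ := mem_image.1 ha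
    obtain ⟨i, hi, h⟩ := mem_image.1 hb
    exact hne_of_disj _ _ (he1 l (mem_univ _)).1 (hcross l i hi) h.symm
  have hP := hle (univ.image e ∪ Wᶜ.image blk) (by
    intro a ha
    rcases mem_union.1 ha with ha | ha
    · obtain ⟨l, -, rfl⟩ := mem_image.1 ha
      exact (he1 l (mem_univ _)).1
    · obtain ⟨i, hi, rfl⟩ := mem_image.1 ha
      exact hx.mem i) (by
    intro a ha b hb hab
    rcases mem_union.1 ha with ha | ha <;> rcases mem_union.1 hb with hb | hb
    · obtain ⟨l, -, rfl⟩ := mem_image.1 ha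
      obtain ⟨l', -, rfl⟩ := mem_image.1 hb
      exact he2 l (mem_univ _) l' (mem_univ _) (fun h => hab (h ▸ rfl))
    · obtain ⟨l, -, rfl⟩ := mem_image.1 ha
      obtain ⟨i, hi, rfl⟩ := mem_image.1 hb
      exact hcross l i hi
    · obtain ⟨i, hi, rfl⟩ := mem_image.1 ha
      obtain ⟨l, -, rfl⟩ := mem_image.1 hb
      exact (hcross l i hi).symm
    · obtain ⟨i, hi, rfl⟩ := mem_image.1 ha
      obtain ⟨j, hj, rfl⟩ := mem_image.1 hb
      exact hblk i j (fun h => hab (h ▸ rfl)))
  rw [card_union_of_disjoint hdisj, card_image_of_injective _ heinj,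
    card_image_of_injective _ hbinj, card_univ, card_compl, Fintype.card_fin] at hP
  have hWs : W.card ≤ s := by
    have := card_le_univ W
    rwa [Fintype.card_fin] at this
  calc Fintype.card κ ≤ W.card := by omega
    _ ≤ ∑ c, (J c).card := card_biUnion_le

end Res12
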