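import Pool.Agent.Helper12.Res.Defs
import Pool.Agent.Helper12.Res.Realize

/-!
Ordered triple sums for symmetric functions, degree bounds.
-/

namespace Res12

open Finset

set_option linter.unusedSectionVars false

variable {V : Type} [Fintype V] [DecidableEq V]

/-- symmetric functions of three vertices -/
structure Sym3 (f : V → V → V → ℝ) : Prop where
  s12 : ∀ a b c, f a b c = f b a c
  s23 : ∀ a b c, f a b c = f a c b

/-- sum over a box -/
noncomputable def S3 (f : V → V → V → ℝ) (X Y Z : Finset V) : ℝ :=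
  ∑ a ∈ X, ∑ b ∈ Y, ∑ c ∈ Z, f a b c

theorem S3_swap12 {f : V → V → V → ℝ} (hf : Sym3 f) (X Y Z : Finset V) :
    S3 f X Y Z = S3 f Y X Z := by
  unfold S3
  rw [Finset.sum_comm]
  apply Finset.sum_congr rfl
  intro b _
  apply Finset.sum_congr rfl
  intro a _
  apply Finset.sum_congr rfl
  intro c _
  exact hf.s12 a b c

theorem S3_swap23 {f : V → V → V → ℝ} (hf : Sym3 f) (X Y Z : Finset V) :
    S3 f X Y Z = S3 f X Z Y := by
  unfold S3
  apply Finset.sum_congr rfl
  intro a _
  rw [Finset.sum_comm]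
  apply Finset.sum_congr rfl
  intro c _
  apply Finset.sum_congr rfl
  intro b _
  exact hf.s23 a b c

theorem S3_compl1 (f : V → V → V → ℝ) (C Y Z : Finset V) :
    S3 f univ Y Z = S3 f C Y Z + S3 f Cᶜ Y Z := by
  unfold S3
  exact (Finset.sum_add_sum_compl C _).symm

theorem S3_compl2 (f : V → V → V → ℝ) (C X Z : Finset V) :
    S3 f X univ Z = S3 f X C Z + S3 f X Cᶜ Z := by
  unfold S3
  rw [← Finset.sum_add_distrib]
  apply Finset.sum_congr rfl
  intro a _
  exact (Finset.sum_add_sum_compl C _).symm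

theorem S3_compl3 (f : V → V → V → ℝ) (C X Y : Finset V) :
    S3 f X Y univ = S3 f X Y C + S3 f X Y Cᶜ := by
  unfold S3
  rw [← Finset.sum_add_distrib]
  apply Finset.sum_congr rfl
  intro a _
  rw [← Finset.sum_add_distrib]
  apply Finset.sum_congr rfl
  intro b _
  exact (Finset.sum_add_sum_compl C _).symm

theorem split3 {f : V → V → V → ℝ} (hf : Sym3 f) (C : Finset V) :
    S3 f univ univ univ = S3 f C C C + 3 * S3 f C C Cᶜ + 3 * S3 f C Cᶜ Cᶜ + S3 f Cᶜ Cᶜ Cᶜ := by
  rw [S3_compl1 f C, S3_compl2 f C C, S3_compl2 f C Cᶜ, S3_compl3 f C C C, S3_compl3 f C C Cᶜ,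
    S3_compl3 f C Cᶜ C, S3_compl3 f C Cᶜ Cᶜ]
  have h1 : S3 f C Cᶜ C = S3 f C C Cᶜ := S3_swap23 hf _ _ _
  have h2 : S3 f Cᶜ C C = S3 f C C Cᶜ := by rw [S3_swap12 hf, S3_swap23 hf]
  have h3 : S3 f Cᶜ C Cᶜ = S3 f C Cᶜ Cᶜ := S3_swap12 hf _ _ _
  have h4 : S3 f Cᶜ Cᶜ C = S3 f C Cᶜ Cᶜ := by rw [S3_swap23 hf, S3_swap12 hf]
  rw [h1, h2, h3, h4]
  ring

/-- two-variable splitting at a fixed first vertex -/
theorem split2 {f : V → V → V → ℝ} (hf : Sym3 f) (C : Finset V) (a : V) :
    ∑ b, ∑ c, f a b c = ∑ b ∈ C, ∑ c ∈ C, f a b c + 2 * ∑ b ∈ C, ∑ c ∈ Cᶜ, f a b c +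
      ∑ b ∈ Cᶜ, ∑ c ∈ Cᶜ, f a b c := by
  have h1 : ∀ b, ∑ c, f a b c = ∑ c ∈ C, f a b c + ∑ c ∈ Cᶜ, f a b c := fun b =>
    (Finset.sum_add_sum_compl C _).symm
  rw [← Finset.sum_add_sum_compl C]
  simp only [h1, Finset.sum_add_distrib]
  have h2 : ∑ b ∈ Cᶜ, ∑ c ∈ C, f a b c = ∑ b ∈ C, ∑ c ∈ Cᶜ, f a b c := by
    rw [Finset.sum_comm]
    apply Finset.sum_congr rfl
    intro c _
    apply Finset.sum_congr rfl
    intro b _
    exact hf.s23 a b c
  rw [h2]
  ring

open Classical in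
/-- weighted indicator of an edge -/
noncomputable def tm (F : Finset (Finset V)) (μ : Finset V → ℝ) (a b c : V) : ℝ :=
  if ({a, b, c} : Finset V) ∈ F then μ {a, b, c} else 0

theorem tm_sym (F : Finset (Finset V)) (μ : Finset V → ℝ) : Sym3 (tm F μ) := by
  constructor
  · intro a b c
    unfold tm
    rw [Finset.insert_comm a b {c}]
  · intro a b c
    unfold tm
    rw [Finset.pair_comm b c]

theorem tm_nonneg {F : Finset (Finset V)} {μ : Finset V → ℝ} (h0 : ∀ e, 0 ≤ μ e) (a b c : V) :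
    0 ≤ tm F μ a b c := by
  unfold tm
  split_ifs
  · exact h0 _
  · exact le_rfl

theorem tm_le_one {F : Finset (Finset V)} {μ : Finset V → ℝ} (h1 : ∀ e, μ e ≤ 1) (a b c : V) :
    tm F μ a b c ≤ 1 := by
  unfold tm
  split_ifs
  · exact h1 _
  · exact zero_le_one

theorem tm_le_tm {F F' : Finset (Finset V)} (hF : F' ⊆ F) {μ μ' : Finset V → ℝ}
    (h0 : ∀ e, 0 ≤ μ' e) (h : ∀ e, μ e ≤ μ' e) (a b c : V) :
    tm F' μ a b c ≤ tm F μ' a b c := by
  unfold tm
  split_ifs with h1 h2 h2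
  · exact h _
  · exact absurd (hF h1) h2
  · exact h0 _
  · exact le_rfl

theorem tm_ne_zero {F : Finset (Finset V)} {μ : Finset V → ℝ} {a b c : V}
    (h : tm F μ a b c ≠ 0) : ({a, b, c} : Finset V) ∈ F := by
  unfold tm at h
  split_ifs at h with h1
  · exact h1
  · exact absurd rfl h

theorem sum_tm_one (F : Finset (Finset V)) (a b : V) :
    ∑ c, tm F (fun _ => 1) a b c = ((N F a b).card : ℝ) := by
  unfold tm N
  rw [Finset.sum_ite]
  simp

theorem sum_tm_one_on (F : Finset (Finset V)) (a b : V) (D : Finset V) :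
    ∑ c ∈ D, tm F (fun _ => 1) a b c = ((N F a b ∩ D).card : ℝ) := by
  unfold tm N
  rw [← Finset.sum_filter, Finset.sum_const, nsmul_eq_mul, mul_one]
  congr 2
  ext v
  simp only [mem_filter, mem_inter, mem_univ, true_and]
  exact and_comm

section
variable {F : Finset (Finset V)} {s : ℕ}

/-- cover bound for the link of `v`: if `P` is a maximum matching avoiding `v` -/
theorem Hyp.link_cover (h : Hyp F s) {P : Finset (Finset V)} (hP : P ⊆ F) (hm : IsMatching P)
    (hc : P.card = s) {v b c : V} (hv : ∀ e ∈ P, v ∉ e) (he : ({v, b, c} : Finset V) ∈ F) :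
    b ∈ VS P ∨ c ∈ VS P := by
  by_contra hcon
  push Not at hcon
  apply h.meets hP hm hc he
  rw [Finset.disjoint_left]
  intro w hw hwP
  simp only [mem_insert, mem_singleton] at hw
  rcases hw with rfl | rfl | rfl
  · rw [mem_VS] at hwP
    obtain ⟨e, he, hwe⟩ := hwP
    exact hv e he hwe
  · exact hcon.1 hwP
  · exact hcon.2 hwP

theorem Hyp.N_le (h : Hyp F s) (a b : V) : ((N F a b).card : ℝ) ≤ 3 * s := by
  exact_mod_cast h.card_N_le a b

theorem Hyp.deg_le (h : Hyp F s) (v : V) :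
    ∑ b, ∑ c, tm F (fun _ => 1) v b c ≤ 18 * (s : ℝ) ^ 2 := by
  obtain ⟨P, hP, hm, hc, hav⟩ := h.avoid v v
  have hcov : ∀ b c, tm F (fun _ => 1) v b c ≤
      (if b ∈ VS P then tm F (fun _ => 1) v b c else 0) +
      (if c ∈ VS P then tm F (fun _ => 1) v b c else 0) := by
    intro b c
    by_cases he : ({v, b, c} : Finset V) ∈ F
    · have h0 : 0 ≤ tm F (fun _ => 1) v b c := tm_nonneg (fun _ => zero_le_one) _ _ _
      rcases h.link_cover hP hm hc (fun e he => (hav e he).1) he with h1 | h1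
      · rw [if_pos h1]
        split_ifs <;> linarith
      · rw [if_pos h1]
        split_ifs <;> linarith
    · have h0 : tm F (fun _ => 1) v b c = 0 := by
        unfold tm
        rw [if_neg he]
      rw [h0]
      simp
  have h3 : ((VS P).card : ℝ) = 3 * s := by
    rw [card_VS hm (fun e he => h.three e (hP he)), hc]
    push_cast
    ring
  calc ∑ b, ∑ c, tm F (fun _ => 1) v b c ≤
      ∑ b, ∑ c, ((if b ∈ VS P then tm F (fun _ => 1) v b c else 0) +
      (if c ∈ VS P then tm F (fun _ => 1) v b c else 0)) :=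
        Finset.sum_le_sum fun b _ => Finset.sum_le_sum fun c _ => hcov b c
    _ = ∑ b ∈ VS P, ∑ c, tm F (fun _ => 1) v b c + ∑ c ∈ VS P, ∑ b, tm F (fun _ => 1) v c b := by
        simp only [Finset.sum_add_distrib]
        congr 1
        · have : ∀ b, ∑ c, (if b ∈ VS P then tm F (fun _ => 1) v b c else 0) =
              if b ∈ VS P then ∑ c, tm F (fun _ => 1) v b c else 0 := by
            intro b
            split_ifs <;> simp
          simp only [this]
          rw [Finset.sum_ite_mem, Finset.univ_inter]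
        · rw [Finset.sum_comm]
          have : ∀ c, ∑ b, (if c ∈ VS P then tm F (fun _ => 1) v b c else 0) =
              if c ∈ VS P then ∑ b, tm F (fun _ => 1) v b c else 0 := by
            intro c
            split_ifs <;> simp
          simp only [this]
          rw [Finset.sum_ite_mem, Finset.univ_inter]
          apply Finset.sum_congr rfl
          intro c _
          apply Finset.sum_congr rfl
          intro b _
          exact (tm_sym F _).s23 v b c
    _ ≤ ∑ _b ∈ VS P, (3 * (s : ℝ)) + ∑ _c ∈ VS P, (3 * (s : ℝ)) := by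
        gcongr with b _ b _
        · rw [sum_tm_one]
          exact h.N_le v b
        · rw [sum_tm_one]
          exact h.N_le v b
    _ = 18 * (s : ℝ) ^ 2 := by
        rw [Finset.sum_const, nsmul_eq_mul, h3]
        ring

end

theorem sum_CV {F : Finset (Finset V)} {s : ℕ} {x : Fin s → Fin 3 → V} (hx : Blk F x)
    (g : V → ℝ) : ∑ v ∈ CV x, g v = ∑ j, ∑ α, g (x j α) := by
  unfold CV
  rw [Finset.sum_image]
  · rw [Fintype.sum_prod_type]
  · intro a _ b _ hab
    exact hx.inj hab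

theorem Blk.matching {F : Finset (Finset V)} {s : ℕ} {x : Fin s → Fin 3 → V} (hx : Blk F x) :
    ∃ P ⊆ F, IsMatching P ∧ P.card = s ∧ VS P = CV x ∧
      P = univ.image (fun i => ({x i 0, x i 1, x i 2} : Finset V)) := by
  classical
  have hdis : ∀ i j, i ≠ j → Disjoint ({x i 0, x i 1, x i 2} : Finset V) {x j 0, x j 1, x j 2} := by
    intro i j hij
    rw [Finset.disjoint_left]
    intro v hv hv'
    obtain ⟨α, rfl⟩ := (mem_blk x i).1 hv
    obtain ⟨β, h⟩ := (mem_blk x j).1 hv'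
    exact hij (congrArg Prod.fst (hx.inj (a₁ := (i, α)) (a₂ := (j, β)) h))
  refine ⟨univ.image (fun i => ({x i 0, x i 1, x i 2} : Finset V)), ?_, ?_, ?_, ?_, rfl⟩
  · intro e he
    obtain ⟨i, -, rfl⟩ := mem_image.1 he
    exact hx.mem i
  · intro e he f hf hef
    obtain ⟨i, -, rfl⟩ := mem_image.1 he
    obtain ⟨j, -, rfl⟩ := mem_image.1 hf
    exact hdis i j (fun h => hef (h ▸ rfl))
  · rw [Finset.card_image_of_injective, card_univ, Fintype.card_fin]
    intro i j hij
    by_contra hne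
    have := hdis i j hne
    simp only at hij
    rw [hij, disjoint_self] at this
    have h0 : x j 0 ∈ (⊥ : Finset V) := by
      rw [← this]
      simp
    simp at h0
  · ext v
    rw [mem_VS]
    unfold CV
    simp only [mem_image, mem_univ, true_and]
    constructor
    · rintro ⟨e, ⟨i, rfl⟩, hv⟩
      obtain ⟨α, rfl⟩ := (mem_blk x i).1 hv
      exact ⟨(i, α), rfl⟩
    · rintro ⟨⟨i, α⟩, rfl⟩
      exact ⟨_, ⟨i, rfl⟩, (mem_blk x i).2 ⟨α, rfl⟩⟩

end Res12
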