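import Pool.Agent.Helper12.Res.Cover

/-!
High degree vertices are covered by every maximum matching; link bounds.
-/

namespace Res12

open Finset

set_option linter.unusedSectionVars false

variable {V : Type} [Fintype V] [DecidableEq V]

/-- the ordered edge indicator -/
noncomputable def tt (F : Finset (Finset V)) : V → V → V → ℝ := tm F (fun _ => 1)

/-- twice the degree -/
noncomputable def dg (F : Finset (Finset V)) (v : V) : ℝ := ∑ b, ∑ c, tt F v b c

theorem tt_sym (F : Finset (Finset V)) : Sym3 (tt F) := tm_sym F _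

theorem tt_nonneg (F : Finset (Finset V)) (a b c : V) : 0 ≤ tt F a b c :=
  tm_nonneg (fun _ => zero_le_one) a b c

theorem tt_le_one (F : Finset (Finset V)) (a b c : V) : tt F a b c ≤ 1 :=
  tm_le_one (fun _ => le_rfl) a b c

theorem tt_ne_zero {F : Finset (Finset V)} {a b c : V} (h : tt F a b c ≠ 0) :
    ({a, b, c} : Finset V) ∈ F := tm_ne_zero h

theorem sum_tt (F : Finset (Finset V)) (a b : V) : ∑ c, tt F a b c = ((N F a b).card : ℝ) :=
  sum_tm_one F a b

theorem sum_tt_on (F : Finset (Finset V)) (a b : V) (D : Finset V) :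
    ∑ c ∈ D, tt F a b c = ((N F a b ∩ D).card : ℝ) := sum_tm_one_on F a b D

theorem sum_tt_on_compl (F : Finset (Finset V)) (a b : V) (D : Finset V) :
    ∑ c ∈ Dᶜ, tt F a b c = ((N F a b \ D).card : ℝ) := by
  rw [sum_tt_on]
  congr 2
  ext v
  simp

theorem badf_nonneg (F : Finset (Finset V)) (w : V → ℝ) (ε : ℝ) (a b c : V) :
    0 ≤ badf F w ε a b c := by
  unfold badf
  split_ifs <;> norm_num

/-- pointwise inequality: good edges have weight at least `1 - ε` -/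
theorem tt_le_weight {F : Finset (Finset V)} {w : V → ℝ} {ε : ℝ} (hε : 0 ≤ ε)
    (h0 : ∀ v, 0 ≤ w v) (a b c : V) :
    (1 - ε) * tt F a b c ≤ tt F a b c * (w a + w b + w c) + badf F w ε a b c := by
  unfold badf
  by_cases hF : ({a, b, c} : Finset V) ∈ F
  · have h1 : tt F a b c = 1 := by
      unfold tt tm
      rw [if_pos hF]
    rw [h1]
    by_cases hlt : w a + w b + w c < 1 - ε
    · rw [if_pos ⟨hF, hlt⟩]
      linarith [h0 a, h0 b, h0 c]
    · rw [if_neg (fun hh => hlt hh.2)]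
      linarith
  · have h1 : tt F a b c = 0 := by
      unfold tt tm
      rw [if_neg hF]
    rw [h1, if_neg (fun hh => hF hh.1)]
    simp

/-- data fixed in the stability argument -/
structure St (F : Finset (Finset V)) (s : ℕ) (δ : ℝ) (U : Finset V) (M : Finset (Finset V))
    (w : V → ℝ) : Prop where
  hyp : Hyp F s
  spos : 0 < s
  hδ : 0 < δ
  hδ1 : δ ≤ 1 / 100
  hS : 1 ≤ δ * s
  MF : M ⊆ F
  Mm : IsMatching M
  Mc : M.card = s
  w0 : ∀ v, 0 ≤ w v
  woff : ∀ v, v ∉ VS M → w v = 0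
  wM : ∀ e ∈ M, ∑ v ∈ e, w v = 1
  wbad : ∑ a, ∑ b, ∑ c, badf F w (δ ^ 2) a b c ≤ δ ^ 2 * (s : ℝ) ^ 3
  Ulow : ∀ v, v ∉ U → dg F v ≤ (6 + 2 * δ) * (s : ℝ) ^ 2
  cov : ∀ P ⊆ F, IsMatching P → P.card = s → ((U \ VS P).card : ℝ) ≤ δ * s

section
variable {F : Finset (Finset V)} {s : ℕ}

theorem sum_w_eq {M : Finset (Finset V)} {w : V → ℝ} (Mm : IsMatching M) (Mc : M.card = s)
    (woff : ∀ v, v ∉ VS M → w v = 0) (wM : ∀ e ∈ M, ∑ v ∈ e, w v = 1) : ∑ v, w v = s := by
  have h1 : ∑ v, w v = ∑ v ∈ VS M, w v := by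
    symm
    apply Finset.sum_subset (subset_univ _)
    intro v _ hv
    exact woff v hv
  rw [h1]
  unfold VS
  rw [Finset.sum_biUnion]
  · simp only [id]
    rw [Finset.sum_congr rfl wM]
    simp [Mc]
  · intro e he f hf hef
    exact Mm e he f hf hef

/-- vertices of degree at least `(3 + δ) s²` are covered by every maximum matching, up to `δ s`
exceptions -/
theorem high_cov (h : Hyp F s) (hs : 0 < s) {δ : ℝ} (hδ : 0 < δ) (hδ1 : δ ≤ 1 / 100)
    {P : Finset (Finset V)} (hm : IsMatching P)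
    (hc : P.card = s) {w : V → ℝ} (w0 : ∀ v, 0 ≤ w v) (woff : ∀ v, v ∉ VS P → w v = 0)
    (wM : ∀ e ∈ P, ∑ v ∈ e, w v = 1)
    (wbad : ∑ a, ∑ b, ∑ c, badf F w (δ ^ 2) a b c ≤ δ ^ 2 * (s : ℝ) ^ 3) {U : Finset V}
    (hU : ∀ v ∈ U, (6 + 2 * δ) * (s : ℝ) ^ 2 ≤ dg F v) :
    ((U \ VS P).card : ℝ) ≤ δ * s := by
  have hsR : (0 : ℝ) < s := by exact_mod_cast hs
  set D := U \ VS P with hD
  have hwD : ∀ d ∈ D, w d = 0 := fun d hd => woff d (mem_sdiff.1 hd).2
  have hlow : (D.card : ℝ) * ((6 + 2 * δ) * (s : ℝ) ^ 2) ≤ ∑ d ∈ D, dg F d := by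
    calc (D.card : ℝ) * ((6 + 2 * δ) * (s : ℝ) ^ 2) = ∑ _d ∈ D, (6 + 2 * δ) * (s : ℝ) ^ 2 := by
          rw [Finset.sum_const, nsmul_eq_mul]
      _ ≤ ∑ d ∈ D, dg F d := Finset.sum_le_sum fun d hd => hU d (mem_sdiff.1 hd).1
  have hup : (1 - δ ^ 2) * ∑ d ∈ D, dg F d ≤ 6 * D.card * (s : ℝ) ^ 2 + δ ^ 2 * (s : ℝ) ^ 3 := by
    have h1 : (1 - δ ^ 2) * ∑ d ∈ D, dg F d ≤
        ∑ d ∈ D, ∑ b, ∑ c, (tt F d b c * (w d + w b + w c) + badf F w (δ ^ 2) d b c) := by
      unfold dg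
      rw [Finset.mul_sum]
      apply Finset.sum_le_sum
      intro d _
      rw [Finset.mul_sum]
      apply Finset.sum_le_sum
      intro b _
      rw [Finset.mul_sum]
      apply Finset.sum_le_sum
      intro c _
      exact tt_le_weight (by positivity) w0 d b c
    have h2 : ∑ d ∈ D, ∑ b, ∑ c, badf F w (δ ^ 2) d b c ≤ δ ^ 2 * (s : ℝ) ^ 3 := by
      refine le_trans ?_ wbad
      apply Finset.sum_le_sum_of_subset_of_nonneg (subset_univ _)
      intro a _ _
      exact Finset.sum_nonneg fun b _ => Finset.sum_nonneg fun c _ => badf_nonneg _ _ _ _ _ _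
    have h3 : ∀ d ∈ D, ∑ b, ∑ c, tt F d b c * (w d + w b + w c) ≤ 6 * (s : ℝ) ^ 2 := by
      intro d hd
      have e1 : ∑ b, ∑ c, tt F d b c * (w d + w b + w c) =
          ∑ b, ∑ c, tt F d b c * w b + ∑ b, ∑ c, tt F d b c * w c := by
        rw [← Finset.sum_add_distrib]
        apply Finset.sum_congr rfl
        intro b _
        rw [← Finset.sum_add_distrib]
        apply Finset.sum_congr rfl
        intro c _
        rw [hwD d hd]
        ring
      have e2 : ∑ b, ∑ c, tt F d b c * w c = ∑ b, ∑ c, tt F d b c * w b := by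
        rw [Finset.sum_comm]
        apply Finset.sum_congr rfl
        intro b _
        apply Finset.sum_congr rfl
        intro c _
        rw [(tt_sym F).s23]
      have e3 : ∑ b, ∑ c, tt F d b c * w b ≤ 3 * (s : ℝ) ^ 2 := by
        calc ∑ b, ∑ c, tt F d b c * w b = ∑ b, w b * ((N F d b).card : ℝ) := by
              apply Finset.sum_congr rfl
              intro b _
              rw [← sum_tt, Finset.mul_sum]
              apply Finset.sum_congr rfl
              intro c _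
              ring
          _ ≤ ∑ b, w b * (3 * s) := by
              apply Finset.sum_le_sum
              intro b _
              exact mul_le_mul_of_nonneg_left (h.N_le d b) (w0 b)
          _ = 3 * (s : ℝ) ^ 2 := by
              rw [← Finset.sum_mul, sum_w_eq hm hc woff wM]
              ring
      rw [e1, e2]
      linarith
    calc (1 - δ ^ 2) * ∑ d ∈ D, dg F d ≤
        ∑ d ∈ D, ∑ b, ∑ c, (tt F d b c * (w d + w b + w c) + badf F w (δ ^ 2) d b c) := h1
      _ = ∑ d ∈ D, ∑ b, ∑ c, tt F d b c * (w d + w b + w c) +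
          ∑ d ∈ D, ∑ b, ∑ c, badf F w (δ ^ 2) d b c := by
          simp only [Finset.sum_add_distrib]
      _ ≤ ∑ _d ∈ D, 6 * (s : ℝ) ^ 2 + δ ^ 2 * (s : ℝ) ^ 3 := by
          apply add_le_add _ h2
          exact Finset.sum_le_sum h3
      _ = _ := by
          rw [Finset.sum_const, nsmul_eq_mul]
          ring
  -- conclude
  have hn : (0 : ℝ) ≤ D.card := Nat.cast_nonneg _
  have hδ2 : 0 ≤ 1 - δ ^ 2 := by nlinarith
  have h4 : (1 - δ ^ 2) * ((D.card : ℝ) * ((6 + 2 * δ) * (s : ℝ) ^ 2)) ≤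
      6 * D.card * (s : ℝ) ^ 2 + δ ^ 2 * (s : ℝ) ^ 3 :=
    (mul_le_mul_of_nonneg_left hlow hδ2).trans hup
  have h5 : (D.card : ℝ) * (((1 - δ ^ 2) * (6 + 2 * δ) - 6)) * (s : ℝ) ^ 2 ≤
      (δ ^ 2 * s) * (s : ℝ) ^ 2 := by nlinarith
  have h6 : (D.card : ℝ) * (((1 - δ ^ 2) * (6 + 2 * δ) - 6)) ≤ δ ^ 2 * s :=
    le_of_mul_le_mul_right h5 (by positivity)
  have h7 : δ ≤ (1 - δ ^ 2) * (6 + 2 * δ) - 6 := by nlinarith [sq_nonneg δ]
  have h8 : (D.card : ℝ) * δ ≤ (δ * s) * δ := by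
    calc (D.card : ℝ) * δ ≤ (D.card : ℝ) * ((1 - δ ^ 2) * (6 + 2 * δ) - 6) :=
          mul_le_mul_of_nonneg_left h7 hn
      _ ≤ δ ^ 2 * s := h6
      _ = (δ * s) * δ := by ring
  exact le_of_mul_le_mul_right h8 hδ

end

namespace St

variable {F : Finset (Finset V)} {s : ℕ} {δ : ℝ} {U : Finset V} {M : Finset (Finset V)}
  {w : V → ℝ}

theorem sR (H : St F s δ U M w) : (0 : ℝ) < s := by exact_mod_cast H.spos

theorem sumw (H : St F s δ U M w) : ∑ v, w v = s := sum_w_eq H.Mm H.Mc H.woff H.wM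

theorem w_le_one (H : St F s δ U M w) (v : V) : w v ≤ 1 := by
  by_cases hv : v ∈ VS M
  · obtain ⟨e, he, hve⟩ := mem_VS.1 hv
    rw [← H.wM e he]
    exact Finset.single_le_sum (fun u _ => H.w0 u) hve
  · rw [H.woff v hv]
    exact zero_le_one

theorem card_VS_sdiff (H : St F s δ U M w) {X : Finset V} (hX : X ⊆ U) {P : Finset (Finset V)}
    (hP : P ⊆ F) (hm : IsMatching P) (hc : P.card = s) :
    ((VS P \ X).card : ℝ) ≤ 3 * s - X.card + δ * s := by
  have h1 : ((VS P).card : ℝ) = 3 * s := by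
    rw [card_VS hm (fun e he => H.hyp.three e (hP he)), hc]
    push_cast
    ring
  have h2 := H.cov P hP hm hc
  have h3 : ((X \ VS P).card : ℝ) ≤ ((U \ VS P).card : ℝ) := by
    exact_mod_cast card_le_card (sdiff_subset_sdiff hX (le_refl _))
  have h4 : ((VS P \ X).card : ℝ) + ((VS P ∩ X).card : ℝ) = (VS P).card := by
    exact_mod_cast Finset.card_sdiff_add_card_inter (VS P) X
  have h5 : ((X \ VS P).card : ℝ) + ((X ∩ VS P).card : ℝ) = X.card := by
    exact_mod_cast Finset.card_sdiff_add_card_inter X (VS P)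
  rw [Finset.inter_comm] at h5
  linarith

theorem card_N_sdiff (H : St F s δ U M w) {X : Finset V} (hX : X ⊆ U) (a b : V) :
    ((N F a b \ X).card : ℝ) ≤ 3 * s - X.card + δ * s := by
  obtain ⟨P, hP, hm, hc, hav⟩ := H.hyp.avoid a b
  refine le_trans ?_ (H.card_VS_sdiff hX hP hm hc)
  exact_mod_cast card_le_card (sdiff_subset_sdiff (H.hyp.N_subset hP hm hc hav) (le_refl X))

theorem card_U_le (H : St F s δ U M w) : (U.card : ℝ) ≤ 3 * s + δ * s := by
  have := H.card_VS_sdiff (le_refl U) H.MF H.Mm H.Mc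
  have h0 : (0 : ℝ) ≤ ((VS M \ U).card : ℝ) := Nat.cast_nonneg _
  linarith

/-- pairs outside `U` in the link of `v` -/
noncomputable def ell (F : Finset (Finset V)) (U : Finset V) (v : V) : ℝ :=
  ∑ b ∈ Uᶜ, ∑ c ∈ Uᶜ, tt F v b c

theorem ell_eq (F : Finset (Finset V)) (U : Finset V) (P : Finset (Finset V)) (v : V) :
    ell F U v = ∑ b ∈ VS P \ U, (((N F v b \ U).card : ℝ) + (((N F v b \ U) \ VS P).card : ℝ)) +
      ∑ b ∈ Uᶜ \ VS P, ∑ c ∈ Uᶜ \ VS P, tt F v b c := by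
  have hU : Uᶜ = (VS P \ U) ∪ (Uᶜ \ VS P) := by
    ext u
    simp only [mem_compl, mem_union, mem_sdiff]
    tauto
  have hd : Disjoint (VS P \ U) (Uᶜ \ VS P) := by
    rw [Finset.disjoint_left]
    intro u hu hu'
    exact (mem_sdiff.1 hu').2 (mem_sdiff.1 hu).1
  have hout : ∀ b, ∑ c ∈ Uᶜ \ VS P, tt F v b c = (((N F v b \ U) \ VS P).card : ℝ) := by
    intro b
    rw [sum_tt_on]
    congr 2
    ext u
    simp only [mem_inter, mem_sdiff, mem_compl]
    tauto
  unfold ell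
  have e1 : ∑ b ∈ Uᶜ, ∑ c ∈ Uᶜ, tt F v b c = ∑ b ∈ VS P \ U, ∑ c ∈ Uᶜ, tt F v b c +
      ∑ b ∈ Uᶜ \ VS P, ∑ c ∈ Uᶜ, tt F v b c := by
    conv_lhs => rw [hU]
    rw [Finset.sum_union hd, ← hU]
  have e2 : ∀ b, ∑ c ∈ Uᶜ, tt F v b c = ∑ c ∈ VS P \ U, tt F v b c +
      ∑ c ∈ Uᶜ \ VS P, tt F v b c := by
    intro b
    conv_lhs => rw [hU]
    rw [Finset.sum_union hd]
  have e3 : ∑ b ∈ Uᶜ \ VS P, ∑ c ∈ VS P \ U, tt F v b c =
      ∑ b ∈ VS P \ U, ∑ c ∈ Uᶜ \ VS P, tt F v b c := by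
    rw [Finset.sum_comm]
    apply Finset.sum_congr rfl
    intro c _
    apply Finset.sum_congr rfl
    intro b _
    exact (tt_sym F).s23 v b c
  rw [e1]
  have e4 : ∑ b ∈ Uᶜ \ VS P, ∑ c ∈ Uᶜ, tt F v b c = ∑ b ∈ Uᶜ \ VS P, ∑ c ∈ VS P \ U, tt F v b c +
      ∑ b ∈ Uᶜ \ VS P, ∑ c ∈ Uᶜ \ VS P, tt F v b c := by
    rw [← Finset.sum_add_distrib]
    exact Finset.sum_congr rfl fun b _ => e2 b
  rw [e4, e3, ← add_assoc, Finset.sum_add_distrib]
  congr 2
  · apply Finset.sum_congr rfl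
    intro b _
    rw [sum_tt_on_compl]
  · apply Finset.sum_congr rfl
    intro b _
    rw [hout]

/-- The parameter `c s`. -/
noncomputable def cS (s : ℕ) (δ : ℝ) (U : Finset V) : ℝ := 3 * s - U.card + δ * s

theorem cS_nonneg (H : St F s δ U M w) : 0 ≤ cS s δ U := by
  unfold cS
  have := H.card_U_le
  linarith

theorem tau_le (H : St F s δ U M w) (a b : V) : ((N F a b \ U).card : ℝ) ≤ cS s δ U :=
  H.card_N_sdiff (le_refl U) a b

theorem out_le (H : St F s δ U M w) {P : Finset (Finset V)} (hP : P ⊆ F) (hm : IsMatching P)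
    (hc : P.card = s) (a b : V) :
    (((N F a b \ U) \ VS P).card : ℝ) ≤ min (cS s δ U) (s + 2) := by
  apply le_min
  · refine le_trans ?_ (H.tau_le a b)
    exact_mod_cast card_le_card sdiff_subset
  · have h1 := H.hyp.switch hP hm hc a b
    have h2 : ((N F a b \ U) \ VS P).card ≤ (N F a b \ VS P).card :=
      card_le_card (sdiff_subset_sdiff sdiff_subset (le_refl _))
    exact_mod_cast h2.trans h1

/-- general bound for the pairs outside `U` in a link -/
theorem ell_le (H : St F s δ U M w) (v : V) :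
    ell F U v ≤ cS s δ U * (cS s δ U + min (cS s δ U) (s + 2)) := by
  obtain ⟨P, hP, hm, hc, hav⟩ := H.hyp.avoid v v
  rw [ell_eq F U P v]
  have h0 : ∑ b ∈ Uᶜ \ VS P, ∑ c ∈ Uᶜ \ VS P, tt F v b c = 0 := by
    apply Finset.sum_eq_zero
    intro b hb
    apply Finset.sum_eq_zero
    intro c hc'
    by_contra hne
    rcases H.hyp.link_cover hP hm hc (fun e he => (hav e he).1) (tt_ne_zero hne) with h1 | h1
    · exact (mem_sdiff.1 hb).2 h1
    · exact (mem_sdiff.1 hc').2 h1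
  rw [h0, add_zero]
  have hcs := H.cS_nonneg
  have hmin : 0 ≤ min (cS s δ U) ((s : ℝ) + 2) := le_min hcs (by positivity)
  calc ∑ b ∈ VS P \ U, (((N F v b \ U).card : ℝ) + (((N F v b \ U) \ VS P).card : ℝ)) ≤
        ∑ _b ∈ VS P \ U, (cS s δ U + min (cS s δ U) (s + 2)) := by
        apply Finset.sum_le_sum
        intro b _
        exact add_le_add (H.tau_le v b) (H.out_le hP hm hc v b)
    _ = ((VS P \ U).card : ℝ) * (cS s δ U + min (cS s δ U) (s + 2)) := by
        rw [Finset.sum_const, nsmul_eq_mul]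
    _ ≤ _ := by
        apply mul_le_mul_of_nonneg_right _ (by linarith)
        exact H.card_VS_sdiff (le_refl U) hP hm hc

/-- pairs outside `X ⊆ U` in a link -/
theorem R_le (H : St F s δ U M w) {X : Finset V} (hX : X ⊆ U) (v : V) :
    ∑ b ∈ Xᶜ, ∑ c ∈ Xᶜ, tt F v b c ≤ ((U.card : ℝ) - X.card) ^ 2 +
      2 * ((U.card : ℝ) - X.card) * cS s δ U + ell F U v := by
  have hXc : Xᶜ = (U \ X) ∪ Uᶜ := by
    ext u
    simp only [mem_compl, mem_union, mem_sdiff]
    constructor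
    · intro hu
      by_cases huU : u ∈ U
      · exact Or.inl ⟨huU, hu⟩
      · exact Or.inr huU
    · rintro (hu | hu)
      · exact hu.2
      · exact fun h => hu (hX h)
  have hd : Disjoint (U \ X) Uᶜ := by
    rw [Finset.disjoint_left]
    intro u hu hu'
    exact (mem_compl.1 hu') (mem_sdiff.1 hu).1
  have hcard : ((U \ X).card : ℝ) = (U.card : ℝ) - X.card := by
    rw [card_sdiff_of_subset hX, Nat.cast_sub (card_le_card hX)]
  have e1 : ∑ b ∈ Xᶜ, ∑ c ∈ Xᶜ, tt F v b c =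
      ∑ b ∈ U \ X, ∑ c ∈ U \ X, tt F v b c + 2 * ∑ b ∈ U \ X, ∑ c ∈ Uᶜ, tt F v b c +
      ell F U v := by
    unfold ell
    rw [hXc, Finset.sum_union hd]
    have e2 : ∀ b, ∑ c ∈ (U \ X) ∪ Uᶜ, tt F v b c = ∑ c ∈ U \ X, tt F v b c +
        ∑ c ∈ Uᶜ, tt F v b c := fun b => Finset.sum_union hd
    simp only [e2, Finset.sum_add_distrib]
    have e3 : ∑ b ∈ Uᶜ, ∑ c ∈ U \ X, tt F v b c = ∑ b ∈ U \ X, ∑ c ∈ Uᶜ, tt F v b c := by
      rw [Finset.sum_comm]
      apply Finset.sum_congr rfl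
      intro c _
      apply Finset.sum_congr rfl
      intro b _
      exact (tt_sym F).s23 v b c
    rw [e3]
    ring
  rw [e1]
  have e4 : ∑ b ∈ U \ X, ∑ c ∈ U \ X, tt F v b c ≤ ((U.card : ℝ) - X.card) ^ 2 := by
    calc ∑ b ∈ U \ X, ∑ c ∈ U \ X, tt F v b c ≤ ∑ _b ∈ U \ X, ∑ _c ∈ U \ X, (1 : ℝ) := by
          gcongr with b _ c _
          exact tt_le_one F v b c
      _ = _ := by
          simp only [Finset.sum_const, nsmul_eq_mul, mul_one]
          rw [hcard]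
          ring
  have e5 : ∑ b ∈ U \ X, ∑ c ∈ Uᶜ, tt F v b c ≤ ((U.card : ℝ) - X.card) * cS s δ U := by
    calc ∑ b ∈ U \ X, ∑ c ∈ Uᶜ, tt F v b c ≤ ∑ _b ∈ U \ X, cS s δ U := by
          apply Finset.sum_le_sum
          intro b _
          rw [sum_tt_on_compl]
          exact H.tau_le v b
      _ = _ := by
          rw [Finset.sum_const, nsmul_eq_mul, hcard]
  linarith

end St

end Res12
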