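import Pool.Agent.Helper12.Res.Stab1

/-!
The first charging inequality.
-/

namespace Res12

open Finset

set_option linter.unusedSectionVars false

variable {V : Type} [Fintype V] [DecidableEq V]

namespace St

variable {F : Finset (Finset V)} {s : ℕ} {δ : ℝ} {U : Finset V} {M : Finset (Finset V)}
  {w : V → ℝ}

/-- big vertices -/
noncomputable def XX (U : Finset V) (w : V → ℝ) : Finset V := U.filter (fun v => 2 / 3 < w v)

/-- total bad weight at `v` -/
noncomputable def bad (F : Finset (Finset V)) (w : V → ℝ) (δ : ℝ) (v : V) : ℝ :=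
  ∑ b, ∑ c, badf F w (δ ^ 2) v b c

theorem bad_nonneg (v : V) : 0 ≤ bad F w δ v :=
  Finset.sum_nonneg fun _ _ => Finset.sum_nonneg fun _ _ => badf_nonneg _ _ _ _ _ _

theorem sum_bad_le (H : St F s δ U M w) (D : Finset V) :
    ∑ v ∈ D, bad F w δ v ≤ δ ^ 2 * (s : ℝ) ^ 3 := by
  refine le_trans ?_ H.wbad
  exact Finset.sum_le_sum_of_subset_of_nonneg (subset_univ _) fun v _ _ => bad_nonneg v

theorem XX_sub : XX U w ⊆ U := filter_subset _ _

theorem card_XX_le (H : St F s δ U M w) : ((XX U w).card : ℝ) ≤ s := by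
  classical
  have hsub : ∀ v ∈ XX U w, ∃ e ∈ M, v ∈ e := by
    intro v hv
    have hw : 2 / 3 < w v := (mem_filter.1 hv).2
    by_contra hcon
    have : v ∉ VS M := fun h => hcon (mem_VS.1 h)
    rw [H.woff v this] at hw
    norm_num at hw
  have hcard : (XX U w).card ≤ M.card := by
    apply Finset.card_le_card_of_injOn (fun v => if h : ∃ e ∈ M, v ∈ e then h.choose else ∅)
    · intro v hv
      have h := hsub v hv
      simp only [h, dif_pos]
      exact h.choose_spec.1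
    · intro v hv v' hv' hvv
      have h := hsub v hv
      have h' := hsub v' hv'
      simp only [h, h', dif_pos] at hvv
      by_contra hne
      have h1 : v ∈ h.choose := h.choose_spec.2
      have h2 : v' ∈ h.choose := by
        rw [hvv]
        exact h'.choose_spec.2
      have h3 := H.wM _ h.choose_spec.1
      have h4 : w v + w v' ≤ ∑ u ∈ h.choose, w u := by
        calc w v + w v' = ∑ u ∈ ({v, v'} : Finset V), w u := by
              rw [Finset.sum_pair hne]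
          _ ≤ _ := by
              apply Finset.sum_le_sum_of_subset_of_nonneg
              · intro u hu
                simp only [mem_insert, mem_singleton] at hu
                rcases hu with rfl | rfl <;> assumption
              · intro u _ _
                exact H.w0 u
      have h5 : 2 / 3 < w v := (mem_filter.1 hv).2
      have h6 : 2 / 3 < w v' := (mem_filter.1 hv').2
      linarith
  rw [H.Mc] at hcard
  exact_mod_cast hcard

open Classical in
/-- the part of `out` that is not bad -/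
noncomputable def outp (F : Finset (Finset V)) (U : Finset V) (M : Finset (Finset V)) (w : V → ℝ)
    (δ : ℝ) (v b : V) : ℝ :=
  if w v + w b < 1 - δ ^ 2 then 0 else (((N F v b \ U) \ VS M).card : ℝ)

theorem outp_nonneg (v b : V) : 0 ≤ outp F U M w δ v b := by
  unfold outp
  split_ifs
  · exact le_rfl
  · exact Nat.cast_nonneg _

theorem outp_le (H : St F s δ U M w) (v b : V) :
    outp F U M w δ v b ≤ min (cS s δ U) (s + 2) := by
  unfold outp
  split_ifs
  · exact le_min H.cS_nonneg (by positivity)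
  · exact H.out_le H.MF H.Mm H.Mc v b

theorem outp_le_tau (v b : V) :
    outp F U M w δ v b ≤ ((N F v b \ U).card : ℝ) := by
  unfold outp
  split_ifs
  · exact Nat.cast_nonneg _
  · exact_mod_cast card_le_card sdiff_subset

theorem ell_le_outp (H : St F s δ U M w) {v : V} (hv : w v < 1 - δ ^ 2) :
    ell F U v ≤ ∑ b ∈ VS M \ U, (((N F v b \ U).card : ℝ) + outp F U M w δ v b) +
      bad F w δ v := by
  classical
  rw [ell_eq F U M v]
  have hZ0 : ∀ c ∈ Uᶜ \ VS M, w c = 0 := fun c hc => H.woff c (mem_sdiff.1 hc).2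
  have hout : ∀ b, (((N F v b \ U) \ VS M).card : ℝ) = ∑ c ∈ Uᶜ \ VS M, tt F v b c := by
    intro b
    rw [sum_tt_on]
    congr 2
    ext u
    simp only [mem_inter, mem_sdiff, mem_compl]
    tauto
  have htb : ∀ b, w v + w b < 1 - δ ^ 2 → ∀ c ∈ Uᶜ \ VS M, tt F v b c ≤ badf F w (δ ^ 2) v b c := by
    intro b hb c hc
    unfold tt tm badf
    by_cases hF : ({v, b, c} : Finset V) ∈ F
    · rw [if_pos hF, if_pos ⟨hF, by rw [hZ0 c hc]; linarith⟩]
    · rw [if_neg hF, if_neg (fun hh => hF hh.1)]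
  have h1 : ∀ b ∈ VS M \ U, ((N F v b \ U).card : ℝ) + (((N F v b \ U) \ VS M).card : ℝ) ≤
      (((N F v b \ U).card : ℝ) + outp F U M w δ v b) +
        ∑ c ∈ Uᶜ \ VS M, badf F w (δ ^ 2) v b c := by
    intro b _
    have hnn : 0 ≤ ∑ c ∈ Uᶜ \ VS M, badf F w (δ ^ 2) v b c :=
      Finset.sum_nonneg fun c _ => badf_nonneg _ _ _ _ _ _
    unfold outp
    split_ifs with hlt
    · rw [hout b]
      have : ∑ c ∈ Uᶜ \ VS M, tt F v b c ≤ ∑ c ∈ Uᶜ \ VS M, badf F w (δ ^ 2) v b c :=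
        Finset.sum_le_sum fun c hc => htb b hlt c hc
      linarith
    · linarith
  have h2 : ∑ b ∈ Uᶜ \ VS M, ∑ c ∈ Uᶜ \ VS M, tt F v b c ≤
      ∑ b ∈ Uᶜ \ VS M, ∑ c ∈ Uᶜ \ VS M, badf F w (δ ^ 2) v b c := by
    apply Finset.sum_le_sum
    intro b hb
    apply Finset.sum_le_sum
    intro c hc
    exact htb b (by rw [hZ0 b hb]; linarith) c hc
  have hd : Disjoint (VS M \ U) (Uᶜ \ VS M) := by
    rw [Finset.disjoint_left]
    intro u hu hu'
    exact (mem_sdiff.1 hu').2 (mem_sdiff.1 hu).1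
  have h3 : ∑ b ∈ VS M \ U, ∑ c ∈ Uᶜ \ VS M, badf F w (δ ^ 2) v b c +
      ∑ b ∈ Uᶜ \ VS M, ∑ c ∈ Uᶜ \ VS M, badf F w (δ ^ 2) v b c ≤ bad F w δ v := by
    rw [← Finset.sum_union hd]
    unfold bad
    calc ∑ b ∈ (VS M \ U) ∪ (Uᶜ \ VS M), ∑ c ∈ Uᶜ \ VS M, badf F w (δ ^ 2) v b c ≤
        ∑ b ∈ (VS M \ U) ∪ (Uᶜ \ VS M), ∑ c, badf F w (δ ^ 2) v b c := by
          apply Finset.sum_le_sum
          intro b _
          exact Finset.sum_le_sum_of_subset_of_nonneg (subset_univ _)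
            fun c _ _ => badf_nonneg _ _ _ _ _ _
      _ ≤ _ := Finset.sum_le_sum_of_subset_of_nonneg (subset_univ _)
            fun b _ _ => Finset.sum_nonneg fun c _ => badf_nonneg _ _ _ _ _ _
  have h4 := Finset.sum_le_sum h1
  simp only [Finset.sum_add_distrib] at h4 ⊢
  linarith

/-- the per-vertex bound used for the big vertices -/
noncomputable def BB (s : ℕ) (δ : ℝ) (U : Finset V) (w : V → ℝ) (x : V) : ℝ :=
  cS s δ U + max 0 (min (cS s δ U) s - 2 * (1 - w x) * cS s δ U) + 2 * δ ^ 2 * cS s δ U + 2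

theorem BB_nonneg (H : St F s δ U M w) (x : V) : 0 ≤ BB s δ U w x := by
  unfold BB
  have h1 := H.cS_nonneg
  have h2 : 0 ≤ max 0 (min (cS s δ U) s - 2 * (1 - w x) * cS s δ U) := le_max_left _ _
  have h3 : 0 ≤ 2 * δ ^ 2 * cS s δ U := by positivity
  linarith

theorem min_add_two (a b : ℝ) : min a (b + 2) ≤ min a b + 2 := by
  rcases le_total a b with h | h
  · rw [min_eq_left h]
    have := min_le_left a (b + 2)
    linarith
  · rw [min_eq_right h]
    exact min_le_right _ _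

theorem pair_le (H : St F s δ U M w) (x b : V) :
    ((N F x b \ U).card : ℝ) + outp F U M w δ x b - 2 * w b * ((N F x b \ U).card : ℝ) ≤
      BB s δ U w x := by
  have hτ0 : (0 : ℝ) ≤ ((N F x b \ U).card : ℝ) := Nat.cast_nonneg _
  have hτ := H.tau_le x b
  have ho0 := outp_nonneg (F := F) (U := U) (M := M) (w := w) (δ := δ) x b
  have ho1 := outp_le_tau (F := F) (U := U) (M := M) (w := w) (δ := δ) x b
  have ho2 := H.outp_le x b
  have hc0 := H.cS_nonneg
  have hwb := H.w0 b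
  have hmax0 : 0 ≤ max 0 (min (cS s δ U) s - 2 * (1 - w x) * cS s δ U) := le_max_left _ _
  have hmax1 : min (cS s δ U) s - 2 * (1 - w x) * cS s δ U ≤
      max 0 (min (cS s δ U) s - 2 * (1 - w x) * cS s δ U) := le_max_right _ _
  have hmin := min_add_two (cS s δ U) s
  have hδ2 : 0 ≤ δ ^ 2 * cS s δ U := by positivity
  set τ := ((N F x b \ U).card : ℝ) with hτdef
  set o := outp F U M w δ x b with hodef
  set c := cS s δ U with hcdef
  unfold BB
  rw [← hcdef]
  by_cases hlt : w x + w b < 1 - δ ^ 2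
  · have : o = 0 := by
      rw [hodef]
      unfold outp
      rw [if_pos hlt]
    rw [this]
    nlinarith [mul_nonneg hwb hτ0]
  · push Not at hlt
    by_cases hb : w b ≤ 1 / 2
    · -- (1 - 2 w b) τ ≤ (1 - 2 w b) c
      have h1 : (1 - 2 * w b) * τ ≤ (1 - 2 * w b) * c :=
        mul_le_mul_of_nonneg_left hτ (by linarith)
      have h2 : (1 - 2 * w b) * c ≤ (1 - 2 * (1 - w x) + 2 * δ ^ 2) * c := by
        apply mul_le_mul_of_nonneg_right _ hc0
        linarith
      nlinarith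
    · push Not at hb
      have h1 : (1 - 2 * w b) * τ ≤ (1 - 2 * w b) * o := by
        have : (2 * w b - 1) * o ≤ (2 * w b - 1) * τ :=
          mul_le_mul_of_nonneg_left ho1 (by linarith)
        linarith
      have h2 : (1 - 2 * w b) * o + o ≤ o := by
        have : 0 ≤ (2 * w b - 1) * o := mul_nonneg (by linarith) ho0
        linarith
      have h3 : o ≤ c := ho1.trans hτ
      nlinarith

/-- big vertices: strong case -/
theorem ell_le_BB_strong (H : St F s δ U M w) {x : V} (hx1 : 1 - δ ^ 2 ≤ w x) :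
    ell F U x ≤ cS s δ U * BB s δ U w x := by
  refine (H.ell_le x).trans ?_
  apply mul_le_mul_of_nonneg_left _ H.cS_nonneg
  have hc0 := H.cS_nonneg
  have hmax1 : min (cS s δ U) s - 2 * (1 - w x) * cS s δ U ≤
      max 0 (min (cS s δ U) s - 2 * (1 - w x) * cS s δ U) := le_max_right _ _
  have hmin := min_add_two (cS s δ U) s
  unfold BB
  have h1 : 2 * (1 - w x) * cS s δ U ≤ 2 * δ ^ 2 * cS s δ U := by
    apply mul_le_mul_of_nonneg_right _ hc0
    linarith
  linarith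

/-- big vertices: non-strong case -/
theorem ell_le_BB_weak (H : St F s δ U M w) {x : V} (hx1 : w x < 1 - δ ^ 2) :
    ell F U x - 2 * ∑ b ∈ Uᶜ, w b * ((N F x b \ U).card : ℝ) ≤
      cS s δ U * BB s δ U w x + bad F w δ x := by
  have h1 := H.ell_le_outp hx1
  have h2 : ∑ b ∈ Uᶜ, w b * ((N F x b \ U).card : ℝ) =
      ∑ b ∈ VS M \ U, w b * ((N F x b \ U).card : ℝ) := by
    symm
    apply Finset.sum_subset
    · intro u hu
      exact mem_compl.2 (mem_sdiff.1 hu).2
    · intro u hu hu'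
      rw [mem_compl] at hu
      have : u ∉ VS M := fun h => hu' (mem_sdiff.2 ⟨h, hu⟩)
      rw [H.woff u this, zero_mul]
  have h3 : ∑ b ∈ VS M \ U, (((N F x b \ U).card : ℝ) + outp F U M w δ x b) -
      2 * ∑ b ∈ VS M \ U, w b * ((N F x b \ U).card : ℝ) ≤ cS s δ U * BB s δ U w x := by
    rw [Finset.mul_sum, ← Finset.sum_sub_distrib]
    calc ∑ b ∈ VS M \ U, (((N F x b \ U).card : ℝ) + outp F U M w δ x b -
          2 * (w b * ((N F x b \ U).card : ℝ))) ≤ ∑ _b ∈ VS M \ U, BB s δ U w x := by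
          apply Finset.sum_le_sum
          intro b _
          have := H.pair_le x b
          linarith
      _ = ((VS M \ U).card : ℝ) * BB s δ U w x := by rw [Finset.sum_const, nsmul_eq_mul]
      _ ≤ _ := mul_le_mul_of_nonneg_right (H.card_VS_sdiff (le_refl U) H.MF H.Mm H.Mc)
          (H.BB_nonneg x)
  rw [h2]
  linarith

/-- weight outside `U` -/
noncomputable def Om (U : Finset V) (w : V → ℝ) : ℝ := ∑ b ∈ Uᶜ, w b

theorem Om_nonneg (H : St F s δ U M w) : 0 ≤ Om U w := Finset.sum_nonneg fun b _ => H.w0 b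

/-- non-big vertices -/
theorem ell_le_small (H : St F s δ U M w) {a : V} (ha : w a ≤ 2 / 3) :
    ell F U a ≤ cS s δ U ^ 2 + Om U w / (1 / 3 - δ ^ 2) * (s + 2) + bad F w δ a := by
  classical
  have hδ := H.hδ
  have hδ1 := H.hδ1
  have hδ2 : δ ^ 2 ≤ 1 / 10000 := by nlinarith
  have hpos : 0 < 1 / 3 - δ ^ 2 := by linarith
  have h1 := H.ell_le_outp (v := a) (by linarith)
  have h2 : ∑ b ∈ VS M \ U, (((N F a b \ U).card : ℝ) + outp F U M w δ a b) ≤
      cS s δ U ^ 2 + Om U w / (1 / 3 - δ ^ 2) * (s + 2) := by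
    rw [Finset.sum_add_distrib]
    apply add_le_add
    · calc ∑ b ∈ VS M \ U, ((N F a b \ U).card : ℝ) ≤ ∑ _b ∈ VS M \ U, cS s δ U :=
            Finset.sum_le_sum fun b _ => H.tau_le a b
        _ = ((VS M \ U).card : ℝ) * cS s δ U := by rw [Finset.sum_const, nsmul_eq_mul]
        _ ≤ cS s δ U * cS s δ U := mul_le_mul_of_nonneg_right
            (H.card_VS_sdiff (le_refl U) H.MF H.Mm H.Mc) H.cS_nonneg
        _ = _ := by ring
    · have h3 : ∀ b, outp F U M w δ a b ≤ w b / (1 / 3 - δ ^ 2) * (s + 2) := by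
        intro b
        have hwb := H.w0 b
        by_cases hlt : w a + w b < 1 - δ ^ 2
        · have : outp F U M w δ a b = 0 := by
            unfold outp
            rw [if_pos hlt]
          rw [this]
          positivity
        · push Not at hlt
          have h4 : 1 ≤ w b / (1 / 3 - δ ^ 2) := by
            rw [le_div_iff₀ hpos]
            linarith
          have h5 : outp F U M w δ a b ≤ (s : ℝ) + 2 := (H.outp_le a b).trans (min_le_right _ _)
          have h6 : (0 : ℝ) ≤ (s : ℝ) + 2 := by positivity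
          calc outp F U M w δ a b ≤ 1 * ((s : ℝ) + 2) := by linarith
            _ ≤ _ := mul_le_mul_of_nonneg_right h4 h6
      calc ∑ b ∈ VS M \ U, outp F U M w δ a b ≤ ∑ b ∈ VS M \ U, w b / (1 / 3 - δ ^ 2) * (s + 2) :=
            Finset.sum_le_sum fun b _ => h3 b
        _ ≤ ∑ b ∈ Uᶜ, w b / (1 / 3 - δ ^ 2) * (s + 2) := by
            apply Finset.sum_le_sum_of_subset_of_nonneg
            · intro u hu
              exact mem_compl.2 (mem_sdiff.1 hu).2
            · intro b _ _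
              have := H.w0 b
              positivity
        _ = _ := by
            unfold Om
            rw [← Finset.sum_mul, ← Finset.sum_div]
  linarith

/-- vertices outside `U` -/
theorem R_le_low (H : St F s δ U M w) {X X1 : Finset V} (hX : X ⊆ U) (hX1 : X1 ⊆ X) {a : V}
    (ha : a ∉ U) :
    ∑ b ∈ Xᶜ, ∑ c ∈ Xᶜ, tt F a b c ≤ (6 + 2 * δ) * (s : ℝ) ^ 2 -
      2 * ∑ x ∈ X1, ((N F x a \ U).card : ℝ) := by
  have h0 := H.Ulow a ha
  unfold dg at h0
  have hsw : ∀ b, ((N F b a \ U).card : ℝ) = ∑ c ∈ Uᶜ, tt F a b c := by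
    intro b
    rw [← sum_tt_on_compl]
    apply Finset.sum_congr rfl
    intro c _
    exact (tt_sym F).s12 b a c
  have hUX : Uᶜ ⊆ Xᶜ := by
    intro u hu
    rw [mem_compl] at hu ⊢
    exact fun h => hu (hX h)
  -- split
  have e1 : ∑ b, ∑ c, tt F a b c = ∑ b ∈ X, ∑ c, tt F a b c + ∑ b ∈ Xᶜ, ∑ c, tt F a b c :=
    (Finset.sum_add_sum_compl X _).symm
  have e2 : ∑ b ∈ Xᶜ, ∑ c, tt F a b c = ∑ b ∈ Xᶜ, ∑ c ∈ X, tt F a b c +
      ∑ b ∈ Xᶜ, ∑ c ∈ Xᶜ, tt F a b c := by
    rw [← Finset.sum_add_distrib]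
    apply Finset.sum_congr rfl
    intro b _
    exact (Finset.sum_add_sum_compl X _).symm
  have e3 : ∑ x ∈ X1, ((N F x a \ U).card : ℝ) ≤ ∑ b ∈ X, ∑ c, tt F a b c := by
    calc ∑ x ∈ X1, ((N F x a \ U).card : ℝ) = ∑ x ∈ X1, ∑ c ∈ Uᶜ, tt F a x c :=
          Finset.sum_congr rfl fun x _ => hsw x
      _ ≤ ∑ x ∈ X1, ∑ c, tt F a x c := by
          apply Finset.sum_le_sum
          intro x _
          exact Finset.sum_le_sum_of_subset_of_nonneg (subset_univ _)
            fun c _ _ => tt_nonneg _ _ _ _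
      _ ≤ ∑ x ∈ X, ∑ c, tt F a x c := Finset.sum_le_sum_of_subset_of_nonneg hX1
            fun x _ _ => Finset.sum_nonneg fun c _ => tt_nonneg _ _ _ _
  have e4 : ∑ x ∈ X1, ((N F x a \ U).card : ℝ) ≤ ∑ b ∈ Xᶜ, ∑ c ∈ X, tt F a b c := by
    calc ∑ x ∈ X1, ((N F x a \ U).card : ℝ) = ∑ x ∈ X1, ∑ c ∈ Uᶜ, tt F a x c :=
          Finset.sum_congr rfl fun x _ => hsw x
      _ = ∑ c ∈ Uᶜ, ∑ x ∈ X1, tt F a c x := by
          rw [Finset.sum_comm]
          apply Finset.sum_congr rfl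
          intro c _
          apply Finset.sum_congr rfl
          intro x _
          exact (tt_sym F).s23 a x c
      _ ≤ ∑ c ∈ Uᶜ, ∑ x ∈ X, tt F a c x := by
          apply Finset.sum_le_sum
          intro c _
          exact Finset.sum_le_sum_of_subset_of_nonneg hX1 fun x _ _ => tt_nonneg _ _ _ _
      _ ≤ ∑ c ∈ Xᶜ, ∑ x ∈ X, tt F a c x := Finset.sum_le_sum_of_subset_of_nonneg hUX
            fun x _ _ => Finset.sum_nonneg fun c _ => tt_nonneg _ _ _ _
  linarith

/-- crude bound for the total -/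
theorem total_crude (H : St F s δ U M w) : S3 (tt F) univ univ univ ≤ 162 * (s : ℝ) ^ 3 := by
  have hsym := tt_sym F
  rw [split3 hsym (VS M)]
  have h4 : S3 (tt F) (VS M)ᶜ (VS M)ᶜ (VS M)ᶜ = 0 := by
    unfold S3
    apply Finset.sum_eq_zero
    intro a ha
    apply Finset.sum_eq_zero
    intro b hb
    apply Finset.sum_eq_zero
    intro c hc'
    by_contra hne
    apply H.hyp.meets H.MF H.Mm H.Mc (tt_ne_zero hne)
    rw [Finset.disjoint_left]
    intro v hv hvC
    simp only [mem_insert, mem_singleton] at hv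
    rw [mem_compl] at ha hb hc'
    rcases hv with rfl | rfl | rfl
    · exact ha hvC
    · exact hb hvC
    · exact hc' hvC
  have h5 : ∑ a ∈ VS M, dg F a = S3 (tt F) (VS M) (VS M) (VS M) +
      2 * S3 (tt F) (VS M) (VS M) (VS M)ᶜ + S3 (tt F) (VS M) (VS M)ᶜ (VS M)ᶜ := by
    unfold dg S3
    rw [Finset.mul_sum, ← Finset.sum_add_distrib, ← Finset.sum_add_distrib]
    apply Finset.sum_congr rfl
    intro a _
    exact split2 hsym (VS M) a
  have h6 : ∑ a ∈ VS M, dg F a ≤ 54 * (s : ℝ) ^ 3 := by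
    have hcard : ((VS M).card : ℝ) = 3 * s := by
      rw [card_VS H.Mm (fun e he => H.hyp.three e (H.MF he)), H.Mc]
      push_cast
      ring
    calc ∑ a ∈ VS M, dg F a ≤ ∑ _a ∈ VS M, 18 * (s : ℝ) ^ 2 :=
          Finset.sum_le_sum fun a _ => H.hyp.deg_le a
      _ = 54 * (s : ℝ) ^ 3 := by
          rw [Finset.sum_const, nsmul_eq_mul, hcard]
          ring
  have hnn : ∀ X Y Z : Finset V, 0 ≤ S3 (tt F) X Y Z := fun X Y Z =>
    Finset.sum_nonneg fun _ _ => Finset.sum_nonneg fun _ _ => Finset.sum_nonneg fun _ _ =>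
      tt_nonneg _ _ _ _
  have := hnn (VS M) (VS M) (VS M)
  have := hnn (VS M) (VS M) (VS M)ᶜ
  rw [h4]
  linarith

/-- the part of the total outside `X` is controlled by the weights -/
theorem T0_le (H : St F s δ U M w) (X : Finset V) :
    S3 (tt F) Xᶜ Xᶜ Xᶜ ≤ 3 * ∑ a ∈ Xᶜ, w a * ∑ b ∈ Xᶜ, ∑ c ∈ Xᶜ, tt F a b c +
      163 * δ ^ 2 * (s : ℝ) ^ 3 := by
  have hsym := tt_sym F
  have hδ := H.hδ
  have hδ1 := H.hδ1
  have h1 : (1 - δ ^ 2) * S3 (tt F) Xᶜ Xᶜ Xᶜ ≤
      ∑ a ∈ Xᶜ, ∑ b ∈ Xᶜ, ∑ c ∈ Xᶜ, (tt F a b c * (w a + w b + w c) +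
        badf F w (δ ^ 2) a b c) := by
    unfold S3
    rw [Finset.mul_sum]
    apply Finset.sum_le_sum
    intro a _
    rw [Finset.mul_sum]
    apply Finset.sum_le_sum
    intro b _
    rw [Finset.mul_sum]
    apply Finset.sum_le_sum
    intro c _
    exact tt_le_weight (by positivity) H.w0 a b c
  have h2 : ∑ a ∈ Xᶜ, ∑ b ∈ Xᶜ, ∑ c ∈ Xᶜ, badf F w (δ ^ 2) a b c ≤ δ ^ 2 * (s : ℝ) ^ 3 := by
    refine le_trans ?_ H.wbad
    calc ∑ a ∈ Xᶜ, ∑ b ∈ Xᶜ, ∑ c ∈ Xᶜ, badf F w (δ ^ 2) a b c ≤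
        ∑ a ∈ Xᶜ, ∑ b ∈ Xᶜ, ∑ c, badf F w (δ ^ 2) a b c := by
          apply Finset.sum_le_sum
          intro a _
          apply Finset.sum_le_sum
          intro b _
          exact Finset.sum_le_sum_of_subset_of_nonneg (subset_univ _)
            fun c _ _ => badf_nonneg _ _ _ _ _ _
      _ ≤ ∑ a ∈ Xᶜ, ∑ b, ∑ c, badf F w (δ ^ 2) a b c := by
          apply Finset.sum_le_sum
          intro a _
          exact Finset.sum_le_sum_of_subset_of_nonneg (subset_univ _)
            fun b _ _ => Finset.sum_nonneg fun c _ => badf_nonneg _ _ _ _ _ _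
      _ ≤ _ := Finset.sum_le_sum_of_subset_of_nonneg (subset_univ _)
            fun a _ _ => Finset.sum_nonneg fun b _ => Finset.sum_nonneg
              fun c _ => badf_nonneg _ _ _ _ _ _
  have e2 : ∑ a ∈ Xᶜ, ∑ b ∈ Xᶜ, ∑ c ∈ Xᶜ, tt F a b c * w a =
      ∑ a ∈ Xᶜ, w a * ∑ b ∈ Xᶜ, ∑ c ∈ Xᶜ, tt F a b c := by
    apply Finset.sum_congr rfl
    intro a _
    rw [Finset.mul_sum]
    apply Finset.sum_congr rfl
    intro b _
    rw [Finset.mul_sum]
    apply Finset.sum_congr rfl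
    intro c _
    ring
  have e3 : ∑ a ∈ Xᶜ, ∑ b ∈ Xᶜ, ∑ c ∈ Xᶜ, tt F a b c * w b =
      ∑ a ∈ Xᶜ, w a * ∑ b ∈ Xᶜ, ∑ c ∈ Xᶜ, tt F a b c := by
    rw [← e2, Finset.sum_comm]
    apply Finset.sum_congr rfl
    intro a _
    apply Finset.sum_congr rfl
    intro b _
    apply Finset.sum_congr rfl
    intro c _
    rw [hsym.s12]
  have e4 : ∑ a ∈ Xᶜ, ∑ b ∈ Xᶜ, ∑ c ∈ Xᶜ, tt F a b c * w c =
      ∑ a ∈ Xᶜ, w a * ∑ b ∈ Xᶜ, ∑ c ∈ Xᶜ, tt F a b c := by
    rw [← e3]
    apply Finset.sum_congr rfl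
    intro a _
    rw [Finset.sum_comm]
    apply Finset.sum_congr rfl
    intro b _
    apply Finset.sum_congr rfl
    intro c _
    rw [hsym.s23]
  have e5 : ∑ a ∈ Xᶜ, ∑ b ∈ Xᶜ, ∑ c ∈ Xᶜ, (tt F a b c * (w a + w b + w c) +
        badf F w (δ ^ 2) a b c) =
      ∑ a ∈ Xᶜ, ∑ b ∈ Xᶜ, ∑ c ∈ Xᶜ, tt F a b c * w a +
      ∑ a ∈ Xᶜ, ∑ b ∈ Xᶜ, ∑ c ∈ Xᶜ, tt F a b c * w b +
      ∑ a ∈ Xᶜ, ∑ b ∈ Xᶜ, ∑ c ∈ Xᶜ, tt F a b c * w c +
      ∑ a ∈ Xᶜ, ∑ b ∈ Xᶜ, ∑ c ∈ Xᶜ, badf F w (δ ^ 2) a b c := by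
    simp only [← Finset.sum_add_distrib]
    apply Finset.sum_congr rfl
    intro a _
    apply Finset.sum_congr rfl
    intro b _
    apply Finset.sum_congr rfl
    intro c _
    ring
  rw [e5, e2, e3, e4] at h1
  have h3 : S3 (tt F) Xᶜ Xᶜ Xᶜ ≤ 162 * (s : ℝ) ^ 3 := by
    refine le_trans ?_ H.total_crude
    unfold S3
    calc ∑ a ∈ Xᶜ, ∑ b ∈ Xᶜ, ∑ c ∈ Xᶜ, tt F a b c ≤ ∑ a ∈ Xᶜ, ∑ b ∈ Xᶜ, ∑ c, tt F a b c := by
          apply Finset.sum_le_sum
          intro a _
          apply Finset.sum_le_sum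
          intro b _
          exact Finset.sum_le_sum_of_subset_of_nonneg (subset_univ _)
            fun c _ _ => tt_nonneg _ _ _ _
      _ ≤ ∑ a ∈ Xᶜ, ∑ b, ∑ c, tt F a b c := by
          apply Finset.sum_le_sum
          intro a _
          exact Finset.sum_le_sum_of_subset_of_nonneg (subset_univ _)
            fun b _ _ => Finset.sum_nonneg fun c _ => tt_nonneg _ _ _ _
      _ ≤ _ := Finset.sum_le_sum_of_subset_of_nonneg (subset_univ _)
            fun a _ _ => Finset.sum_nonneg fun b _ => Finset.sum_nonneg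
              fun c _ => tt_nonneg _ _ _ _
  have h4 : δ ^ 2 * S3 (tt F) Xᶜ Xᶜ Xᶜ ≤ δ ^ 2 * (162 * (s : ℝ) ^ 3) :=
    mul_le_mul_of_nonneg_left h3 (by positivity)
  linarith

end St

end Res12
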