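import Pool.Agent.Helper12.Res.Stab2

/-!
The main charging inequality and its normalised form.
-/

namespace Res12

open Finset

set_option linter.unusedSectionVars false

/-! ### real inequalities -/

theorem pt_ineq {c m θ : ℝ} (hc : 0 ≤ c) (hcm : c ≤ m) (hm : 1 ≤ m) (hθ : 0 ≤ θ)
    (hθ1 : θ ≤ 1 / 3) : c * max 0 (min c 1 - 2 * θ * c) ≤ (1 - 3 * θ) * m + θ := by
  have hR : 0 ≤ (1 - 3 * θ) * m + θ := by
    have : 0 ≤ (1 - 3 * θ) * m := mul_nonneg (by linarith) (by linarith)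
    linarith
  rcases le_total 0 (min c 1 - 2 * θ * c) with h | h
  · rw [max_eq_right h]
    rcases le_total c 1 with h1 | h1
    · rw [min_eq_left h1]
      have h2 : c * (c - 2 * θ * c) = c ^ 2 * (1 - 2 * θ) := by ring
      rw [h2]
      have h3 : c ^ 2 ≤ 1 := by nlinarith
      have h4 : c ^ 2 * (1 - 2 * θ) ≤ 1 * (1 - 2 * θ) :=
        mul_le_mul_of_nonneg_right h3 (by linarith)
      have h5 : (1 - 3 * θ) * 1 ≤ (1 - 3 * θ) * m := mul_le_mul_of_nonneg_left hm (by linarith)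
      linarith
    · rw [min_eq_right h1]
      have h5 : (1 - 3 * θ) * c ≤ (1 - 3 * θ) * m := mul_le_mul_of_nonneg_left hcm (by linarith)
      have h6 : 0 ≤ (2 * c - 1) * (c - 1) := mul_nonneg (by linarith) (by linarith)
      have h7 : θ * (c * (3 - 2 * c)) ≤ θ * 1 := by
        apply mul_le_mul_of_nonneg_left _ hθ
        linarith
      nlinarith
  · rw [max_eq_left h, mul_zero]
    exact hR

theorem E0_ineq {k Θ ω : ℝ} (hk : 0 ≤ k) (hk1 : k ≤ 1) (hΘ : 0 ≤ Θ) (hΘk : 3 * Θ ≤ k) :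
    k ^ 3 + 3 * k ^ 2 * (3 - k) + 3 * (k * (3 - k) ^ 2 + (k - 3 * Θ) * (3 - k) + Θ) +
      3 * (1 - k + Θ - ω) * ((3 - k) ^ 2 + 3 * ω) + 18 * ω ≤
    27 - 3 / 4 * k - 9 * (1 - k) * ω ^ 2 := by
  set m := 3 - k with hm
  have hm2 : 2 ≤ m := by linarith
  have hP0 : -2 * m ^ 2 + 3 * m + 3 * m * ω + 3 / 4 - 9 * ω ^ 2 ≤ 0 := by
    nlinarith [sq_nonneg (6 * ω - m)]
  have hP1 : -m ^ 2 + 7 / 4 + 3 * ω + 3 * m * ω - 9 * ω ^ 2 ≤ 0 := by
    nlinarith [sq_nonneg (6 * ω - (1 + m))]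
  have h1 : (k - 3 * Θ) * (-2 * m ^ 2 + 3 * m + 3 * m * ω + 3 / 4 - 9 * ω ^ 2) ≤ 0 :=
    mul_nonpos_of_nonneg_of_nonpos (by linarith) hP0
  have h2 : 3 * Θ * (-m ^ 2 + 7 / 4 + 3 * ω + 3 * m * ω - 9 * ω ^ 2) ≤ 0 :=
    mul_nonpos_of_nonneg_of_nonpos (by linarith) hP1
  have hk' : k = 3 - m := by linarith
  have key : k ^ 3 + 3 * k ^ 2 * m + 3 * (k * m ^ 2 + (k - 3 * Θ) * m + Θ) +
      3 * (1 - k + Θ - ω) * (m ^ 2 + 3 * ω) + 18 * ω -
      (27 - 3 / 4 * k - 9 * (1 - k) * ω ^ 2) =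
      (k - 3 * Θ) * (-2 * m ^ 2 + 3 * m + 3 * m * ω + 3 / 4 - 9 * ω ^ 2) +
      3 * Θ * (-m ^ 2 + 7 / 4 + 3 * ω + 3 * m * ω - 9 * ω ^ 2) := by
    rw [hk']
    ring
  linarith

theorem E_full {k Θ ω c δ r : ℝ} (hk : 0 ≤ k) (hk1 : k ≤ 1) (hΘ : 0 ≤ Θ) (hΘk : 3 * Θ ≤ k)
    (hω : 0 ≤ ω) (hω1 : ω ≤ 1 - k + Θ) (hδ : 0 < δ) (hδ1 : δ ≤ 1 / 100) (hc : 0 ≤ c)
    (hc1 : c ≤ 3 + δ - k) (hr0 : 0 ≤ r) (hr : r ≤ δ) :
    k ^ 3 + 3 * k ^ 2 * (3 + δ - k) + 3 * (k * ((3 + δ - k) ^ 2 + 2 * δ ^ 2 * c ^ 2 + 2 * c * r) +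
      ((k - 3 * Θ) * (3 + δ - k) + Θ)) +
      3 * (1 - k + Θ - ω) * ((3 + δ - k) ^ 2 + (3 * ω + 9 * δ)) + 3 * ω * (6 + 2 * δ) +
      166 * δ ^ 2 ≤
    27 - 3 / 4 * k - 9 * (1 - k) * ω ^ 2 + 100 * δ := by
  have h0 := E0_ineq (ω := ω) hk hk1 hΘ hΘk
  have hm : 2 ≤ 3 - k := by linarith
  have hm3 : 3 - k ≤ 3 := by linarith
  have hc3 : c ≤ 4 := by linarith
  have hv0 : 0 ≤ 1 - k + Θ - ω := by linarith
  have hv1 : 1 - k + Θ - ω ≤ 1 := by linarith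
  have hω1' : ω ≤ 1 := by linarith
  -- error terms
  have e1 : 3 * k ^ 2 * δ ≤ 3 * δ := by
    have : k ^ 2 ≤ 1 := by nlinarith
    nlinarith
  have e2 : k * (2 * (3 - k) * δ + δ ^ 2) ≤ 601 / 100 * δ := by
    have h1 : k * (3 - k) ≤ 2 := by nlinarith
    have h2 : k * (3 - k) * δ ≤ 2 * δ := mul_le_mul_of_nonneg_right h1 hδ.le
    have h3 : k * δ ^ 2 ≤ 1 / 100 * δ := by
      have : δ ^ 2 ≤ 1 / 100 * δ := by nlinarith
      nlinarith [sq_nonneg δ]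
    nlinarith
  have e3 : k * (2 * δ ^ 2 * c ^ 2) ≤ 32 / 100 * δ := by
    have h1 : c ^ 2 ≤ 16 := by nlinarith
    have h2 : k * c ^ 2 ≤ 16 := by nlinarith [sq_nonneg c]
    have h3 : δ ^ 2 ≤ 1 / 100 * δ := by nlinarith
    have h4 : δ ^ 2 * (k * c ^ 2) ≤ (1 / 100 * δ) * 16 :=
      mul_le_mul h3 h2 (by positivity) (by positivity)
    nlinarith
  have e4 : k * (2 * c * r) ≤ 8 * δ := by
    have h1 : k * c ≤ 4 := by nlinarith
    have h2 : (k * c) * r ≤ 4 * δ := mul_le_mul h1 hr hr0 (by norm_num)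
    nlinarith
  have e5 : (k - 3 * Θ) * δ ≤ δ := by
    have : k - 3 * Θ ≤ 1 := by linarith
    nlinarith
  have e6 : (1 - k + Θ - ω) * (2 * (3 - k) * δ + δ ^ 2 + 9 * δ) ≤ 1501 / 100 * δ := by
    have h1 : 2 * (3 - k) * δ + δ ^ 2 + 9 * δ ≤ 1501 / 100 * δ := by nlinarith
    have h2 : 0 ≤ 2 * (3 - k) * δ + δ ^ 2 + 9 * δ := by
      have : 0 ≤ (3 - k) * δ := mul_nonneg (by linarith) hδ.le
      nlinarith [sq_nonneg δ]
    nlinarith
  have e7 : 6 * δ * ω ≤ 6 * δ := by nlinarith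
  have e8 : 166 * δ ^ 2 ≤ 166 / 100 * δ := by nlinarith
  nlinarith

variable {V : Type} [Fintype V] [DecidableEq V]

namespace St

variable {F : Finset (Finset V)} {s : ℕ} {δ : ℝ} {U : Finset V} {M : Finset (Finset V)}
  {w : V → ℝ}

/-- The main charging inequality (not normalised). -/
theorem charge (H : St F s δ U M w) :
    S3 (tt F) univ univ univ ≤ ((XX U w).card : ℝ) ^ 3 +
      3 * ((XX U w).card : ℝ) ^ 2 * (3 * s - (XX U w).card + δ * s) +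
      3 * ∑ x ∈ XX U w, ((((U.card : ℝ) - (XX U w).card) ^ 2 +
        2 * ((U.card : ℝ) - (XX U w).card) * cS s δ U) + cS s δ U * BB s δ U w x) +
      3 * (∑ a ∈ U \ XX U w, w a) * ((((U.card : ℝ) - (XX U w).card) ^ 2 +
        2 * ((U.card : ℝ) - (XX U w).card) * cS s δ U) +
        (cS s δ U ^ 2 + Om U w / (1 / 3 - δ ^ 2) * (s + 2))) +
      3 * Om U w * ((6 + 2 * δ) * (s : ℝ) ^ 2) + 166 * δ ^ 2 * (s : ℝ) ^ 3 := by
  classical
  have hδ := H.hδ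
  have hδ1 := H.hδ1
  set X := XX U w with hX
  have hXU : X ⊆ U := XX_sub
  set A : ℝ := ((U.card : ℝ) - X.card) ^ 2 + 2 * ((U.card : ℝ) - X.card) * cS s δ U with hA
  set B2 : ℝ := cS s δ U ^ 2 + Om U w / (1 / 3 - δ ^ 2) * (s + 2) with hB2
  set X1 := X.filter (fun v => w v < 1 - δ ^ 2) with hX1
  have hX1X : X1 ⊆ X := filter_subset _ _
  let R : V → ℝ := fun a => ∑ b ∈ Xᶜ, ∑ c ∈ Xᶜ, tt F a b c
  have hR : ∀ a, R a ≤ A + ell F U a := fun a => H.R_le hXU a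
  -- pieces
  have p1 : S3 (tt F) X X X ≤ (X.card : ℝ) ^ 3 := by
    unfold S3
    calc ∑ a ∈ X, ∑ b ∈ X, ∑ c ∈ X, tt F a b c ≤ ∑ _a ∈ X, ∑ _b ∈ X, ∑ _c ∈ X, (1 : ℝ) := by
          gcongr
          exact tt_le_one F _ _ _
      _ = _ := by
          simp only [Finset.sum_const, nsmul_eq_mul, mul_one]
          ring
  have p2 : S3 (tt F) X X Xᶜ ≤ (X.card : ℝ) ^ 2 * (3 * s - X.card + δ * s) := by
    unfold S3
    calc ∑ a ∈ X, ∑ b ∈ X, ∑ c ∈ Xᶜ, tt F a b c ≤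
          ∑ _a ∈ X, ∑ _b ∈ X, (3 * s - X.card + δ * s : ℝ) := by
          apply Finset.sum_le_sum
          intro a _
          apply Finset.sum_le_sum
          intro b _
          rw [sum_tt_on_compl]
          exact H.card_N_sdiff hXU a b
      _ = _ := by
          simp only [Finset.sum_const, nsmul_eq_mul]
          ring
  have p3 : S3 (tt F) X Xᶜ Xᶜ ≤ ∑ x ∈ X, (A + ell F U x) := by
    unfold S3
    exact Finset.sum_le_sum fun x _ => hR x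
  have p4 := H.T0_le X
  have hsplit := split3 (tt_sym F) X
  -- weights
  have hXc : Xᶜ = (U \ X) ∪ Uᶜ := by
    ext u
    simp only [mem_compl, mem_union, mem_sdiff]
    constructor
    · intro hu
      by_cases huU : u ∈ U
      · exact Or.inl ⟨huU, hu⟩
      · exact Or.inr huU
    · rintro (hu | hu)
      · exact hu.2
      · exact fun h => hu (hXU h)
  have hd : Disjoint (U \ X) Uᶜ := by
    rw [Finset.disjoint_left]
    intro u hu hu'
    exact (mem_compl.1 hu') (mem_sdiff.1 hu).1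
  have q0 : ∑ a ∈ Xᶜ, w a * R a = ∑ a ∈ U \ X, w a * R a + ∑ a ∈ Uᶜ, w a * R a := by
    conv_lhs => rw [hXc]
    exact Finset.sum_union hd
  have q1 : ∑ a ∈ U \ X, w a * R a ≤ (∑ a ∈ U \ X, w a) * (A + B2) +
      ∑ a ∈ U \ X, bad F w δ a := by
    rw [Finset.sum_mul, ← Finset.sum_add_distrib]
    apply Finset.sum_le_sum
    intro a ha
    have haw : w a ≤ 2 / 3 := by
      by_contra hcon
      push Not at hcon
      exact (mem_sdiff.1 ha).2 (mem_filter.2 ⟨(mem_sdiff.1 ha).1, hcon⟩)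
    have h1 := H.ell_le_small haw
    have h2 := hR a
    have h3 : R a ≤ (A + B2) + bad F w δ a := by linarith
    have h4 := H.w0 a
    have h5 := H.w_le_one a
    have h6 := bad_nonneg (F := F) (w := w) (δ := δ) a
    calc w a * R a ≤ w a * ((A + B2) + bad F w δ a) := mul_le_mul_of_nonneg_left h3 h4
      _ ≤ w a * (A + B2) + bad F w δ a := by nlinarith
  have q2 : ∑ a ∈ Uᶜ, w a * R a ≤ Om U w * ((6 + 2 * δ) * (s : ℝ) ^ 2) -
      2 * ∑ x ∈ X1, ∑ b ∈ Uᶜ, w b * ((N F x b \ U).card : ℝ) := by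
    have h1 : ∀ a ∈ Uᶜ, w a * R a ≤ w a * ((6 + 2 * δ) * (s : ℝ) ^ 2) -
        2 * ∑ x ∈ X1, w a * ((N F x a \ U).card : ℝ) := by
      intro a ha
      have h2 := H.R_le_low hXU hX1X (mem_compl.1 ha)
      have h3 : w a * R a ≤ w a * ((6 + 2 * δ) * (s : ℝ) ^ 2 -
        2 * ∑ x ∈ X1, ((N F x a \ U).card : ℝ)) := mul_le_mul_of_nonneg_left h2 (H.w0 a)
      rw [← Finset.mul_sum]
      linarith
    calc ∑ a ∈ Uᶜ, w a * R a ≤ ∑ a ∈ Uᶜ, (w a * ((6 + 2 * δ) * (s : ℝ) ^ 2) -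
        2 * ∑ x ∈ X1, w a * ((N F x a \ U).card : ℝ)) := Finset.sum_le_sum h1
      _ = _ := by
          rw [Finset.sum_sub_distrib, ← Finset.sum_mul, ← Finset.mul_sum]
          unfold Om
          congr 2
          exact Finset.sum_comm
  have q3 : ∑ x ∈ X, ell F U x - 2 * ∑ x ∈ X1, ∑ b ∈ Uᶜ, w b * ((N F x b \ U).card : ℝ) ≤
      ∑ x ∈ X, cS s δ U * BB s δ U w x + ∑ x ∈ X, bad F w δ x := by
    have hs1 : ∑ x ∈ X, ell F U x = ∑ x ∈ X1, ell F U x +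
        ∑ x ∈ X.filter (fun v => ¬ w v < 1 - δ ^ 2), ell F U x :=
      (Finset.sum_filter_add_sum_filter_not X _ _).symm
    have hs2 : ∑ x ∈ X, cS s δ U * BB s δ U w x = ∑ x ∈ X1, cS s δ U * BB s δ U w x +
        ∑ x ∈ X.filter (fun v => ¬ w v < 1 - δ ^ 2), cS s δ U * BB s δ U w x :=
      (Finset.sum_filter_add_sum_filter_not X _ _).symm
    have hs3 : ∑ x ∈ X1, bad F w δ x ≤ ∑ x ∈ X, bad F w δ x :=
      Finset.sum_le_sum_of_subset_of_nonneg hX1X fun x _ _ => bad_nonneg x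
    have h1 : ∑ x ∈ X1, ell F U x - 2 * ∑ x ∈ X1, ∑ b ∈ Uᶜ, w b * ((N F x b \ U).card : ℝ) ≤
        ∑ x ∈ X1, cS s δ U * BB s δ U w x + ∑ x ∈ X1, bad F w δ x := by
      rw [Finset.mul_sum, ← Finset.sum_sub_distrib, ← Finset.sum_add_distrib]
      apply Finset.sum_le_sum
      intro x hx
      exact H.ell_le_BB_weak (mem_filter.1 hx).2
    have h2 : ∑ x ∈ X.filter (fun v => ¬ w v < 1 - δ ^ 2), ell F U x ≤
        ∑ x ∈ X.filter (fun v => ¬ w v < 1 - δ ^ 2), cS s δ U * BB s δ U w x := by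
      apply Finset.sum_le_sum
      intro x hx
      exact H.ell_le_BB_strong (not_lt.1 (mem_filter.1 hx).2)
    linarith
  have q4 : ∑ x ∈ X, bad F w δ x + ∑ a ∈ U \ X, bad F w δ a ≤ δ ^ 2 * (s : ℝ) ^ 3 := by
    have hdd : Disjoint X (U \ X) := disjoint_sdiff
    rw [← Finset.sum_union hdd]
    exact H.sum_bad_le _
  have q5 : ∑ x ∈ X, (A + ell F U x) = ∑ _x ∈ X, A + ∑ x ∈ X, ell F U x :=
    Finset.sum_add_distrib
  have q6 : ∑ x ∈ X, (A + cS s δ U * BB s δ U w x) = ∑ _x ∈ X, A +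
      ∑ x ∈ X, cS s δ U * BB s δ U w x := Finset.sum_add_distrib
  rw [hsplit, q6]
  rw [q5] at p3
  have p4' : S3 (tt F) Xᶜ Xᶜ Xᶜ ≤ 3 * ∑ a ∈ Xᶜ, w a * R a + 163 * δ ^ 2 * (s : ℝ) ^ 3 := p4
  rw [q0] at p4'
  linarith

/-- normalised form -/
theorem stage1 (H : St F s δ U M w) :
    S3 (tt F) univ univ univ ≤ (27 - 3 / 4 * ((XX U w).card / s) -
      9 * (1 - (XX U w).card / s) * (Om U w / s) ^ 2 + 100 * δ) * (s : ℝ) ^ 3 := by
  have hs := H.sR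
  have hδ := H.hδ
  have hδ1 := H.hδ1
  have hch := H.charge
  set X := XX U w with hX
  have hXU : X ⊆ U := XX_sub
  set n : ℝ := (s : ℝ) with hn
  obtain ⟨k, hk⟩ : ∃ k : ℝ, (X.card : ℝ) = k * n := ⟨X.card / n, by field_simp⟩
  obtain ⟨u, hu⟩ : ∃ u : ℝ, (U.card : ℝ) = u * n := ⟨U.card / n, by field_simp⟩
  obtain ⟨ω, hω⟩ : ∃ ω : ℝ, Om U w = ω * n := ⟨Om U w / n, by field_simp⟩
  obtain ⟨Θ, hΘ⟩ : ∃ Θ : ℝ, ∑ x ∈ X, (1 - w x) = Θ * n :=
    ⟨(∑ x ∈ X, (1 - w x)) / n, by field_simp⟩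
  set c : ℝ := 3 - u + δ with hc
  have hcS : cS s δ U = c * n := by
    unfold cS
    rw [hu, hc]
    ring
  have hk0 : 0 ≤ k := by
    have : (0 : ℝ) ≤ X.card := Nat.cast_nonneg _
    rw [hk] at this
    exact nonneg_of_mul_nonneg_left this hs
  have hk1 : k ≤ 1 := by
    have := H.card_XX_le
    rw [← hX, hk] at this
    have : k * n ≤ 1 * n := by linarith
    exact le_of_mul_le_mul_right this hs
  have hku : k ≤ u := by
    have : (X.card : ℝ) ≤ U.card := by exact_mod_cast card_le_card hXU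
    rw [hk, hu] at this
    exact le_of_mul_le_mul_right this hs
  have hc0 : 0 ≤ c := by
    have := H.cS_nonneg
    rw [hcS] at this
    exact nonneg_of_mul_nonneg_left this hs
  have hω0 : 0 ≤ ω := by
    have := H.Om_nonneg
    rw [hω] at this
    exact nonneg_of_mul_nonneg_left this hs
  have hθ : ∀ x ∈ X, 0 ≤ 1 - w x ∧ 1 - w x ≤ 1 / 3 := by
    intro x hx
    have h1 := H.w_le_one x
    have h2 : 2 / 3 < w x := (mem_filter.1 hx).2
    constructor <;> linarith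
  have hΘ0 : 0 ≤ Θ := by
    have : 0 ≤ ∑ x ∈ X, (1 - w x) := Finset.sum_nonneg fun x hx => (hθ x hx).1
    rw [hΘ] at this
    exact nonneg_of_mul_nonneg_left this hs
  have hΘk : 3 * Θ ≤ k := by
    have : ∑ x ∈ X, (1 - w x) ≤ ∑ _x ∈ X, (1 / 3 : ℝ) := Finset.sum_le_sum fun x hx => (hθ x hx).2
    rw [hΘ, Finset.sum_const, nsmul_eq_mul, hk] at this
    have : (3 * Θ) * n ≤ k * n := by linarith
    exact le_of_mul_le_mul_right this hs
  -- total weight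
  have hXw : ∑ x ∈ X, w x = (k - Θ) * n := by
    have : ∑ x ∈ X, (1 - w x) = X.card - ∑ x ∈ X, w x := by
      rw [Finset.sum_sub_distrib]
      simp
    rw [hΘ, hk] at this
    linarith
  have hWU : ∑ a ∈ U \ X, w a = (1 - k + Θ - ω) * n := by
    have h1 : ∑ v, w v = ∑ v ∈ U, w v + ∑ v ∈ Uᶜ, w v := (Finset.sum_add_sum_compl U _).symm
    have h2 : ∑ v ∈ U, w v = ∑ v ∈ U \ X, w v + ∑ v ∈ X, w v :=
      (Finset.sum_sdiff hXU).symm
    have h3 := H.sumw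
    have h4 : ∑ v ∈ Uᶜ, w v = ω * n := hω
    rw [h1, h2, hXw, h4] at h3
    linarith
  have hWU0 : 0 ≤ 1 - k + Θ - ω := by
    have : 0 ≤ ∑ a ∈ U \ X, w a := Finset.sum_nonneg fun a _ => H.w0 a
    rw [hWU] at this
    exact nonneg_of_mul_nonneg_left this hs
  -- the sum over X
  have hm1 : (1 : ℝ) ≤ 3 + δ - k := by linarith
  have hcm : c ≤ 3 + δ - k := by rw [hc]; linarith
  have hBB : ∑ x ∈ X, cS s δ U * BB s δ U w x ≤
      (k * (c ^ 2 + 2 * δ ^ 2 * c ^ 2 + 2 * c * (1 / n)) + ((k - 3 * Θ) * (3 + δ - k) + Θ)) *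
        n ^ 3 := by
    have h1 : ∀ x ∈ X, cS s δ U * BB s δ U w x ≤
        (c ^ 2 + 2 * δ ^ 2 * c ^ 2 + 2 * c * (1 / n)) * n ^ 2 +
          ((1 - 3 * (1 - w x)) * (3 + δ - k) + (1 - w x)) * n ^ 2 := by
      intro x hx
      unfold BB
      rw [hcS]
      have h2 : max 0 (min (c * n) n - 2 * (1 - w x) * (c * n)) =
          n * max 0 (min c 1 - 2 * (1 - w x) * c) := by
        have hmin : min (c * n) n = n * min c 1 := by
          rw [mul_min_of_nonneg _ _ hs.le, mul_one, mul_comm]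
        rw [mul_max_of_nonneg _ _ hs.le, mul_zero, hmin]
        congr 1
        ring
      rw [h2]
      have h3 := pt_ineq hc0 hcm hm1 (hθ x hx).1 (hθ x hx).2
      have h4 : (c * max 0 (min c 1 - 2 * (1 - w x) * c)) * n ^ 2 ≤
          ((1 - 3 * (1 - w x)) * (3 + δ - k) + (1 - w x)) * n ^ 2 :=
        mul_le_mul_of_nonneg_right h3 (by positivity)
      have h5 : 2 * c * (1 / n) * n ^ 2 = 2 * c * n := by
        field_simp
      nlinarith
    calc ∑ x ∈ X, cS s δ U * BB s δ U w x ≤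
          ∑ x ∈ X, ((c ^ 2 + 2 * δ ^ 2 * c ^ 2 + 2 * c * (1 / n)) * n ^ 2 +
          ((1 - 3 * (1 - w x)) * (3 + δ - k) + (1 - w x)) * n ^ 2) := Finset.sum_le_sum h1
      _ = X.card * ((c ^ 2 + 2 * δ ^ 2 * c ^ 2 + 2 * c * (1 / n)) * n ^ 2) +
          ((X.card - 3 * ∑ x ∈ X, (1 - w x)) * (3 + δ - k) + ∑ x ∈ X, (1 - w x)) * n ^ 2 := by
          rw [Finset.sum_add_distrib, Finset.sum_const, nsmul_eq_mul, ← Finset.sum_mul,
            Finset.sum_add_distrib, ← Finset.sum_mul, Finset.sum_sub_distrib (fun _ => (1 : ℝ)),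
            ← Finset.mul_sum]
          simp
      _ = _ := by
          rw [hΘ, hk]
          ring
  -- the small term
  have hsm : Om U w / (1 / 3 - δ ^ 2) * (n + 2) ≤ (3 * ω + 9 * δ) * n ^ 2 := by
    have hpos : 0 < 1 / 3 - δ ^ 2 := by nlinarith
    rw [hω, div_mul_eq_mul_div, div_le_iff₀ hpos]
    have hω1 : ω ≤ 1 := by linarith
    have h2n : (2 : ℝ) ≤ 2 * δ * n := by
      have := H.hS
      linarith
    have h3 : ω * n * (n + 2) ≤ ω * n * (n + 2 * δ * n) := by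
      apply mul_le_mul_of_nonneg_left _ (by positivity)
      linarith
    have h4 : ω * n * (n + 2 * δ * n) = ω * (1 + 2 * δ) * n ^ 2 := by ring
    have h5 : ω * (1 + 2 * δ) ≤ (3 * ω + 9 * δ) * (1 / 3 - δ ^ 2) := by
      have hd2 : δ ^ 2 ≤ 1 / 100 * δ := by nlinarith
      nlinarith [mul_nonneg hω0 hδ.le, mul_le_mul_of_nonneg_right hω1 hδ.le,
        mul_le_mul_of_nonneg_left hd2 hω0, mul_le_mul_of_nonneg_left hd2 hδ.le]
    calc ω * n * (n + 2) ≤ ω * (1 + 2 * δ) * n ^ 2 := by rw [← h4]; exact h3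
      _ ≤ ((3 * ω + 9 * δ) * (1 / 3 - δ ^ 2)) * n ^ 2 :=
          mul_le_mul_of_nonneg_right h5 (by positivity)
      _ = _ := by ring
  have hr : 1 / n ≤ δ := by
    rw [div_le_iff₀ hs]
    exact H.hS
  have hE := E_full (r := 1 / n) hk0 hk1 hΘ0 hΘk hω0 (by linarith) hδ hδ1 hc0 hcm (by positivity) hr
  -- combine
  have hdiv1 : (X.card : ℝ) / n = k := by rw [hk]; field_simp
  have hdiv2 : Om U w / n = ω := by rw [hω]; field_simp
  rw [hdiv1, hdiv2]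
  refine hch.trans ?_
  have hsumA : ∑ x ∈ X, ((((U.card : ℝ) - X.card) ^ 2 +
        2 * ((U.card : ℝ) - X.card) * cS s δ U) + cS s δ U * BB s δ U w x) =
      X.card * (((U.card : ℝ) - X.card) ^ 2 + 2 * ((U.card : ℝ) - X.card) * cS s δ U) +
        ∑ x ∈ X, cS s δ U * BB s δ U w x := by
    rw [Finset.sum_add_distrib, Finset.sum_const, nsmul_eq_mul]
  rw [hsumA, hWU]
  have hcc : (u - k) ^ 2 + 2 * (u - k) * c + c ^ 2 = (3 + δ - k) ^ 2 := by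
    rw [hc]
    ring
  have hn3 : (0 : ℝ) ≤ n ^ 3 := by positivity
  have hE' := mul_le_mul_of_nonneg_right hE hn3
  have hsm' : 3 * ((1 - k + Θ - ω) * n) * (Om U w / (1 / 3 - δ ^ 2) * (n + 2)) ≤
      3 * ((1 - k + Θ - ω) * n) * ((3 * ω + 9 * δ) * n ^ 2) :=
    mul_le_mul_of_nonneg_left hsm (by positivity)
  rw [hcS, hk, hu]
  rw [hω] at hsm' ⊢
  have hA2 : 3 * (k * n * ((u * n - k * n) ^ 2 + 2 * (u * n - k * n) * (c * n))) =
      3 * (k * ((3 + δ - k) ^ 2 - c ^ 2)) * n ^ 3 := by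
    rw [← hcc]
    ring
  have hA3 : 3 * ((1 - k + Θ - ω) * n) * ((u * n - k * n) ^ 2 + 2 * (u * n - k * n) * (c * n) +
      (c * n) ^ 2) = 3 * (1 - k + Θ - ω) * (3 + δ - k) ^ 2 * n ^ 3 := by
    rw [← hcc]
    ring
  rw [hcS] at hBB
  nlinarith [hE', hsm', hBB, hA2, hA3]

end St

end Res12
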